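import Pool.Agent.Helper34.Weld.Cell

set_option autoImplicit false

namespace Pool.Agent.Helper34.Weld

open Complex Set Filter Topology MeasureTheory
open scoped ContDiff

noncomputable section

lemma ep_pos : 0 < ep := by unfold ep; norm_num

/-- the elementary oscillation -/
def gN (χ : ℝ → ℝ) (N : ℕ) (y : ℝ) : ℝ := y + 4 / N * (ep * χ y) * Real.sin (N * y)

lemma gN_hasDeriv {χ : ℝ → ℝ} (hχ : ContDiff ℝ ∞ χ) (N : ℕ) (y : ℝ) :
    HasDerivAt (gN χ N) (1 + (4 / N * (ep * deriv χ y) * Real.sin (N * y) +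
      4 / N * (ep * χ y) * (Real.cos (N * y) * (N * 1)))) y := by
  have h1 : HasDerivAt (fun y : ℝ => Real.sin (N * y)) (Real.cos (N * y) * (N * 1)) y :=
    ((hasDerivAt_id y).const_mul (N : ℝ)).sin
  exact (hasDerivAt_id y).add ((((smooth_hasDerivAt hχ y).const_mul ep).const_mul
    (4 / (N : ℝ))).mul h1)

lemma gN_sub (χ : ℝ → ℝ) (χ01 : ∀ y, 0 ≤ χ y ∧ χ y ≤ 1) (N : ℕ) (hN : 1 ≤ N) (y : ℝ) :
    |gN χ N y - y| ≤ 4 * ep / N := by
  have hN' : (0:ℝ) < N := by exact_mod_cast hN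
  have : gN χ N y - y = 4 * ep / N * (χ y * Real.sin (N * y)) := by unfold gN; ring
  rw [this, abs_mul, abs_of_pos (by have := ep_pos; positivity : 0 < 4 * ep / N), abs_mul,
    abs_of_nonneg (χ01 y).1]
  have h1 := Real.abs_sin_le_one (N * y)
  have h2 : χ y * |Real.sin (N * y)| ≤ 1 := by
    nlinarith [(χ01 y).1, (χ01 y).2, abs_nonneg (Real.sin (N * y))]
  have h3 : 0 < 4 * ep / N := by have := ep_pos; positivity
  nlinarith

theorem base_step {v χ : ℝ → ℝ} (hv : ContDiff ℝ ∞ v) (vper : ∀ y, v (y + 2 * Real.pi) = v y)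
    (hχ : ContDiff ℝ ∞ χ) (χper : ∀ y, χ (y + 2 * Real.pi) = χ y)
    (v0 : ∀ y, 0 ≤ v y) (vm : ∀ y, v y ≤ 2)
    (hmean : ∫ y in (0:ℝ)..(2 * Real.pi), v y = 2 * Real.pi)
    (χ01 : ∀ y, 0 ≤ χ y ∧ χ y ≤ 1) :
    ∃ K : ℝ, 0 ≤ K ∧ ∀ η : ℝ, 0 < η → ∃ N : ℕ, 1 ≤ N ∧ ∃ P ∈ Ppos, ∃ V ∈ Pneg,
      (∀ y, ‖P y‖ ≤ K) ∧ (∀ y, ‖V y‖ ≤ K) ∧ St (gN χ N) ∧
      (∀ y, |deriv (gN χ N) y - 1| ≤ 5 * ep) ∧
      (∀ y, ‖P (gN χ N y) + 1 - V y - v y * W (ep * χ y) (N * y)‖ ≤ η) := by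
  have hep := ep_pos
  have hep1 : ep ≤ 1 := by unfold ep; norm_num
  -- complex amplitude functions
  have hvc : ContDiff ℝ ∞ fun y => (v y : ℂ) := Complex.ofRealCLM.contDiff.comp hv
  have hχc : ContDiff ℝ ∞ fun y => ((ep * χ y : ℝ) : ℂ) :=
    Complex.ofRealCLM.contDiff.comp (contDiff_const.mul hχ)
  let a1 : ℝ → ℂ := fun y => (v y : ℂ) * ((ep * χ y : ℝ) : ℂ)
  let a2 : ℝ → ℂ := fun y => (v y : ℂ) * ((ep * χ y : ℝ) : ℂ) ^ 2
  have ha1 : ContDiff ℝ ∞ a1 := hvc.mul hχc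
  have ha2 : ContDiff ℝ ∞ a2 := hvc.mul (hχc.pow 2)
  have a1p : ∀ y, a1 (y + 2 * Real.pi) = a1 y := by
    intro y; show (v (y + 2 * Real.pi) : ℂ) * ((ep * χ (y + 2 * Real.pi) : ℝ) : ℂ) = _
    rw [vper, χper]
  have a2p : ∀ y, a2 (y + 2 * Real.pi) = a2 y := by
    intro y; show (v (y + 2 * Real.pi) : ℂ) * ((ep * χ (y + 2 * Real.pi) : ℝ) : ℂ) ^ 2 = _
    rw [vper, χper]
  have hs01 : ∀ y, 0 ≤ ep * χ y ∧ ep * χ y ≤ 1 := by
    intro y
    have := χ01 y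
    exact ⟨by nlinarith [this.1], by nlinarith [this.1, this.2]⟩
  have a1b : ∀ y, ‖a1 y‖ ≤ 2 := by
    intro y
    show ‖(v y : ℂ) * ((ep * χ y : ℝ) : ℂ)‖ ≤ 2
    rw [norm_mul, Complex.norm_real, Complex.norm_real, Real.norm_of_nonneg (v0 y),
      Real.norm_of_nonneg (hs01 y).1]
    nlinarith [v0 y, vm y, (hs01 y).1, (hs01 y).2]
  have a2b : ∀ y, ‖a2 y‖ ≤ 2 := by
    intro y
    show ‖(v y : ℂ) * ((ep * χ y : ℝ) : ℂ) ^ 2‖ ≤ 2
    rw [norm_mul, norm_pow, Complex.norm_real, Complex.norm_real, Real.norm_of_nonneg (v0 y),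
      Real.norm_of_nonneg (hs01 y).1]
    have : (ep * χ y) ^ 2 ≤ 1 := by nlinarith [(hs01 y).1, (hs01 y).2]
    nlinarith [v0 y, vm y, sq_nonneg (ep * χ y)]
  obtain ⟨B, hB0, hB⟩ := fourier_split hvc (fun y => by rw [vper])
  have hcf : cf (fun y => (v y : ℂ)) 0 = 1 := by
    unfold cf
    have : (∫ x in (0:ℝ)..(2 * Real.pi), E (-0) x * (v x : ℂ)) = ((2 * Real.pi : ℝ) : ℂ) := by
      have h2 : (∫ x in (0:ℝ)..(2 * Real.pi), E (-0) x * (v x : ℂ)) =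
          ∫ x in (0:ℝ)..(2 * Real.pi), (v x : ℂ) := by
        apply intervalIntegral.integral_congr
        intro y _
        show E (-0) y * (v y : ℂ) = (v y : ℂ)
        rw [neg_zero, E_zero, one_mul]
      rw [h2, intervalIntegral.integral_ofReal, hmean]
    rw [this, ← Complex.ofReal_mul]
    have : (1 / (2 * Real.pi) * (2 * Real.pi) : ℝ) = 1 := by
      have := Real.pi_ne_zero
      field_simp
    rw [this, Complex.ofReal_one]
  refine ⟨B + 6, by linarith, ?_⟩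
  intro η₀ hη₀
  -- wlog η ≤ 1
  set η := min η₀ 1 with hηdef
  have hη : 0 < η := lt_min hη₀ one_pos
  have hη1 : η ≤ 1 := min_le_right _ _
  have hηη : η ≤ η₀ := min_le_left _ _
  have hη8 : 0 < η / 8 := by positivity
  obtain ⟨V₁, hV₁, V₂, hV₂, hV₁b, hV₂b, hV⟩ := hB (η / 8) hη8
  rw [hcf] at hV
  obtain ⟨r₁, hr₁, hu₁⟩ := per_unif (tp_pos hV₁).smooth.continuous (tp_pos hV₁).per hη8
  obtain ⟨r₂, hr₂, hu₂⟩ := per_unif ha1.continuous a1p hη8
  obtain ⟨r₃, hr₃, hu₃⟩ := per_unif ha2.continuous a2p hη8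
  obtain ⟨N₁, hN₁⟩ := approx_pos St_id ha1 a1p hη8
  obtain ⟨N₂, hN₂⟩ := approx_pos St_id ha2 a2p hη8
  obtain ⟨B', hB'0, hB'⟩ := per_bdd (smooth_deriv hχ).continuous (per_deriv χper)
  set r := min r₁ (min r₂ r₃) with hr
  have hr0 : 0 < r := by positivity
  obtain ⟨N₃, hN₃⟩ := exists_nat_ge (4 * ep / r + 4 * B')
  set N : ℕ := N₁ + N₂ + N₃ + 1 with hN
  have hN1 : 1 ≤ N := by omega
  have hNpos : (0:ℝ) < N := by exact_mod_cast hN1
  have hNbig : 4 * ep / r + 4 * B' ≤ N := hN₃.trans (by exact_mod_cast (by omega : N₃ ≤ N))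
  have hgr : ∀ y, |gN χ N y - y| ≤ r := by
    intro y
    refine (gN_sub χ χ01 N hN1 y).trans ?_
    rw [div_le_iff₀ hNpos]
    have : 4 * ep / r ≤ N := by linarith
    rw [div_le_iff₀ hr0] at this
    linarith
  -- derivative
  have hder : ∀ y, |deriv (gN χ N) y - 1| ≤ 5 * ep := by
    intro y
    rw [(gN_hasDeriv hχ N y).deriv]
    have e1 : 1 + (4 / (N:ℝ) * (ep * deriv χ y) * Real.sin (N * y) +
      4 / N * (ep * χ y) * (Real.cos (N * y) * (N * 1))) - 1 =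
      4 * ep / N * (deriv χ y * Real.sin (N * y)) + 4 * ep * (χ y * Real.cos (N * y)) := by
      field_simp
      ring
    rw [e1]
    refine (abs_add_le _ _).trans ?_
    rw [abs_mul, abs_mul (4 * ep), abs_of_pos (by positivity : 0 < 4 * ep / (N:ℝ)),
      abs_of_pos (by positivity : 0 < 4 * ep), abs_mul, abs_mul, abs_of_nonneg (χ01 y).1]
    have h1 := Real.abs_sin_le_one (N * y)
    have h2 := Real.abs_cos_le_one (N * y)
    have h3 : |deriv χ y| ≤ B' := hB' y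
    have h4 : |deriv χ y| * |Real.sin (N * y)| ≤ B' * 1 :=
      mul_le_mul h3 h1 (abs_nonneg _) hB'0
    have h5 : χ y * |Real.cos (N * y)| ≤ 1 * 1 := mul_le_mul (χ01 y).2 h2 (abs_nonneg _) one_pos.le
    have h6 : 4 * ep / N * (|deriv χ y| * |Real.sin (N * y)|) ≤ ep := by
      calc 4 * ep / N * (|deriv χ y| * |Real.sin (N * y)|) ≤ 4 * ep / N * (B' * 1) :=
            mul_le_mul_of_nonneg_left h4 (by positivity)
        _ = ep * (4 * B' / N) := by ring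
        _ ≤ ep * 1 := by
            apply mul_le_mul_of_nonneg_left _ hep.le
            rw [div_le_one hNpos]
            have : 0 ≤ 4 * ep / r := by positivity
            linarith
        _ = ep := mul_one _
    have h7 : 4 * ep * (χ y * |Real.cos (N * y)|) ≤ 4 * ep * (1 * 1) :=
      mul_le_mul_of_nonneg_left h5 (by positivity)
    linarith
  have hst : St (gN χ N) := by
    refine ⟨?_, ?_, ?_, ?_⟩
    · unfold gN
      apply contDiff_id.add
      apply ContDiff.mul (contDiff_const.mul (contDiff_const.mul hχ))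
      exact Real.contDiff_sin.comp (contDiff_const.mul contDiff_id)
    · intro y
      unfold gN
      rw [χper, show (N : ℝ) * (y + 2 * Real.pi) = N * y + N * (2 * Real.pi) by ring,
        Real.sin_add_nat_mul_two_pi]
      ring
    · unfold gN; simp
    · intro y
      have := hder y
      rw [abs_le] at this
      have h5 : 5 * ep < 1 := by unfold ep; norm_num
      linarith [this.1]
  -- the trigonometric polynomials
  obtain ⟨T₁, hT₁, hT₁'⟩ := hN₁ N (by omega)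
  obtain ⟨T₂, hT₂, hT₂'⟩ := hN₂ (2 * N) (by omega)
  have hsurj : ∀ (T : ℝ → ℂ) (a : ℝ → ℂ) (k : ℤ), (∀ y, ‖T y - a y * E k y‖ ≤ η / 8) →
      (∀ y, ‖a y‖ ≤ 2) → ∀ y, ‖T y‖ ≤ 3 := by
    intro T a k h1 h2 y
    have : T y = (T y - a y * E k y) + a y * E k y := by ring
    rw [this]
    refine (norm_add_le _ _).trans ?_
    rw [norm_mul, norm_E, mul_one]
    linarith [h1 y, h2 y]
  have hT₁b := hsurj T₁ a1 N hT₁' a1b
  have hT₂b := hsurj T₂ a2 (2 * N : ℕ) hT₂' a2b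
  refine ⟨N, hN1, V₁ + T₁ - T₂, Submodule.sub_mem _ (Submodule.add_mem _ hV₁ hT₁) hT₂,
    (fun x => (starRingEnd ℂ) (T₁ x)) - V₂,
    Submodule.sub_mem _ (conj_mem_neg hT₁) hV₂, ?_, ?_, hst, hder, ?_⟩
  · intro y
    simp only [Pi.add_apply, Pi.sub_apply]
    refine (norm_sub_le _ _).trans ((add_le_add (norm_add_le _ _) le_rfl).trans ?_)
    linarith [hV₁b y, hT₁b y, hT₂b y]
  · intro y
    simp only [Pi.sub_apply]
    refine (norm_sub_le _ _).trans ?_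
    rw [RCLike.norm_conj]
    linarith [hV₂b y, hT₁b y]
  · intro y
    refine le_trans ?_ hηη
    set g := gN χ N y with hg
    have hgy := hgr y
    rw [← hg] at hgy
    have k1 : ‖V₁ g - V₁ y‖ ≤ η / 8 := hu₁ g y (hgy.trans (min_le_left _ _))
    have k2 : ‖a1 g - a1 y‖ ≤ η / 8 :=
      hu₂ g y (hgy.trans ((min_le_right _ _).trans (min_le_left _ _)))
    have k3 : ‖a2 g - a2 y‖ ≤ η / 8 :=
      hu₃ g y (hgy.trans ((min_le_right _ _).trans (min_le_right _ _)))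
    have k4 : ‖(v y : ℂ) - 1 - V₁ y - V₂ y‖ ≤ η / 8 := hV y
    have k5 : ‖T₁ g - a1 g * E N g‖ ≤ η / 8 := hT₁' g
    have k6 : ‖T₂ g - a2 g * E (2 * N : ℕ) g‖ ≤ η / 8 := hT₂' g
    have k7 : ‖(starRingEnd ℂ) (T₁ y) - a1 y * E (-N) y‖ ≤ η / 8 := by
      have h1 : (starRingEnd ℂ) (T₁ y) - a1 y * E (-N) y =
          (starRingEnd ℂ) (T₁ y - a1 y * E N y) := by
        rw [map_sub, map_mul, conj_E]
        congr 2
        show a1 y = (starRingEnd ℂ) ((v y : ℂ) * ((ep * χ y : ℝ) : ℂ))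
        rw [map_mul, Complex.conj_ofReal, Complex.conj_ofReal]
      rw [h1, RCLike.norm_conj]
      exact hT₁' y
    -- the phase identity
    have hph : (N : ℝ) * g = N * y + 4 * (ep * χ y) * Real.sin (N * y) := by
      rw [hg]; unfold gN
      field_simp
    have p1 : E 1 (N * y + 4 * (ep * χ y) * Real.sin (N * y)) = E N g := by
      rw [← hph, E_mul_nat, one_mul]
    have p2 : E 2 (N * y + 4 * (ep * χ y) * Real.sin (N * y)) = E (2 * N : ℕ) g := by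
      rw [← hph, E_mul_nat]; push_cast; rfl
    have p3 : E (-1) (N * y) = E (-N) y := by
      rw [E_mul_nat]; congr 1; ring
    have hmain : (V₁ + T₁ - T₂) g + 1 - ((fun x => (starRingEnd ℂ) (T₁ x)) - V₂) y -
        v y * W (ep * χ y) (N * y) =
        (V₁ g - V₁ y) - ((v y : ℂ) - 1 - V₁ y - V₂ y) + (T₁ g - a1 g * E N g) +
        (a1 g - a1 y) * E N g - (T₂ g - a2 g * E (2 * N : ℕ) g) -
        (a2 g - a2 y) * E (2 * N : ℕ) g - ((starRingEnd ℂ) (T₁ y) - a1 y * E (-N) y) := by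
      have hW : W (ep * χ y) (N * y) = 1 + ((ep * χ y : ℝ) : ℂ) * E N g -
          ((ep * χ y : ℝ) : ℂ) ^ 2 * E (2 * N : ℕ) g - ((ep * χ y : ℝ) : ℂ) * E (-N) y := by
        unfold W
        rw [p1, p2, p3]
      have e1 : a1 y = (v y : ℂ) * ((ep * χ y : ℝ) : ℂ) := rfl
      have e2 : a2 y = (v y : ℂ) * ((ep * χ y : ℝ) : ℂ) ^ 2 := rfl
      simp only [Pi.add_apply, Pi.sub_apply]
      rw [hW, e1, e2]
      ring
    rw [hmain]
    have n1 := norm_sub_le ((V₁ g - V₁ y) - ((v y : ℂ) - 1 - V₁ y - V₂ y) + (T₁ g - a1 g * E N g) +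
        (a1 g - a1 y) * E N g - (T₂ g - a2 g * E (2 * N : ℕ) g) -
        (a2 g - a2 y) * E (2 * N : ℕ) g) ((starRingEnd ℂ) (T₁ y) - a1 y * E (-N) y)
    have n2 := norm_sub_le ((V₁ g - V₁ y) - ((v y : ℂ) - 1 - V₁ y - V₂ y) + (T₁ g - a1 g * E N g) +
        (a1 g - a1 y) * E N g - (T₂ g - a2 g * E (2 * N : ℕ) g))
        ((a2 g - a2 y) * E (2 * N : ℕ) g)
    have n3 := norm_sub_le ((V₁ g - V₁ y) - ((v y : ℂ) - 1 - V₁ y - V₂ y) + (T₁ g - a1 g * E N g) +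
        (a1 g - a1 y) * E N g) (T₂ g - a2 g * E (2 * N : ℕ) g)
    have n4 := norm_add_le ((V₁ g - V₁ y) - ((v y : ℂ) - 1 - V₁ y - V₂ y) + (T₁ g - a1 g * E N g))
        ((a1 g - a1 y) * E N g)
    have n5 := norm_add_le ((V₁ g - V₁ y) - ((v y : ℂ) - 1 - V₁ y - V₂ y)) (T₁ g - a1 g * E N g)
    have n6 := norm_sub_le (V₁ g - V₁ y) ((v y : ℂ) - 1 - V₁ y - V₂ y)
    rw [norm_mul, norm_E, mul_one] at n2 n4
    linarith

end

end Pool.Agent.Helper34.Weld
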