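import Pool.Agent.Helper34.Weld.Imp

set_option autoImplicit false

namespace Pool.Agent.Helper34.Weld

open Complex Set Filter Topology MeasureTheory
open scoped ContDiff Classical

noncomputable section

/-- bump in the variable `cos y`: equal to `1` for `cos y ≥ a`, `0` for `cos y ≤ b` -/
def bmp (a b y : ℝ) : ℝ := Real.smoothTransition ((Real.cos y - b) / (a - b))

lemma bmp_smooth (a b : ℝ) : ContDiff ℝ ∞ (bmp a b) := by
  unfold bmp
  exact (Real.smoothTransition.contDiff (n := ⊤)).comp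
    ((Real.contDiff_cos.sub contDiff_const).div_const _)

lemma bmp_per (a b y : ℝ) : bmp a b (y + 2 * Real.pi) = bmp a b y := by
  unfold bmp; rw [Real.cos_add_two_pi]

lemma bmp_nonneg (a b y : ℝ) : 0 ≤ bmp a b y := Real.smoothTransition.nonneg _

lemma bmp_le_one (a b y : ℝ) : bmp a b y ≤ 1 := Real.smoothTransition.le_one _

lemma bmp_one {a b y : ℝ} (hab : b < a) (h : a ≤ Real.cos y) : bmp a b y = 1 := by
  unfold bmp
  apply Real.smoothTransition.one_of_one_le
  rw [le_div_iff₀ (by linarith)]; linarith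

lemma bmp_zero {a b y : ℝ} (hab : b < a) (h : Real.cos y ≤ b) : bmp a b y = 0 := by
  unfold bmp
  apply Real.smoothTransition.zero_of_nonpos
  apply div_nonpos_of_nonpos_of_nonneg <;> linarith

/-- the small length -/
def dl : ℝ := 3 / 100000

lemma dl_pos : 0 < dl := by unfold dl; norm_num

lemma cos_dl {s t : ℝ} (hs : 0 ≤ s) (hst : s < t) (ht : t ≤ Real.pi) : Real.cos t < Real.cos s :=
  Real.cos_lt_cos_of_nonneg_of_le_pi hs ht hst

lemma cos_le_mid {d y : ℝ} (hd : 0 ≤ d) (h1 : d ≤ y) (h2 : y ≤ 2 * Real.pi - d) :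
    Real.cos y ≤ Real.cos d := by
  rcases le_total y Real.pi with h | h
  · exact Real.cos_le_cos_of_nonneg_of_le_pi hd h h1
  · rw [← Real.cos_two_pi_sub]
    exact Real.cos_le_cos_of_nonneg_of_le_pi hd (by linarith) (by linarith)

lemma exists_va : ∃ v : ℝ → ℝ, ContDiff ℝ ∞ v ∧ (∀ y, v (y + 2 * Real.pi) = v y) ∧
    (∀ y, 0 ≤ v y) ∧ (∀ y, v y ≤ 1 + ep ^ 2 / 8) ∧
    (∫ y in (0:ℝ)..(2 * Real.pi), v y = 2 * Real.pi) ∧
    ∀ y, Real.cos (dl / 2) ≤ Real.cos y → v y = 0 := by
  have hdl := dl_pos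
  have hpi := Real.pi_gt_three
  have hlt : Real.cos dl < Real.cos (dl / 2) :=
    cos_dl (by positivity) (by linarith) (by unfold dl; linarith)
  set b := bmp (Real.cos (dl / 2)) (Real.cos dl) with hb
  have hbc : Continuous b := (bmp_smooth _ _).continuous
  set J := ∫ y in (0:ℝ)..(2 * Real.pi), b y with hJ
  have hJ1 : J ≤ 2 * dl := by
    rw [hJ, ← intervalIntegral.integral_add_adjacent_intervals
      (hbc.intervalIntegrable 0 dl) (hbc.intervalIntegrable _ _),
      ← intervalIntegral.integral_add_adjacent_intervals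
      (hbc.intervalIntegrable dl (2 * Real.pi - dl)) (hbc.intervalIntegrable _ _)]
    have h1 : ∫ y in (0:ℝ)..dl, b y ≤ ∫ y in (0:ℝ)..dl, (1:ℝ) :=
      intervalIntegral.integral_mono_on hdl.le (hbc.intervalIntegrable _ _)
        intervalIntegrable_const (fun y _ => bmp_le_one _ _ y)
    have h2 : ∫ y in dl..(2 * Real.pi - dl), b y = ∫ y in dl..(2 * Real.pi - dl), (0:ℝ) := by
      apply intervalIntegral.integral_congr
      intro y hy
      rw [uIcc_of_le (by unfold dl; linarith)] at hy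
      exact bmp_zero hlt (cos_le_mid hdl.le hy.1 hy.2)
    have h3 : ∫ y in (2 * Real.pi - dl)..(2 * Real.pi), b y ≤
        ∫ y in (2 * Real.pi - dl)..(2 * Real.pi), (1:ℝ) :=
      intervalIntegral.integral_mono_on (by linarith) (hbc.intervalIntegrable _ _)
        intervalIntegrable_const (fun y _ => bmp_le_one _ _ y)
    rw [intervalIntegral.integral_const, smul_eq_mul, mul_one] at h1 h3
    rw [h2, intervalIntegral.integral_const, smul_zero]
    linarith
  have hJ0 : 0 ≤ J := intervalIntegral.integral_nonneg (by positivity) (fun y _ => bmp_nonneg _ _ y)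
  set c := 1 - J / (2 * Real.pi) with hc
  have hc1 : 1 - 1 / 100000 ≤ c := by
    rw [hc]
    have : J / (2 * Real.pi) ≤ 1 / 100000 := by
      rw [div_le_iff₀ (by positivity)]
      unfold dl at hJ1
      linarith
    linarith
  have hc0 : 0 < c := by linarith
  refine ⟨fun y => (1 - b y) / c, ?_, ?_, ?_, ?_, ?_, ?_⟩
  · exact (contDiff_const.sub (bmp_smooth _ _)).div_const _
  · intro y; show (1 - b (y + 2 * Real.pi)) / c = _; rw [hb, bmp_per]
  · intro y
    have := bmp_le_one (Real.cos (dl / 2)) (Real.cos dl) y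
    exact div_nonneg (by rw [hb]; linarith) hc0.le
  · intro y
    have := bmp_nonneg (Real.cos (dl / 2)) (Real.cos dl) y
    show (1 - b y) / c ≤ _
    rw [div_le_iff₀ hc0]
    have h2 : 1 - b y ≤ 1 := by rw [hb]; linarith
    unfold ep
    nlinarith
  · rw [intervalIntegral.integral_div, intervalIntegral.integral_sub intervalIntegrable_const
      (hbc.intervalIntegrable _ _), intervalIntegral.integral_const, smul_eq_mul, mul_one, sub_zero,
      ← hJ, div_eq_iff hc0.ne', hc]
    field_simp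
  · intro y hy
    show (1 - b y) / c = 0
    rw [hb, bmp_one hlt hy]; simp

theorem base_a : ∃ Kb : ℝ, 0 ≤ Kb ∧ ∀ η : ℝ, 0 < η → ∃ (g : ℝ → ℝ) (P V : ℝ → ℂ),
    St g ∧ P ∈ Ppos ∧ V ∈ Pneg ∧ (∀ y, ‖P y‖ ≤ Kb) ∧ (∀ y, ‖V y‖ ≤ Kb) ∧
    (∀ y, |deriv g y - 1| ≤ 5 * ep) ∧ (∀ y, Real.cos (dl / 4) ≤ Real.cos y → g y = y) ∧
    (∀ y, ‖uu g P V y‖ ≤ 1 - 57 / 100 * ep ^ 2 + η) ∧
    (∀ y, Real.cos (dl / 2) ≤ Real.cos y → ‖uu g P V y‖ ≤ η) := by
  have hdl := dl_pos
  have hpi := Real.pi_gt_three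
  obtain ⟨v, hv, vper, v0, vm, vmean, vz⟩ := exists_va
  have hlt : Real.cos (dl / 2) < Real.cos (dl / 4) :=
    cos_dl (by positivity) (by linarith) (by unfold dl; linarith)
  set χ : ℝ → ℝ := fun y => 1 - bmp (Real.cos (dl / 4)) (Real.cos (dl / 2)) y with hχdef
  have hχ : ContDiff ℝ ∞ χ := contDiff_const.sub (bmp_smooth _ _)
  have χper : ∀ y, χ (y + 2 * Real.pi) = χ y := by intro y; rw [hχdef]; simp only [bmp_per]
  have χ01 : ∀ y, 0 ≤ χ y ∧ χ y ≤ 1 := by
    intro y
    have h1 := bmp_nonneg (Real.cos (dl / 4)) (Real.cos (dl / 2)) y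
    have h2 := bmp_le_one (Real.cos (dl / 4)) (Real.cos (dl / 2)) y
    rw [hχdef]
    constructor <;> simp only <;> linarith
  obtain ⟨K, hK0, hK⟩ := base_step hv vper hχ χper v0
    (fun y => (vm y).trans (by unfold ep; norm_num)) vmean χ01
  refine ⟨K, hK0, fun η hη => ?_⟩
  obtain ⟨N, hN, P, hP, V, hV, hPb, hVb, hst, hder, happ⟩ := hK η hη
  have hu : ∀ y, ‖uu (gN χ N) P V y‖ ≤ ‖(v y : ℂ) * W (ep * χ y) (N * y)‖ + η := by
    intro y
    have h1 : uu (gN χ N) P V y = (v y : ℂ) * W (ep * χ y) (N * y) +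
        (P (gN χ N y) + 1 - V y - v y * W (ep * χ y) (N * y)) := by
      unfold uu; ring
    rw [h1]
    exact (norm_add_le _ _).trans (add_le_add le_rfl (happ y))
  refine ⟨gN χ N, P, V, hst, hP, hV, hPb, hVb, hder, ?_, ?_, ?_⟩
  · intro y hy
    unfold gN
    have : χ y = 0 := by rw [hχdef]; simp only; rw [bmp_one hlt hy]; ring
    rw [this]; ring
  · intro y
    refine (hu y).trans (add_le_add ?_ le_rfl)
    rcases le_or_gt (Real.cos (dl / 2)) (Real.cos y) with h | h
    · rw [vz y h]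
      simp only [Complex.ofReal_zero, zero_mul, norm_zero]
      unfold ep; norm_num
    · have hχ1 : χ y = 1 := by rw [hχdef]; simp only; rw [bmp_zero hlt h.le]; ring
      rw [hχ1, mul_one, norm_mul, Complex.norm_real, Real.norm_of_nonneg (v0 y)]
      have hW := W_bound (N * y)
      have h0 : 0 ≤ ‖W ep (N * y)‖ := norm_nonneg _
      calc v y * ‖W ep (N * y)‖ ≤ (1 + ep ^ 2 / 8) * (1 - 7 / 10 * ep ^ 2) :=
            mul_le_mul (vm y) hW h0 (by unfold ep; norm_num)
        _ ≤ 1 - 57 / 100 * ep ^ 2 := by unfold ep; norm_num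
  · intro y hy
    refine (hu y).trans ?_
    rw [vz y hy]
    simp

lemma pmean_bound {g : ℝ → ℝ} (hg : St g) (hd : ∀ y, |deriv g y - 1| ≤ 5 * ep) {σ : ℝ}
    (hσ0 : 0 ≤ σ) (hσ1 : σ ≤ 1) :
    ∫ t in (0:ℝ)..(2 * Real.pi), (deriv g t) ^ (1 + σ) ≤ 2 * Real.pi * (1 + σ * (5 * ep) ^ 2) := by
  have hc := (smooth_deriv hg.smooth).continuous
  have hcp := rpow_cont hg.smooth hg.pos (1 + σ)
  have h1 : ∫ t in (0:ℝ)..(2 * Real.pi), (deriv g t) ^ (1 + σ) ≤
      ∫ t in (0:ℝ)..(2 * Real.pi), ((1 + σ) * deriv g t + (σ * (5 * ep) ^ 2 - σ)) := by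
    apply intervalIntegral.integral_mono_on (by positivity) (hcp.intervalIntegrable _ _)
    · apply Continuous.intervalIntegrable; fun_prop
    intro t _
    have hp := hg.pos t
    have h2 := rpow_one_add_le_one_add_mul_self (s := deriv g t - 1) (by linarith) hσ0 hσ1
    rw [show 1 + (deriv g t - 1) = deriv g t by ring] at h2
    rw [Real.rpow_add hp, Real.rpow_one]
    have h3 := mul_le_mul_of_nonneg_left h2 hp.le
    have h4 : (deriv g t - 1) ^ 2 ≤ (5 * ep) ^ 2 := by
      rw [← sq_abs]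
      exact pow_le_pow_left₀ (abs_nonneg _) (hd t) 2
    nlinarith
  have hcc : Continuous fun t => (1 + σ) * deriv g t := continuous_const.mul hc
  rw [intervalIntegral.integral_add (hcc.intervalIntegrable _ _)
    intervalIntegrable_const, intervalIntegral.integral_const_mul,
    intervalIntegral.integral_const, smul_eq_mul, ← smooth_ftc hg.smooth] at h1
  have h2 : g (2 * Real.pi) = 2 * Real.pi := by
    have := hg.per 0; rw [zero_add, hg.zero, zero_add] at this; exact this
  rw [h2, hg.zero] at h1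
  refine h1.trans (le_of_eq ?_)
  ring

end

end Pool.Agent.Helper34.Weld
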