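import Pool.Agent.Helper34.Weld.Fou2

set_option autoImplicit false

namespace Pool.Agent.Helper34.Weld

open Complex Set Filter Topology MeasureTheory
open scoped ContDiff

noncomputable section

lemma per_unif {F : Type*} [NormedAddCommGroup F] {f : ℝ → F} (hf : Continuous f)
    (hper : ∀ y, f (y + 2 * Real.pi) = f y) {η : ℝ} (hη : 0 < η) :
    ∃ r : ℝ, 0 < r ∧ ∀ x y, |x - y| ≤ r → ‖f x - f y‖ ≤ η := by
  have hp : Function.Periodic f (2 * Real.pi) := hper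
  have h1 : UniformContinuousOn f (Icc (-1) (2 * Real.pi + 1)) :=
    isCompact_Icc.uniformContinuousOn_of_continuous hf.continuousOn
  rw [Metric.uniformContinuousOn_iff] at h1
  obtain ⟨r, hr, h2⟩ := h1 η hη
  refine ⟨min (r / 2) 1, by positivity, ?_⟩
  intro x y hxy
  have hpi : (0:ℝ) < 2 * Real.pi := by positivity
  set n : ℤ := ⌊x / (2 * Real.pi)⌋ with hn
  have hx1 : (n : ℝ) * (2 * Real.pi) ≤ x := by
    have := Int.floor_le (x / (2 * Real.pi))
    rwa [le_div_iff₀ hpi] at this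
  have hx2 : x < (n + 1) * (2 * Real.pi) := by
    have := Int.lt_floor_add_one (x / (2 * Real.pi))
    rwa [div_lt_iff₀ hpi] at this
  have hxy1 : |x - y| ≤ 1 := hxy.trans (min_le_right _ _)
  have hxy2 : |x - y| < r := lt_of_le_of_lt (hxy.trans (min_le_left _ _)) (by linarith)
  rw [abs_le] at hxy1
  rw [← hp.sub_int_mul_eq n (x := x), ← hp.sub_int_mul_eq n (x := y), ← dist_eq_norm]
  apply le_of_lt
  apply h2
  · constructor <;> nlinarith
  · constructor <;> nlinarith [hxy1.1, hxy1.2]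
  · rw [Real.dist_eq]
    rw [show x - n * (2 * Real.pi) - (y - n * (2 * Real.pi)) = x - y by ring]
    exact hxy2

lemma per_bdd {F : Type*} [NormedAddCommGroup F] {f : ℝ → F} (hf : Continuous f)
    (hper : ∀ y, f (y + 2 * Real.pi) = f y) : ∃ B : ℝ, 0 ≤ B ∧ ∀ x, ‖f x‖ ≤ B := by
  have hp : Function.Periodic f (2 * Real.pi) := hper
  obtain ⟨B, hB⟩ := isCompact_Icc.exists_bound_of_continuousOn
    (hf.continuousOn (s := Icc 0 (2 * Real.pi)))
  have hpi : (0:ℝ) < 2 * Real.pi := by positivity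
  refine ⟨B, (norm_nonneg _).trans (hB 0 ⟨le_rfl, hpi.le⟩), ?_⟩
  intro x
  set n : ℤ := ⌊x / (2 * Real.pi)⌋ with hn
  have hx1 : (n : ℝ) * (2 * Real.pi) ≤ x := by
    have := Int.floor_le (x / (2 * Real.pi))
    rwa [le_div_iff₀ hpi] at this
  have hx2 : x < (n + 1) * (2 * Real.pi) := by
    have := Int.lt_floor_add_one (x / (2 * Real.pi))
    rwa [div_lt_iff₀ hpi] at this
  rw [← hp.sub_int_mul_eq n (x := x)]
  exact hB _ ⟨by linarith, by linarith⟩

/-- the small parameter -/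
def ep : ℝ := 1 / 100

/-- the oscillation cell -/
def W (s θ : ℝ) : ℂ := 1 + s * E 1 (θ + 4 * s * Real.sin θ) -
  s ^ 2 * E 2 (θ + 4 * s * Real.sin θ) - s * E (-1) θ

lemma E_one (θ : ℝ) : E 1 θ = ⟨Real.cos θ, Real.sin θ⟩ := by
  unfold E
  rw [Int.cast_one, one_mul]
  apply Complex.ext
  · rw [Complex.exp_ofReal_mul_I_re]
  · rw [Complex.exp_ofReal_mul_I_im]

lemma W_bound (θ : ℝ) : ‖W ep θ‖ ≤ 1 - 7 / 10 * ep ^ 2 := by
  set C := Real.cos θ with hC
  set S := Real.sin θ with hS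
  have hCS : C ^ 2 + S ^ 2 = 1 := Real.cos_sq_add_sin_sq θ
  have hC1 : |C| ≤ 1 := Real.abs_cos_le_one θ
  have hS1 : |S| ≤ 1 := Real.abs_sin_le_one θ
  set x : ℝ := 4 * ep * S with hx
  have hxb : |x| ≤ 4 * ep := by
    rw [hx, abs_mul, abs_of_pos (by unfold ep; norm_num : (0:ℝ) < 4 * ep)]
    have : (0:ℝ) < 4 * ep := by unfold ep; norm_num
    nlinarith
  -- e^{ix}
  have h1 : E 1 (θ + x) = E 1 θ * E 1 x := by
    unfold E; rw [← Complex.exp_add]; congr 1; push_cast; ring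
  have h2 : E 2 (θ + x) = E 1 θ ^ 2 * E 2 x := by
    rw [sq]; unfold E; rw [← Complex.exp_add, ← Complex.exp_add]; congr 1; push_cast; ring
  have h3 : ‖E 1 x - 1 - x * I‖ ≤ (4 * ep) ^ 2 := by
    have h4 : ‖(x : ℂ) * I‖ = |x| := by rw [norm_mul, Complex.norm_I, mul_one, Complex.norm_real]; rfl
    have h5 : E 1 x = Complex.exp ((x : ℂ) * I) := by unfold E; rw [Int.cast_one, one_mul]
    rw [h5]
    refine (Complex.norm_exp_sub_one_sub_id_le (by rw [h4]; refine hxb.trans ?_; unfold ep; norm_num)).trans ?_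
    rw [h4]
    exact pow_le_pow_left₀ (abs_nonneg _) hxb 2
  have h6 : ‖E 2 x - 1‖ ≤ 8 * ep := by
    have h5 : E 2 x = Complex.exp (I * ((2 * x : ℝ) : ℂ)) := by
      unfold E; congr 1; push_cast; ring
    rw [h5]
    refine Real.norm_exp_I_mul_ofReal_sub_one_le.trans ?_
    rw [Real.norm_eq_abs, abs_mul, abs_of_pos (by norm_num : (0:ℝ) < 2)]
    linarith
  set W₀ : ℂ := 1 + ep * E 1 θ * (1 + x * I) - ep ^ 2 * E 1 θ ^ 2 - ep * E (-1) θ with hW₀
  have h7 : W ep θ = W₀ + ep * E 1 θ * (E 1 x - 1 - x * I) - ep ^ 2 * E 1 θ ^ 2 * (E 2 x - 1) := by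
    unfold W
    rw [← hS, ← hx, h1, h2, hW₀]
    ring
  have hep0 : (0:ℝ) ≤ ep := by unfold ep; norm_num
  have h8 : ‖(ep : ℂ) * E 1 θ * (E 1 x - 1 - x * I)‖ ≤ ep * (4 * ep) ^ 2 := by
    rw [norm_mul, norm_mul, norm_E, mul_one, Complex.norm_real, Real.norm_of_nonneg hep0]
    exact mul_le_mul_of_nonneg_left h3 hep0
  have h9 : ‖(ep : ℂ) ^ 2 * E 1 θ ^ 2 * (E 2 x - 1)‖ ≤ ep ^ 2 * (8 * ep) := by
    rw [norm_mul, norm_mul, norm_pow, norm_pow, norm_E, one_pow, mul_one, Complex.norm_real,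
      Real.norm_of_nonneg hep0]
    exact mul_le_mul_of_nonneg_left h6 (by positivity)
  have hm1 : E (-1) θ = ⟨C, -S⟩ := by
    rw [← conj_E, E_one]
    rfl
  have h10 : W₀ = ⟨1 - ep ^ 2 - 2 * ep ^ 2 * S ^ 2, 2 * ep * S + 2 * ep ^ 2 * S * C⟩ := by
    rw [hW₀, hm1, E_one, ← hC, ← hS, sq (⟨C, S⟩ : ℂ), sq (ep : ℂ)]
    apply Complex.ext
    · simp only [Complex.add_re, Complex.sub_re, Complex.mul_re, Complex.one_re, Complex.ofReal_re,
        Complex.ofReal_im, Complex.mul_im, Complex.add_im, Complex.one_im, Complex.I_re,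
        Complex.I_im]
      rw [hx]
      have : C ^ 2 = 1 - S ^ 2 := by linarith
      ring_nf
      rw [this]
      ring
    · simp only [Complex.sub_im, Complex.add_re, Complex.mul_re, Complex.one_re, Complex.ofReal_re,
        Complex.ofReal_im, Complex.mul_im, Complex.add_im, Complex.one_im, Complex.I_re,
        Complex.I_im]
      rw [hx]
      ring
  have h11 : ‖W₀‖ ≤ 1 - ep ^ 2 + 5 * ep ^ 3 := by
    rw [← abs_norm]
    apply abs_le_of_sq_le_sq _ (by unfold ep; norm_num)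
    rw [← Complex.normSq_eq_norm_sq, h10, Complex.normSq_mk]
    have hS2 : S ^ 2 ≤ 1 := by nlinarith [sq_nonneg C]
    have hC2 : C ^ 2 ≤ 1 := by nlinarith [sq_nonneg S]
    have hS0 : 0 ≤ S ^ 2 := sq_nonneg S
    have hC3 : C ≤ 1 := (abs_le.mp hC1).2
    have e1 : (1 + 2 * S ^ 2) ^ 2 ≤ 9 := by nlinarith
    have e2 : S ^ 2 * C ≤ 1 := by nlinarith
    have e3 : S ^ 2 * C ^ 2 ≤ 1 := by nlinarith [sq_nonneg C]
    have e4 : (1 - ep ^ 2 - 2 * ep ^ 2 * S ^ 2) * (1 - ep ^ 2 - 2 * ep ^ 2 * S ^ 2) +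
        (2 * ep * S + 2 * ep ^ 2 * S * C) * (2 * ep * S + 2 * ep ^ 2 * S * C) =
        1 - 2 * ep ^ 2 + ep ^ 4 * (1 + 2 * S ^ 2) ^ 2 + 8 * ep ^ 3 * (S ^ 2 * C) +
          4 * ep ^ 4 * (S ^ 2 * C ^ 2) := by ring
    rw [e4]
    unfold ep
    nlinarith
  rw [h7]
  refine (norm_sub_le _ _).trans ?_
  refine (add_le_add (norm_add_le _ _) le_rfl).trans ?_
  refine (add_le_add (add_le_add h11 h8) h9).trans ?_
  unfold ep
  norm_num

end

end Pool.Agent.Helper34.Weld
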