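import Pool.Agent.Helper34.Weld.Lev1b

set_option autoImplicit false

namespace Pool.Agent.Helper34.Weld

open Complex Set Filter Topology MeasureTheory
open scoped ContDiff Classical

noncomputable section

lemma exists_vp {k : ℝ} (hk : 0 < k) (hk1 : k ≤ 1 / 2) : ∃ v : ℝ → ℝ, ContDiff ℝ ∞ v ∧
    (∀ y, v (y + 2 * Real.pi) = v y) ∧ (∀ y, 0 ≤ v y) ∧
    (∫ y in (0:ℝ)..(2 * Real.pi), v y = 2 * Real.pi) ∧
    ∀ y, -Real.cos k ≤ Real.cos y → v y = 0 := by
  have hpi := Real.pi_gt_three
  have hlt : Real.cos k < Real.cos (k / 2) := cos_dl (by positivity) (by linarith) (by linarith)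
  set b : ℝ → ℝ := fun y => bmp (Real.cos (k / 2)) (Real.cos k) (y + Real.pi) with hb
  have hbs : ContDiff ℝ ∞ b := (bmp_smooth _ _).comp (contDiff_id.add contDiff_const)
  have hbc : Continuous b := hbs.continuous
  set J := ∫ y in (0:ℝ)..(2 * Real.pi), b y with hJ
  have hJ0 : k ≤ J := by
    have h1 : ∫ y in (Real.pi - k / 2)..(Real.pi + k / 2), b y ≤ J := by
      apply intervalIntegral.integral_mono_interval (by linarith) (by linarith) (by linarith) _
        (hbc.intervalIntegrable _ _)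
      filter_upwards with y
      exact bmp_nonneg _ _ _
    have h2 : ∫ y in (Real.pi - k / 2)..(Real.pi + k / 2), b y =
        ∫ y in (Real.pi - k / 2)..(Real.pi + k / 2), (1:ℝ) := by
      apply intervalIntegral.integral_congr
      intro y hy
      rw [uIcc_of_le (by linarith)] at hy
      apply bmp_one hlt
      have h3 : Real.cos (y + Real.pi) = Real.cos (y - Real.pi) := by
        rw [Real.cos_add_pi, Real.cos_sub_pi]
      rw [h3]
      apply cos_ge_of_abs (by linarith)
      rw [abs_le]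
      constructor <;> linarith [hy.1, hy.2]
    rw [h2, intervalIntegral.integral_const, smul_eq_mul, mul_one] at h1
    linarith
  have hJpos : 0 < J := by linarith
  refine ⟨fun y => 2 * Real.pi / J * b y, contDiff_const.mul hbs, ?_, ?_, ?_, ?_⟩
  · intro y
    show 2 * Real.pi / J * bmp _ _ (y + 2 * Real.pi + Real.pi) = _
    rw [show y + 2 * Real.pi + Real.pi = y + Real.pi + 2 * Real.pi by ring, bmp_per]
  · intro y
    have : 0 ≤ b y := bmp_nonneg _ _ _
    positivity
  · rw [intervalIntegral.integral_const_mul, ← hJ]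
    field_simp
  · intro y hy
    have : b y = 0 := by
      apply bmp_zero hlt
      rw [Real.cos_add_pi]; linarith
    show 2 * Real.pi / J * b y = 0
    rw [this, mul_zero]

lemma int_if_le {p : ℤ → Prop} {M : ℕ} {a b k : ℝ} (hab : b ≤ a) (hk : 0 < k)
    (hk1 : k ≤ 1 / 2) (hp : ∀ t, p (ci M t) → Real.cos t < -Real.cos (2 * k)) :
    ∫ t in (0:ℝ)..(2 * Real.pi), (if p (ci M t) then a else b) * (fun _ => (1:ℝ)) t ≤
      2 * Real.pi * b + (a - b) * (4 * k) := by
  have hpi := Real.pi_gt_three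
  have hi := int_if p M a b (continuous_const : Continuous fun _ : ℝ => (1:ℝ))
  rw [← intervalIntegral.integral_add_adjacent_intervals (hi 0 (Real.pi - 2 * k)) (hi _ _),
    ← intervalIntegral.integral_add_adjacent_intervals (hi (Real.pi - 2 * k) (Real.pi + 2 * k))
      (hi _ _)]
  have h1 : ∫ t in (0:ℝ)..(Real.pi - 2 * k), (if p (ci M t) then a else b) * (fun _ => (1:ℝ)) t =
      ∫ t in (0:ℝ)..(Real.pi - 2 * k), b := by
    apply intervalIntegral.integral_congr
    intro t ht
    rw [uIcc_of_le (by linarith)] at ht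
    show (if p (ci M t) then a else b) * 1 = b
    rw [if_neg, mul_one]
    intro hc
    have h2 := hp t hc
    have h3 : Real.cos (Real.pi - 2 * k) ≤ Real.cos t :=
      Real.cos_le_cos_of_nonneg_of_le_pi ht.1 (by linarith) ht.2
    rw [Real.cos_pi_sub] at h3
    linarith
  have h3 : ∫ t in (Real.pi + 2 * k)..(2 * Real.pi),
      (if p (ci M t) then a else b) * (fun _ => (1:ℝ)) t =
      ∫ t in (Real.pi + 2 * k)..(2 * Real.pi), b := by
    apply intervalIntegral.integral_congr
    intro t ht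
    rw [uIcc_of_le (by linarith)] at ht
    show (if p (ci M t) then a else b) * 1 = b
    rw [if_neg, mul_one]
    intro hc
    have h2 := hp t hc
    have h3 : Real.cos (Real.pi - 2 * k) ≤ Real.cos (2 * Real.pi - t) :=
      Real.cos_le_cos_of_nonneg_of_le_pi (by linarith [ht.2]) (by linarith) (by linarith [ht.1])
    rw [Real.cos_pi_sub, Real.cos_two_pi_sub] at h3
    linarith
  have h2 : ∫ t in (Real.pi - 2 * k)..(Real.pi + 2 * k),
      (if p (ci M t) then a else b) * (fun _ => (1:ℝ)) t ≤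
      ∫ t in (Real.pi - 2 * k)..(Real.pi + 2 * k), a := by
    apply intervalIntegral.integral_mono_on (by linarith) (hi _ _) intervalIntegrable_const
    intro t _
    show (if p (ci M t) then a else b) * 1 ≤ a
    rw [mul_one]
    split_ifs
    · exact le_rfl
    · exact hab
  rw [intervalIntegral.integral_const, smul_eq_mul] at h2
  rw [h1, h3, intervalIntegral.integral_const, intervalIntegral.integral_const, smul_eq_mul,
    smul_eq_mul]
  nlinarith

lemma G_L1 {Γ : ℝ → ℝ} {δ : ℝ} (hf : Flat Γ δ) (hΓ : St Γ) (p : ℤ → Prop) {M : ℕ} (hM : 1 ≤ M) :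
    ∫ t in (0:ℝ)..(2 * Real.pi), |deriv (Gm Γ p M) t - 1| ≤
      ∫ t in (0:ℝ)..(2 * Real.pi), (if p (ci M t) then 2 else 0) * (fun _ => (1:ℝ)) t := by
  have hM0 : (0:ℝ) < M := by exact_mod_cast hM
  have hcG := Gm_deriv_cont hf hΓ p hM
  have hc : Continuous fun t => |deriv (Gm Γ p M) t - 1| := (hcG.sub continuous_const).abs
  have hi := int_if p M 2 0 (continuous_const : Continuous fun _ : ℝ => (1:ℝ))
  have hcΓ := (smooth_deriv hΓ.smooth).continuous
  have h := cell_sum (F := fun t => |deriv (Gm Γ p M) t - 1|)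
    (H := fun t => (if p (ci M t) then 2 else 0) * (fun _ => (1:ℝ)) t)
    (fun _ _ => hc.intervalIntegrable _ _) hi (M := M) (m := 0) (n := M) ?_ (by omega)
  · rw [gr_zero, gr_self hM] at h
    exact h
  intro k
  have hk : gr M k ≤ gr M (k + 1) := gr_mono (by omega)
  have hk2 : gr M (k + 1) - gr M k = 2 * Real.pi / M := by rw [gr_succ]; ring
  have h3 : ∫ t in (gr M k)..(gr M (k + 1)), |deriv (Gm Γ p M) t - 1| ≤
      (if p k then 2 else 0) * (2 * Real.pi / M) := by
    rw [Gm_full hf hΓ p hM (fun s => |s - 1|) k]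
    split_ifs
    · have h4 : ∫ s in (0:ℝ)..(2 * Real.pi), |deriv Γ s - 1| ≤
          ∫ s in (0:ℝ)..(2 * Real.pi), (deriv Γ s + 1) := by
        apply intervalIntegral.integral_mono_on (by positivity)
          ((hcΓ.sub continuous_const).abs.intervalIntegrable _ _)
          ((hcΓ.add continuous_const).intervalIntegrable _ _)
        intro s _
        have := hΓ.pos s
        show |deriv Γ s - 1| ≤ deriv Γ s + 1
        rw [abs_le]; constructor <;> linarith
      rw [intervalIntegral.integral_add (hcΓ.intervalIntegrable _ _) intervalIntegrable_const,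
        ← smooth_ftc hΓ.smooth, intervalIntegral.integral_const, smul_eq_mul, mul_one] at h4
      have h2 : Γ (2 * Real.pi) = 2 * Real.pi := by
        have := hΓ.per 0; rw [zero_add, hΓ.zero, zero_add] at this; exact this
      rw [h2, hΓ.zero] at h4
      calc (M : ℝ)⁻¹ * ∫ s in (0:ℝ)..(2 * Real.pi), |deriv Γ s - 1|
          ≤ (M : ℝ)⁻¹ * (2 * Real.pi - 0 + (2 * Real.pi - 0)) :=
            mul_le_mul_of_nonneg_left h4 (by positivity)
        _ = _ := by ring
    · simp
  have h4 : ∫ t in (gr M k)..(gr M (k + 1)), (if p k then (2:ℝ) else 0) ≤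
      ∫ t in (gr M k)..(gr M (k + 1)), (if p (ci M t) then 2 else 0) * (fun _ => (1:ℝ)) t := by
    apply intervalIntegral.integral_mono_on_of_le_Ioo hk intervalIntegrable_const (hi _ _)
    intro t ht
    have hci : ci M t = k := by
      apply ci_eq ((le_iff_gr hM).mpr ht.1.le)
      have h4 := gr_mul hM (k + 1)
      push_cast at h4
      rw [← h4]
      exact mul_lt_mul_of_pos_left ht.2 hM0
    show (if p k then (2:ℝ) else 0) ≤ (if p (ci M t) then 2 else 0) * 1
    rw [hci, mul_one]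
  rw [intervalIntegral.integral_const, smul_eq_mul, hk2] at h4
  linarith

set_option maxHeartbeats 4000000 in
/-- **concentrated blocks** -/
theorem blocks {κ : ℝ} (hκ : 0 < κ) (hκ1 : κ ≤ 1) : ∃ K : ℝ, 0 ≤ K ∧ ∀ m : ℝ, 0 < m →
    ∃ Γ FP FV, Blk dl (1 + κ) Cb K m Γ FP FV ∧
      ∫ t in (0:ℝ)..(2 * Real.pi), |deriv Γ t - 1| ≤ 2 * Real.pi * κ := by
  have hpi := Real.pi_gt_three
  have hdl := dl_pos
  set k := κ / 100 with hk
  have hk0 : 0 < k := by positivity
  have hk1 : k ≤ 1 / 2 := by rw [hk]; linarith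
  obtain ⟨v, hv, vper, v0, vmean, vz⟩ := exists_vp hk0 hk1
  have hvc : ContDiff ℝ ∞ fun y => (v y : ℂ) := Complex.ofRealCLM.contDiff.comp hv
  obtain ⟨B, hB0, hB⟩ := fourier_split hvc (fun y => by rw [vper])
  have hcf : cf (fun y => (v y : ℂ)) 0 = 1 := by
    unfold cf
    have : (∫ x in (0:ℝ)..(2 * Real.pi), E (-0) x * (v x : ℂ)) = ((2 * Real.pi : ℝ) : ℂ) := by
      have h2 : (∫ x in (0:ℝ)..(2 * Real.pi), E (-0) x * (v x : ℂ)) =
          ∫ x in (0:ℝ)..(2 * Real.pi), (v x : ℂ) := by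
        apply intervalIntegral.integral_congr
        intro y _
        show E (-0) y * (v y : ℂ) = (v y : ℂ)
        rw [neg_zero, E_zero, one_mul]
      rw [h2, intervalIntegral.integral_ofReal, vmean]
    rw [this, ← Complex.ofReal_mul]
    have : (1 / (2 * Real.pi) * (2 * Real.pi) : ℝ) = 1 := by
      have := Real.pi_ne_zero
      field_simp
    rw [this, Complex.ofReal_one]
  obtain ⟨Sv, hSv0, hSv⟩ := per_bdd hv.continuous vper
  obtain ⟨K, hK0, hK⟩ := lev1
  set S := Sv + 1 with hS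
  have hS0 : 0 < S := by linarith
  refine ⟨B + S * K + 1, by positivity, ?_⟩
  intro m hm
  obtain ⟨Γ, FP, FV, hΓ, hf, hFP, hFV, hKP, hKV, hum, hI, C, hC1, hCb, hRH⟩ :=
    hK (m / (2 * S)) (by positivity)
  set η := min 1 (m / (2 * (1 + 2 * K))) with hη
  have hη0 : 0 < η := by positivity
  have hη1 : η ≤ 1 := min_le_left _ _
  have hη2 : (1 + 2 * K) * η ≤ m / 2 := by
    have h1 : η ≤ m / (2 * (1 + 2 * K)) := min_le_right _ _
    rw [le_div_iff₀ (by positivity)] at h1
    linarith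
  obtain ⟨V₁, hV₁, V₂, hV₂, hV₁b, hV₂b, hV⟩ := hB η hη0
  rw [hcf] at hV
  have hnV₂ : -V₂ ∈ Pneg := Submodule.neg_mem _ hV₂
  have huv : ∀ y, ‖uu (fun y => y) V₁ (-V₂) y - (v y : ℂ)‖ ≤ η := by
    intro y
    have h1 : uu (fun y => y) V₁ (-V₂) y - (v y : ℂ) = -((v y : ℂ) - 1 - V₁ y - V₂ y) := by
      unfold uu; rw [Pi.neg_apply]; ring
    rw [h1, norm_neg]
    exact hV y
  have hμ : ∀ y, ‖uu (fun y => y) V₁ (-V₂) y‖ ≤ S := by
    intro y
    have h1 : uu (fun y => y) V₁ (-V₂) y =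
      (uu (fun y => y) V₁ (-V₂) y - (v y : ℂ)) + (v y : ℂ) := by ring
    rw [h1]
    refine (norm_add_le _ _).trans ?_
    rw [Complex.norm_real]
    linarith [huv y, hSv y]
  set θ' := min (m / 2) 1 with hθ'
  have hθ'0 : 0 < θ' := by positivity
  obtain ⟨M₁, hM₁⟩ := implant_approx St_id hV₁ hnV₂ hΓ hFP hFV hμ hum hKP hKV hθ'0
  obtain ⟨θ, hθ0, hθ1, hθC⟩ : ∃ θ : ℝ, 0 < θ ∧ θ ≤ κ / 100 ∧ C * (1 + θ) ^ 4 < Cb := by
    have hcont : Continuous fun θ : ℝ => C * (1 + θ) ^ 4 := by fun_prop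
    have h1 : ∀ᶠ θ in 𝓝 (0:ℝ), C * (1 + θ) ^ 4 < Cb := by
      apply hcont.continuousAt.eventually (gt_mem_nhds _)
      simpa using hCb
    rw [Metric.eventually_nhds_iff] at h1
    obtain ⟨e, he, h2⟩ := h1
    refine ⟨min (e / 2) (κ / 100), by positivity, min_le_right _ _, h2 ?_⟩
    rw [Real.dist_eq, sub_zero, abs_of_pos (by positivity)]
    exact lt_of_le_of_lt (min_le_left _ _) (by linarith)
  have hσ0 : (0:ℝ) ≤ dl := hdl.le
  have hσ1 : dl ≤ 1 := by unfold dl; norm_num
  have hpow : (1 + θ) ^ (2 * (1 + dl)) ≤ (1 + θ) ^ 4 := by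
    rw [← Real.rpow_natCast (1 + θ) 4]
    apply Real.rpow_le_rpow_of_exponent_le (by linarith)
    push_cast; linarith
  have hpow0 : 1 ≤ (1 + θ) ^ (2 * (1 + dl)) := Real.one_le_rpow (by linarith) (by linarith)
  have hdid : ∀ t : ℝ, deriv (fun y : ℝ => y) t = 1 := fun t => by simp
  obtain ⟨M₂, hM₂, hM₂'⟩ := lev1_RH hf hΓ St_id hσ0 (by unfold dl; norm_num) (by norm_num) hI hC1
    hRH (l := 1) (R := 1) one_pos one_pos (fun t => by rw [hdid]; norm_num) hθ0
  have hlt : Real.cos (2 * k) < Real.cos k := cos_dl hk0.le (by linarith) (by linarith)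
  set e := (Real.cos k - Real.cos (2 * k)) / 2 with he
  have he0 : 0 < e := by rw [he]; linarith
  obtain ⟨M₃, hM₃, hM₃'⟩ := exists_M he0
  set M := M₁ + M₂ + M₃ with hM
  have hM1 : 1 ≤ M := by omega
  have hℓ := hM₃' M (by omega)
  set β := -(Real.cos k + Real.cos (2 * k)) / 2 with hβ
  set p : ℤ → Prop := pb β M with hp
  obtain ⟨P', hP', V', hV', hPP, hVV, hfin⟩ := hM₁ M (by omega) hM1
  have hpc : ∀ t, p (ci M t) → Real.cos t < -Real.cos (2 * k) := by
    intro t ht
    have h1 := cos_ci hM1 t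
    rw [abs_le] at h1
    have h2 : Real.cos (gr M (ci M t)) < β := ht
    linarith [h1.2]
  have hcos2k : 0 ≤ Real.cos (2 * k) := Real.cos_nonneg_of_mem_Icc ⟨by linarith, by linarith⟩
  have hpf : ∀ y, |y| ≤ dl / 4 → ¬ p (ci M y) := by
    intro y hy hc
    have h1 := hpc y hc
    have h2 : 0 ≤ Real.cos y := by
      rw [abs_le] at hy
      have : dl / 4 ≤ 1 := by unfold dl; norm_num
      exact Real.cos_nonneg_of_mem_Icc ⟨by linarith [hy.1], by linarith [hy.2]⟩
    linarith
  refine ⟨Gm Γ p M, P', V', ⟨Gm_st hf hΓ p hM1 (pb_per hM1), ⟨by positivity, ?_⟩, hP', hV',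
    ?_, ?_, ?_, ?_, ?_⟩, ?_⟩
  · intro y hy
    unfold Gm; rw [if_neg (hpf y hy)]
  · intro y
    have h1 : P' y = V₁ y + (P' y - V₁ y) := by ring
    rw [h1]
    refine (norm_add_le _ _).trans ?_
    have h2 := hV₁b y
    have h3 := hPP y
    have h4 : θ' ≤ 1 := min_le_right _ _
    linarith
  · intro y
    have h1 : V' y = (-V₂) y + (V' y - (-V₂) y) := by ring
    rw [h1]
    refine (norm_add_le _ _).trans ?_
    have h2 := hV₂b y
    have h3 := hVV y
    have h4 : θ' ≤ 1 := min_le_right _ _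
    rw [Pi.neg_apply, norm_neg]
    rw [Pi.neg_apply] at h3
    linarith
  · intro y
    refine (hfin p η ?_ y).trans ?_
    · intro z hz
      have h1 := cos_ci hM1 z
      rw [abs_le] at h1
      have h2 : β ≤ Real.cos (gr M (ci M z)) := not_lt.mp hz
      have h3 : v z = 0 := vz z (by
        have h5 := h1.1
        rw [he] at hℓ
        rw [hβ] at h2
        linarith)
      have h4 := huv z
      rw [h3, Complex.ofReal_zero, sub_zero] at h4
      exact h4
    · have h1 : S * (m / (2 * S)) = m / 2 := by field_simp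
      rw [h1]
      have h2 : θ' ≤ m / 2 := min_le_left _ _
      have h3 : max (m / 2) ((1 + 2 * K) * η) ≤ m / 2 := max_le le_rfl hη2
      linarith
  · -- the mean
    have h1 := comp_mean hf hΓ p hM1 St_id hθ0 (fun s t _ => by rw [hdid, hdid]; linarith) hσ0
      (by norm_num : (1:ℝ) ≤ 4) hI (m := 0) (n := M) (by omega)
    rw [gr_zero, gr_self hM1] at h1
    have h2 : ∫ t in (0:ℝ)..(2 * Real.pi), (if p (ci M t) then 4 else 1) *
        (deriv (fun y : ℝ => y) t) ^ (1 + dl) ≤ 2 * Real.pi * 1 + (4 - 1) * (4 * k) := by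
      refine le_trans (le_of_eq ?_) (int_if_le (by norm_num) hk0 hk1 hpc)
      apply intervalIntegral.integral_congr
      intro t _
      show (if p (ci M t) then (4:ℝ) else 1) * (deriv (fun y : ℝ => y) t) ^ (1 + dl) =
        (if p (ci M t) then 4 else 1) * 1
      rw [hdid, Real.one_rpow]
    have h3 : 0 ≤ 2 * Real.pi * 1 + (4 - 1) * (4 * k) := by positivity
    have hq : (1 + θ) ^ (2 * (1 + dl)) ≤ (1 + κ / 100) ^ 4 :=
      hpow.trans (pow_le_pow_left₀ (by linarith) (by linarith) 4)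
    have hq2 : (1 + κ / 100) ^ 4 ≤ 1 + κ / 20 := by
      have e1 : (1 + κ / 100) ^ 2 ≤ 1 + 21 / 1000 * κ := by nlinarith
      have e2 : (1 + κ / 100) ^ 4 = ((1 + κ / 100) ^ 2) ^ 2 := by ring
      rw [e2]
      calc ((1 + κ / 100) ^ 2) ^ 2 ≤ (1 + 21 / 1000 * κ) ^ 2 :=
            pow_le_pow_left₀ (by positivity) e1 2
        _ ≤ 1 + κ / 20 := by nlinarith
    show ∫ t in (0:ℝ)..(2 * Real.pi), (deriv (fun y => Gm Γ p M y) t) ^ (1 + dl) ≤ _
    refine h1.trans ?_
    calc _ ≤ (1 + θ) ^ (2 * (1 + dl)) * (2 * Real.pi * 1 + (4 - 1) * (4 * k)) :=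
          mul_le_mul_of_nonneg_left h2 (by linarith)
      _ ≤ (1 + κ / 20) * (2 * Real.pi * 1 + (4 - 1) * (4 * k)) :=
          mul_le_mul_of_nonneg_right (hq.trans hq2) h3
      _ ≤ 2 * Real.pi * (1 + κ) := by
          rw [hk]
          nlinarith
  · refine ⟨_, ?_, ?_, hM₂' M (by omega) p⟩
    · apply le_max_of_le_left
      nlinarith
    · apply max_lt
      · refine lt_of_le_of_lt ?_ hθC
        exact mul_le_mul_of_nonneg_left hpow (by linarith)
      · rw [Real.one_rpow, mul_one]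
        unfold Cb
        have h1 : 0 ≤ CX 4 (dl / 4) dl := CX_nonneg (by norm_num) (by positivity)
        have h2 : 1 ≤ Rb ^ (1 + dl) := Real.one_le_rpow (by unfold Rb ep; norm_num) (by linarith)
        nlinarith
  · refine (G_L1 hf hΓ p hM1).trans ((int_if_le (by norm_num) hk0 hk1 hpc).trans ?_)
    rw [hk]
    nlinarith

end

end Pool.Agent.Helper34.Weld
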