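import Mathlib

set_option autoImplicit false

/-!
Definitions for problem MP_0cd561_an (analytic projection after a BMO change of variables).
All functions are complex-valued functions on `ℝ`; elements of `BMO` are considered modulo
constants, and every notion below is invariant under adding a constant.
-/

namespace Pool.Agent.Helper34.Weld

open MeasureTheory Set
open scoped ENNReal FourierTransform

noncomputable section

/-- the mean `f_I` of `f` over the interval `I = [a, b]` -/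
def avg (f : ℝ → ℂ) (a b : ℝ) : ℂ := (b - a)⁻¹ • ∫ x in a..b, f x

/-- the mean oscillation `(1/|I|) ∫_I |f - f_I|` over `I = [a, b]` -/
def mosc (f : ℝ → ℂ) (a b : ℝ) : ℝ := (b - a)⁻¹ * ∫ x in a..b, ‖f x - avg f a b‖

/-- `‖f‖_BMO`: the supremum of the mean oscillations over all bounded intervals -/
def bmoNorm (f : ℝ → ℂ) : ℝ≥0∞ := ⨆ (a : ℝ) (b : ℝ) (_ : a < b), ENNReal.ofReal (mosc f a b)

/-- `f ∈ BMO(ℝ)` -/
def InBMO (f : ℝ → ℂ) : Prop := LocallyIntegrable f ∧ bmoNorm f < ⊤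

/-- the (distributional) Fourier transform of `f` vanishes on `(-∞, 0)` -/
def SpecNonneg (f : ℝ → ℂ) : Prop :=
  ∀ φ : SchwartzMap ℝ ℂ, tsupport φ ⊆ Iio 0 → ∫ x, f x * 𝓕 (φ : ℝ → ℂ) x = 0

/-- the (distributional) Fourier transform of `f` vanishes on `(0, ∞)` -/
def SpecNonpos (f : ℝ → ℂ) : Prop :=
  ∀ φ : SchwartzMap ℝ ℂ, tsupport φ ⊆ Ioi 0 → ∫ x, f x * 𝓕 (φ : ℝ → ℂ) x = 0

/-- `f ∈ BMOA = P(BMO)` -/
def InBMOA (f : ℝ → ℂ) : Prop := InBMO f ∧ SpecNonneg f

/-- `f` is in the range of `I - P` on `BMO`, i.e. `f` is the complex conjugate of an element of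
`BMOA` -/
def InConjBMOA (f : ℝ → ℂ) : Prop := InBMO f ∧ SpecNonpos f

/-- `g = P F` (modulo constants): `P = (I + iH)/2` multiplies the Fourier transform by the
indicator function of `(0, ∞)`, so `P F` is the element `g` of `BMOA` such that `F - g` is an element
of `BMO` with spectrum in `(-∞, 0]` -/
def IsProj (F g : ℝ → ℂ) : Prop := InBMOA g ∧ InConjBMOA (fun x => F x - g x)

/-- the Muckenhoupt condition `A^∞`, `w(E)/w(I) ≤ C (|E|/|I|)^δ` -/
def AInfty (w : ℝ → ℝ) : Prop :=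
  ∃ C δ : ℝ, 0 < C ∧ 0 < δ ∧ ∀ a b : ℝ, a < b → ∀ E : Set ℝ, MeasurableSet E → E ⊆ Icc a b →
    ∫ x in E, w x ≤ C * ((volume E).toReal / (b - a)) ^ δ * ∫ x in a..b, w x

/-- the group `G`: increasing homeomorphisms of `ℝ` onto `ℝ`, locally absolutely continuous, with
derivative in `A^∞` -/
structure MemG (h : ℝ → ℝ) : Prop where
  strictMono : StrictMono h
  continuous : Continuous h
  surjective : Function.Surjective h
  weight : ∃ w : ℝ → ℝ, (∀ x, 0 ≤ w x) ∧ LocallyIntegrable w ∧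
    (∀ a b, h b - h a = ∫ x in a..b, w x) ∧ AInfty w

/-- property (L): `‖P V_h f‖ ≥ c ‖f‖` for all `f ∈ BMOA` -/
def PropertyL (h : ℝ → ℝ) : Prop :=
  ∃ c : ℝ, 0 < c ∧ ∀ f g : ℝ → ℂ, InBMOA f → IsProj (fun x => f (h x)) g →
    ENNReal.ofReal c * bmoNorm f ≤ bmoNorm g

end

end Pool.Agent.Helper34.Weld
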