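import Pool.Agent.Helper34.Weld.Lev2

set_option autoImplicit false

namespace Pool.Agent.Helper34.Weld

open Complex Set Filter Topology MeasureTheory
open scoped ContDiff Classical ENNReal

noncomputable section

/-- uniform limits -/
lemma unif_lim {F : Type*} [NormedAddCommGroup F] [CompleteSpace F] {f : ℕ → ℝ → F} {b : ℕ → ℝ}
    (hb : Summable b) (h : ∀ k y, ‖f (k + 1) y - f k y‖ ≤ b k) :
    ∃ g : ℝ → F, TendstoUniformly f g atTop := by
  have h1 : ∀ y, ∃ l, Tendsto (fun k => f k y) atTop (𝓝 l) := by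
    intro y
    apply cauchySeq_tendsto_of_complete
    apply cauchySeq_of_dist_le_of_summable b _ hb
    intro k
    rw [dist_comm, dist_eq_norm]
    exact h k y
  choose g hg using h1
  refine ⟨g, ?_⟩
  rw [Metric.tendstoUniformly_iff]
  intro ε hε
  have h2 : Tendsto (fun n => ∑' k, b (k + n)) atTop (𝓝 0) := tendsto_sum_nat_add b
  filter_upwards [h2.eventually (gt_mem_nhds hε)] with n hn y
  have h3 := dist_le_tsum_of_dist_le_of_tendsto b (f := fun k => f k y) (fun k => by
    rw [dist_comm, dist_eq_norm]; exact h k y) hb (hg y) n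
  rw [dist_comm]
  refine lt_of_le_of_lt h3 ?_
  refine lt_of_le_of_lt (le_of_eq ?_) hn
  congr 1
  funext k
  rw [add_comm]

lemma l1_limit {w : ℕ → ℝ → ℝ} (hw : ∀ k, Continuous (w k)) (w0 : ∀ k x, 0 ≤ w k x) {b : ℕ → ℝ}
    (hb : Summable b)
    (hL : ∀ k (n : ℕ), ∫ s in (-(n * (2 * Real.pi)) : ℝ)..(n * (2 * Real.pi)),
        |w (k + 1) s - w k s| ≤ b k * (n * (4 * Real.pi))) :
    ∃ W : ℝ → ℝ, (∀ x, 0 ≤ W x) ∧ LocallyIntegrable W ∧
      ∀ E : Set ℝ, MeasurableSet E → Bornology.IsBounded E →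
        Tendsto (fun k => ∫ x in E, w k x) atTop (𝓝 (∫ x in E, W x)) := by
  have hpi := Real.pi_pos
  let F : ℕ → ℝ → ℝ := fun k x => w (k + 1) x - w k x
  have hF : ∀ k, Continuous (F k) := fun k => (hw (k + 1)).sub (hw k)
  let W : ℝ → ℝ := fun x => w 0 x + ∑' k, F k x
  have hsum : ∀ m x, w 0 x + ∑ k ∈ Finset.range m, F k x = w m x := by
    intro m x
    rw [Finset.sum_range_sub (fun k => w k x)]; ring
  -- bounded sets are in a big interval
  have hbd : ∀ E : Set ℝ, Bornology.IsBounded E →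
      ∃ n : ℕ, E ⊆ Icc (-(n * (2 * Real.pi)) : ℝ) (n * (2 * Real.pi)) := by
    intro E hE
    obtain ⟨R, hR⟩ := hE.exists_norm_le
    obtain ⟨n, hn⟩ := exists_nat_ge R
    refine ⟨n, fun x hx => ?_⟩
    have h1 := hR x hx
    rw [Real.norm_eq_abs, abs_le] at h1
    have h2 : (n : ℝ) ≤ n * (2 * Real.pi) := by
      have : (0:ℝ) ≤ n := Nat.cast_nonneg n
      nlinarith [Real.pi_gt_three]
    constructor <;> linarith [h1.1, h1.2]
  -- main facts on a bounded measurable set
  have key : ∀ E : Set ℝ, MeasurableSet E → Bornology.IsBounded E →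
      (∀ k, IntegrableOn (F k) E) ∧ (∀ k, IntegrableOn (w k) E) ∧
      Summable (fun k => ∫ x in E, ‖F k x‖) := by
    intro E hEm hE
    obtain ⟨n, hn⟩ := hbd E hE
    have hab : (-(n * (2 * Real.pi)) : ℝ) ≤ n * (2 * Real.pi) := by
      have : (0:ℝ) ≤ n * (2 * Real.pi) := by positivity
      linarith
    have hi : ∀ g : ℝ → ℝ, Continuous g → IntegrableOn g E := fun g hg =>
      (hg.integrableOn_Icc).mono_set hn
    refine ⟨fun k => hi _ (hF k), fun k => hi _ (hw k), ?_⟩
    refine Summable.of_norm_bounded (g := fun k => b k * (n * (4 * Real.pi))) (hb.mul_right _) ?_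
    intro k
    rw [Real.norm_of_nonneg (integral_nonneg (fun _ => norm_nonneg _))]
    refine le_trans ?_ (hL k n)
    rw [intervalIntegral.integral_of_le hab, ← integral_Icc_eq_integral_Ioc]
    apply setIntegral_mono_set ((hF k).norm.integrableOn_Icc)
    · filter_upwards with x using norm_nonneg _
    · exact hn.eventuallyLE
  have hint : ∀ E : Set ℝ, MeasurableSet E → Bornology.IsBounded E →
      IntegrableOn (fun x => ∑' k, F k x) E := by
    intro E hEm hE
    obtain ⟨k1, k2, k3⟩ := key E hEm hE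
    have e1 : ∑' k, ∫⁻ x in E, ‖F k x‖ₑ ≠ ⊤ := by
      have e2 : ∀ k, ∫⁻ x in E, ‖F k x‖ₑ = ENNReal.ofReal (∫ x in E, ‖F k x‖) := fun k =>
        (ofReal_integral_norm_eq_lintegral_enorm (k1 k)).symm
      simp only [e2]
      exact k3.tsum_ofReal_ne_top
    have e3 : ∀ᵐ x ∂(volume.restrict E), Summable (fun k => ‖F k x‖) := by
      apply summable_norm_of_tsum_eLpNorm_ne_top (p := 1) le_rfl
        (fun k => (hF k).aestronglyMeasurable)
      simpa only [eLpNorm_one_eq_lintegral_enorm] using e1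
    refine ⟨?_, ?_⟩
    · apply aestronglyMeasurable_of_tendsto_ae (u := atTop)
        (f := fun m x => ∑ k ∈ Finset.range m, F k x)
      · intro m
        exact (continuous_finsetSum _ (fun k _ => hF k)).aestronglyMeasurable
      · filter_upwards [e3] with x hx
        exact (Summable.of_norm hx).hasSum.tendsto_sum_nat
    · rw [hasFiniteIntegral_iff_enorm]
      refine lt_of_le_of_lt (lintegral_mono (fun x => enorm_tsum_le_tsum_enorm)) ?_
      rw [lintegral_tsum (fun k => (hF k).enorm.aemeasurable)]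
      exact lt_top_iff_ne_top.mpr e1
  refine ⟨W, ?_, ?_, ?_⟩
  · intro x
    by_cases hx : Summable fun k => F k x
    · have h1 := hx.hasSum.tendsto_sum_nat
      have h2 : Tendsto (fun m => w m x) atTop (𝓝 (W x)) := by
        have := h1.const_add (w 0 x)
        simp only [hsum] at this
        exact this
      exact ge_of_tendsto' h2 (fun m => w0 m x)
    · show 0 ≤ w 0 x + ∑' k, F k x
      rw [tsum_eq_zero_of_not_summable hx, add_zero]
      exact w0 0 x
  · rw [locallyIntegrable_iff]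
    intro K hK
    exact ((hw 0).continuousOn.integrableOn_compact hK).add
      (hint K hK.measurableSet hK.isBounded)
  · intro E hEm hE
    obtain ⟨k1, k2, k3⟩ := key E hEm hE
    have h1 := (hasSum_integral_of_summable_integral_norm k1 k3).tendsto_sum_nat
    have h2 := h1.const_add (∫ x in E, w 0 x)
    have h3 : ∫ x in E, W x = (∫ x in E, w 0 x) + ∫ x in E, ∑' k, F k x :=
      integral_add (k2 0) (hint E hEm hE)
    rw [h3]
    refine h2.congr (fun m => ?_)
    rw [← integral_finsetSum _ (fun k _ => k1 k), ← integral_add (k2 0)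
      (integrable_finsetSum _ (fun k _ => k1 k))]
    congr 1
    funext x
    exact hsum m x

/-- Hölder from the reverse Hölder inequality -/
lemma RH_set {σ C : ℝ} (hσ : 0 < σ) (hC : 0 < C) {h : ℝ → ℝ} (hh : St h) (hRH : RH σ C h)
    {a b : ℝ} (hab : a < b) {E : Set ℝ} (hEab : E ⊆ Icc a b) :
    ∫ x in E, deriv h x ≤ C ^ (1 / (1 + σ)) * (h b - h a) *
      ((volume E).toReal / (b - a)) ^ (σ / (1 + σ)) := by
  have hba : 0 < b - a := sub_pos.mpr hab
  have hp1 : 1 < 1 + σ := by linarith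
  have hp0 : 0 < 1 + σ := by linarith
  have hpq : (1 + σ).HolderConjugate ((1 + σ) / σ) := by
    rw [Real.holderConjugate_iff]
    refine ⟨hp1, ?_⟩
    field_simp
  have hΔ : 0 < h b - h a := sub_pos.mpr (hh.strictMono hab)
  have hvE : volume E ≤ ENNReal.ofReal (b - a) := by
    refine (measure_mono hEab).trans ?_
    rw [Real.volume_Icc]
  have hvE' : volume E < ⊤ := lt_of_le_of_lt hvE ENNReal.ofReal_lt_top
  have : IsFiniteMeasure (volume.restrict E) := ⟨by rwa [Measure.restrict_apply_univ]⟩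
  have hc := (smooth_deriv hh.smooth).continuous
  have hcp := rpow_cont hh.smooth hh.pos (1 + σ)
  obtain ⟨l₁, l₂, hl₁, hl₁₂, hl⟩ := hh.bounds
  have hmem : MemLp (deriv h) (ENNReal.ofReal (1 + σ)) (volume.restrict E) := by
    apply MemLp.of_bound hc.aestronglyMeasurable l₂
    filter_upwards with x
    rw [Real.norm_of_nonneg (hh.pos x).le]
    exact (hl x).2
  have h1 := integral_mul_le_Lp_mul_Lq_of_nonneg (μ := volume.restrict E) hpq
    (f := deriv h) (g := fun _ => (1:ℝ)) (by filter_upwards with x using (hh.pos x).le)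
    (by filter_upwards with x using zero_le_one) hmem (memLp_const 1)
  simp only [mul_one, Real.one_rpow] at h1
  rw [setIntegral_const, smul_eq_mul, mul_one] at h1
  have e0 : volume.real E = (volume E).toReal := rfl
  rw [e0] at h1
  have e1 : (1:ℝ) / ((1 + σ) / σ) = σ / (1 + σ) := by field_simp
  rw [e1] at h1
  have h2 : ∫ x in E, (deriv h x) ^ (1 + σ) ≤ ∫ x in a..b, (deriv h x) ^ (1 + σ) := by
    rw [intervalIntegral.integral_of_le hab.le, ← integral_Icc_eq_integral_Ioc]
    apply setIntegral_mono_set hcp.integrableOn_Icc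
    · filter_upwards with x using Real.rpow_nonneg (hh.pos x).le _
    · exact hEab.eventuallyLE
  have h3 := hRH a b hab
  unfold RHx at h3
  have hbaσ : 0 < (b - a) ^ σ := Real.rpow_pos_of_pos hba _
  have h4 : ∫ x in E, (deriv h x) ^ (1 + σ) ≤ C * (h b - h a) ^ (1 + σ) / (b - a) ^ σ := by
    rw [le_div_iff₀ hbaσ]
    calc (∫ x in E, (deriv h x) ^ (1 + σ)) * (b - a) ^ σ
        ≤ (∫ x in a..b, (deriv h x) ^ (1 + σ)) * (b - a) ^ σ :=
          mul_le_mul_of_nonneg_right h2 hbaσ.le
      _ = (b - a) ^ σ * ∫ x in a..b, (deriv h x) ^ (1 + σ) := mul_comm _ _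
      _ ≤ _ := h3
  have h5 : 0 ≤ ∫ x in E, (deriv h x) ^ (1 + σ) :=
    integral_nonneg (fun x => Real.rpow_nonneg (hh.pos x).le _)
  have h6 : (∫ x in E, (deriv h x) ^ (1 + σ)) ^ (1 / (1 + σ)) ≤
      C ^ (1 / (1 + σ)) * (h b - h a) / (b - a) ^ (σ / (1 + σ)) := by
    refine (Real.rpow_le_rpow h5 h4 (by positivity)).trans (le_of_eq ?_)
    rw [Real.div_rpow (by positivity) hbaσ.le, Real.mul_rpow hC.le (by positivity),
      ← Real.rpow_mul hΔ.le, ← Real.rpow_mul hba.le]
    congr 2
    · rw [mul_one_div_cancel hp0.ne', Real.rpow_one]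
    · congr 1; ring
  have h7 : 0 ≤ (volume E).toReal ^ (σ / (1 + σ)) := Real.rpow_nonneg ENNReal.toReal_nonneg _
  refine h1.trans ((mul_le_mul_of_nonneg_right h6 h7).trans (le_of_eq ?_))
  rw [Real.div_rpow ENNReal.toReal_nonneg hba.le]
  ring

end

end Pool.Agent.Helper34.Weld
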