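import Pool.Agent.Helper34.Weld.Defs
import Pool.Agent.Helper34.Weld.Lim

set_option autoImplicit false

namespace Pool.Agent.Helper34.Weld

open Complex Set Filter Topology MeasureTheory
open scoped ContDiff Classical ENNReal FourierTransform SchwartzMap

noncomputable section

lemma spec_E (k : ℤ) (φ : 𝓢(ℝ, ℂ)) :
    ∫ x, E k x * 𝓕 (φ : ℝ → ℂ) x = φ ((k : ℝ) / (2 * Real.pi)) := by
  have h1 : 𝓕⁻ (𝓕 (φ : ℝ → ℂ)) = φ :=
    φ.continuous.fourierInv_fourier_eq φ.integrable (by
      rw [← SchwartzMap.fourier_coe]; exact (𝓕 φ).integrable)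
  have h2 := congrFun h1 ((k : ℝ) / (2 * Real.pi))
  rw [Real.fourierInv_eq'] at h2
  rw [← h2]
  apply integral_congr_ae
  filter_upwards with x
  rw [smul_eq_mul]
  congr 1
  unfold E
  congr 3
  have : (2 * Real.pi) ≠ 0 := by positivity
  simp only [RCLike.inner_apply, conj_trivial]
  field_simp

lemma fint (φ : 𝓢(ℝ, ℂ)) : Integrable (𝓕 (φ : ℝ → ℂ)) := by
  rw [← SchwartzMap.fourier_coe]; exact (𝓕 φ).integrable

lemma bint {F : ℝ → ℂ} (hF : Continuous F) {B : ℝ} (hB : ∀ x, ‖F x‖ ≤ B) (φ : 𝓢(ℝ, ℂ)) :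
    Integrable (fun x => F x * 𝓕 (φ : ℝ → ℂ) x) :=
  (fint φ).bdd_mul hF.aestronglyMeasurable (c := B) (by filter_upwards with x using hB x)

lemma spec_span {s : ℕ → ℤ} (hs : ∀ k, s k ≠ 0) {T : ℝ → ℂ}
    (hT : T ∈ Submodule.span ℂ (Set.range fun k : ℕ => E (s k))) (φ : 𝓢(ℝ, ℂ))
    (hφ : ∀ k, φ ((s k : ℝ) / (2 * Real.pi)) = 0) :
    ∫ x, T x * 𝓕 (φ : ℝ → ℂ) x = 0 := by
  induction hT using Submodule.span_induction with
  | mem F hF =>
    obtain ⟨k, rfl⟩ := hF
    rw [spec_E, hφ]
  | zero => simp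
  | add F G hF hG ihF ihG =>
    have tF := tp_span hs hF
    have tG := tp_span hs hG
    obtain ⟨B₁, -, hB₁⟩ := per_bdd tF.smooth.continuous tF.per
    obtain ⟨B₂, -, hB₂⟩ := per_bdd tG.smooth.continuous tG.per
    simp only [Pi.add_apply, add_mul]
    rw [integral_add (bint tF.smooth.continuous hB₁ φ) (bint tG.smooth.continuous hB₂ φ), ihF, ihG,
      add_zero]
  | smul c F _ ihF =>
    simp only [Pi.smul_apply, smul_eq_mul, mul_assoc]
    rw [integral_const_mul, ihF, mul_zero]

lemma spec_lim {F : ℕ → ℝ → ℂ} {G : ℝ → ℂ} (h : TendstoUniformly F G atTop)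
    (hF : ∀ n, Continuous (F n)) (hFp : ∀ n y, F n (y + 2 * Real.pi) = F n y)
    (hG : Continuous G) (hGp : ∀ y, G (y + 2 * Real.pi) = G y) (φ : 𝓢(ℝ, ℂ))
    (h0 : ∀ n, ∫ x, F n x * 𝓕 (φ : ℝ → ℂ) x = 0) : ∫ x, G x * 𝓕 (φ : ℝ → ℂ) x = 0 := by
  rw [← norm_le_zero_iff]
  apply le_of_forall_pos_le_add
  intro ε hε
  rw [zero_add]
  set L := ∫ x, ‖𝓕 (φ : ℝ → ℂ) x‖ with hL
  have hL0 : 0 ≤ L := integral_nonneg (fun _ => norm_nonneg _)
  rw [Metric.tendstoUniformly_iff] at h
  obtain ⟨n, hn⟩ := (h (ε / (L + 1)) (by positivity)).exists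
  obtain ⟨B₁, -, hB₁⟩ := per_bdd (hF n) (hFp n)
  obtain ⟨B₂, -, hB₂⟩ := per_bdd hG hGp
  have h1 : ∫ x, G x * 𝓕 (φ : ℝ → ℂ) x = ∫ x, (G x - F n x) * 𝓕 (φ : ℝ → ℂ) x := by
    simp only [sub_mul]
    rw [integral_sub (bint hG hB₂ φ) (bint (hF n) hB₁ φ), h0, sub_zero]
  rw [h1]
  calc ‖∫ x, (G x - F n x) * 𝓕 (φ : ℝ → ℂ) x‖ ≤ ∫ x, ‖(G x - F n x) * 𝓕 (φ : ℝ → ℂ) x‖ :=
        norm_integral_le_integral_norm _
    _ ≤ ∫ x, ε / (L + 1) * ‖𝓕 (φ : ℝ → ℂ) x‖ := by
        apply integral_mono_of_nonneg (by filter_upwards with x using norm_nonneg _)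
          ((fint φ).norm.const_mul _)
        filter_upwards with x
        rw [norm_mul]
        apply mul_le_mul_of_nonneg_right _ (norm_nonneg _)
        rw [← dist_eq_norm]
        exact (hn x).le
    _ = ε / (L + 1) * L := by rw [integral_const_mul]
    _ ≤ ε := by
        rw [div_mul_eq_mul_div, div_le_iff₀ (by positivity)]
        nlinarith

lemma mean_lim {F : ℕ → ℝ → ℂ} {G : ℝ → ℂ} (h : TendstoUniformly F G atTop)
    (hF : ∀ n, Continuous (F n)) (hG : Continuous G)
    (h0 : ∀ n, ∫ x in (0:ℝ)..(2 * Real.pi), F n x = 0) :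
    ∫ x in (0:ℝ)..(2 * Real.pi), G x = 0 := by
  have hpi := Real.pi_pos
  rw [← norm_le_zero_iff]
  apply le_of_forall_pos_le_add
  intro ε hε
  rw [zero_add]
  rw [Metric.tendstoUniformly_iff] at h
  obtain ⟨n, hn⟩ := (h (ε / (2 * Real.pi)) (by positivity)).exists
  have h1 : ∫ x in (0:ℝ)..(2 * Real.pi), G x = ∫ x in (0:ℝ)..(2 * Real.pi), (G x - F n x) := by
    rw [intervalIntegral.integral_sub (hG.intervalIntegrable _ _) ((hF n).intervalIntegrable _ _),
      h0, sub_zero]
  rw [h1]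
  have h2 := intervalIntegral.norm_integral_le_of_norm_le_const (a := 0) (b := 2 * Real.pi)
    (f := fun x => G x - F n x) (C := ε / (2 * Real.pi)) (fun x _ => by
      rw [← dist_eq_norm]; exact (hn x).le)
  refine h2.trans (le_of_eq ?_)
  rw [sub_zero, abs_of_pos (by positivity)]
  field_simp

lemma inBMO_of_bdd {f : ℝ → ℂ} (hf : Continuous f) {B : ℝ} (hB : ∀ x, ‖f x‖ ≤ B) : InBMO f := by
  have hB0 : 0 ≤ B := (norm_nonneg _).trans (hB 0)
  refine ⟨hf.locallyIntegrable, ?_⟩
  refine lt_of_le_of_lt ?_ (ENNReal.ofReal_lt_top (r := 2 * B))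
  unfold bmoNorm
  refine iSup_le fun a => iSup_le fun b => iSup_le fun hab => ?_
  apply ENNReal.ofReal_le_ofReal
  have hba : 0 < b - a := sub_pos.mpr hab
  have h1 : ‖avg f a b‖ ≤ B := by
    unfold avg
    rw [norm_smul, norm_inv, Real.norm_of_nonneg hba.le]
    have h2 := intervalIntegral.norm_integral_le_of_norm_le_const (a := a) (b := b)
      (f := f) (C := B) (fun x _ => hB x)
    rw [abs_of_pos hba] at h2
    rw [inv_mul_le_iff₀ hba]
    linarith
  unfold mosc
  rw [inv_mul_le_iff₀ hba]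
  have h2 : ∫ x in a..b, ‖f x - avg f a b‖ ≤ ∫ x in a..b, 2 * B := by
    apply intervalIntegral.integral_mono_on hab.le _ intervalIntegrable_const
    · intro x _
      refine (norm_sub_le _ _).trans ?_
      linarith [hB x]
    · exact ((hf.sub continuous_const).norm).intervalIntegrable _ _
  rw [intervalIntegral.integral_const, smul_eq_mul] at h2
  exact h2

theorem main : ∃ h : ℝ → ℝ, MemG h ∧ ¬ PropertyL h ∧ ∃ f : ℝ → ℂ, InBMOA f ∧ bmoNorm f ≠ 0 ∧
    InConjBMOA (fun x => f (h x)) ∧ IsProj (fun x => f (h x)) (fun _ => 0) := by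
  have hpi := Real.pi_gt_three
  obtain ⟨h, P, V, b, μ, C, hC, hb, hμ, hst, hP, hV, huu, hPd, hVd, hhd, hL, hRH⟩ := exists_seq
  obtain ⟨H, hH⟩ := unif_lim (F := ℝ) (f := h) hb (fun k y => by
    rw [Real.norm_eq_abs]; exact hhd k y)
  obtain ⟨FP, hFP⟩ := unif_lim hb hPd
  obtain ⟨FV, hFV⟩ := unif_lim hb hVd
  have hHc : Continuous H := hH.continuous (Frequently.of_forall fun k => (hst k).smooth.continuous)
  have hPc : ∀ k, Continuous (P k) := fun k => (tp_pos (hP k)).smooth.continuous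
  have hVc : ∀ k, Continuous (V k) := fun k => (tp_neg (hV k)).smooth.continuous
  have hFPc : Continuous FP := hFP.continuous (Frequently.of_forall hPc)
  have hFVc : Continuous FV := hFV.continuous (Frequently.of_forall hVc)
  have hFPp : ∀ y, FP (y + 2 * Real.pi) = FP y := fun y =>
    tendsto_nhds_unique (hFP.tendsto_at _) ((hFP.tendsto_at y).congr fun k =>
      ((tp_pos (hP k)).per y).symm)
  have hFVp : ∀ y, FV (y + 2 * Real.pi) = FV y := fun y =>
    tendsto_nhds_unique (hFV.tendsto_at _) ((hFV.tendsto_at y).congr fun k =>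
      ((tp_neg (hV k)).per y).symm)
  have hHp : ∀ y, H (y + 2 * Real.pi) = H y + 2 * Real.pi := fun y =>
    tendsto_nhds_unique (hH.tendsto_at _) (((hH.tendsto_at y).add_const _).congr fun k =>
      ((hst k).per y).symm)
  obtain ⟨BP, -, hBP⟩ := per_bdd hFPc hFPp
  obtain ⟨BV, -, hBV⟩ := per_bdd hFVc hFVp
  -- the functional equation
  have hfun : ∀ y, FP (H y) = FV y - 1 := by
    intro y
    have h1 : Tendsto (fun k => uu (h k) (P k) (V k) y) atTop (𝓝 0) := by
      rw [tendsto_zero_iff_norm_tendsto_zero]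
      exact squeeze_zero (fun _ => norm_nonneg _) (fun k => huu k y) hμ
    have h2 : Tendsto (fun k => P k (h k y)) atTop (𝓝 (FP (H y))) := by
      have h3 : Tendsto (fun k => FP (h k y)) atTop (𝓝 (FP (H y))) :=
        (hFPc.tendsto _).comp (hH.tendsto_at y)
      have h4 : Tendsto (fun k => P k (h k y) - FP (h k y)) atTop (𝓝 0) := by
        rw [Metric.tendsto_atTop]
        intro ε hε
        rw [Metric.tendstoUniformly_iff] at hFP
        obtain ⟨n, hn⟩ := eventually_atTop.mp (hFP ε hε)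
        refine ⟨n, fun k hk => ?_⟩
        rw [dist_zero_right, ← dist_eq_norm, dist_comm]
        exact hn k hk _
      have := h4.add h3
      simp only [sub_add_cancel, zero_add] at this
      exact this
    have h3 : Tendsto (fun k => uu (h k) (P k) (V k) y) atTop (𝓝 (FP (H y) + 1 - FV y)) :=
      (h2.add_const 1).sub (hFV.tendsto_at y)
    have h4 := tendsto_nhds_unique h1 h3
    linear_combination -h4
  -- the weight
  obtain ⟨w, hw0, hwl, hwt⟩ := l1_limit (w := fun k => deriv (h k))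
    (fun k => (smooth_deriv (hst k).smooth).continuous) (fun k x => ((hst k).pos x).le) hb hL
  have hint : ∀ a b : ℝ, a ≤ b → H b - H a = ∫ x in a..b, w x := by
    intro a b hab
    rw [intervalIntegral.integral_of_le hab]
    refine tendsto_nhds_unique ((hH.tendsto_at b).sub (hH.tendsto_at a)) ?_
    refine (hwt (Ioc a b) measurableSet_Ioc (Metric.isBounded_Ioc a b)).congr (fun k => ?_)
    show ∫ x in Ioc a b, deriv (h k) x = h k b - h k a
    rw [smooth_ftc (hst k).smooth, intervalIntegral.integral_of_le hab]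
  have hint2 : ∀ a b : ℝ, H b - H a = ∫ x in a..b, w x := by
    intro a b
    rcases le_total a b with hab | hab
    · exact hint a b hab
    · rw [intervalIntegral.integral_symm, ← hint b a hab]; ring
  have hdl := dl_pos
  have hainf : AInfty w := by
    refine ⟨C ^ (1 / (1 + dl)), dl / (1 + dl), Real.rpow_pos_of_pos hC _, by positivity, ?_⟩
    intro a b hab E hE hEab
    have h1 := hwt E hE ((Metric.isBounded_Icc a b).subset hEab)
    rw [← hint a b hab.le]
    have h2 : Tendsto (fun k => C ^ (1 / (1 + dl)) * ((volume E).toReal / (b - a)) ^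
        (dl / (1 + dl)) * (h k b - h k a)) atTop (𝓝 (C ^ (1 / (1 + dl)) *
        ((volume E).toReal / (b - a)) ^ (dl / (1 + dl)) * (H b - H a))) :=
      ((hH.tendsto_at b).sub (hH.tendsto_at a)).const_mul _
    refine le_of_tendsto_of_tendsto' h1 h2 (fun k => ?_)
    refine (RH_set hdl hC (hst k) (hRH k) hab hEab).trans (le_of_eq ?_)
    ring
  have hmono : Monotone H := by
    intro a b hab
    exact le_of_tendsto_of_tendsto' (hH.tendsto_at a) (hH.tendsto_at b)
      (fun k => (hst k).strictMono.monotone hab)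
  have hstrict : StrictMono H := by
    intro a b hab
    by_contra hc
    have hHab : H b = H a := le_antisymm (not_lt.mp hc) (hmono hab.le)
    obtain ⟨C', δ, hC', hδ, hA⟩ := hainf
    set S : Set ℝ := {t | H t = H a} with hS
    have hSb : BddAbove S := by
      refine ⟨a + 2 * Real.pi, fun t ht => ?_⟩
      by_contra hc2
      have h1 := hmono (not_le.mp hc2).le
      rw [hHp] at h1
      have h2 : H t = H a := ht
      linarith
    have hSne : S.Nonempty := ⟨a, rfl⟩
    have hScl : IsClosed S := isClosed_eq hHc continuous_const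
    set B := sSup S with hB
    have hBS : H B = H a := hScl.csSup_mem hSne hSb
    have hbB : b ≤ B := le_csSup hSb hHab
    have haB : a < B := lt_of_lt_of_le hab hbB
    -- choose a small s
    have hlim : Tendsto (fun s : ℝ => C' * (s / (B - a)) ^ δ) (𝓝[>] 0) (𝓝 0) := by
      have h1 : ContinuousAt (fun s : ℝ => C' * (s / (B - a)) ^ δ) 0 := by
        apply ContinuousAt.mul continuousAt_const
        exact (continuousAt_id.div_const _).rpow_const (Or.inr hδ.le)
      have h2 := h1.tendsto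
      rw [zero_div, Real.zero_rpow hδ.ne', mul_zero] at h2
      exact h2.mono_left nhdsWithin_le_nhds
    obtain ⟨s, hs1, hs0⟩ := ((hlim.eventually (gt_mem_nhds one_pos)).and
      self_mem_nhdsWithin).exists
    have hs0 : 0 < s := hs0
    have h1 := hA a (B + s) (by linarith) (Icc B (B + s)) measurableSet_Icc
      (Icc_subset_Icc_left haB.le)
    have h2 : ∫ x in Icc B (B + s), w x = H (B + s) - H B := by
      rw [hint B (B + s) (by linarith), intervalIntegral.integral_of_le (by linarith),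
        integral_Icc_eq_integral_Ioc]
    have h3 : H a < H (B + s) := by
      rcases lt_or_eq_of_le (hmono (by linarith : a ≤ B + s)) with h4 | h4
      · exact h4
      · exfalso
        have := le_csSup hSb (show B + s ∈ S from h4.symm)
        linarith
    rw [h2, ← hint a (B + s) (by linarith), hBS, Real.volume_Icc, add_sub_cancel_left,
      ENNReal.toReal_ofReal hs0.le] at h1
    have h4 : (s / (B + s - a)) ^ δ ≤ (s / (B - a)) ^ δ := by
      apply Real.rpow_le_rpow (div_nonneg hs0.le (by linarith)) _ hδ.le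
      apply div_le_div_of_nonneg_left hs0.le (by linarith) (by linarith)
    have h5 : C' * (s / (B + s - a)) ^ δ < 1 :=
      lt_of_le_of_lt (mul_le_mul_of_nonneg_left h4 hC'.le) hs1
    have h6 : 0 < H (B + s) - H a := by linarith
    nlinarith
  have hsurj : Function.Surjective H := by
    have hH0 : H 0 = 0 := tendsto_nhds_unique (hH.tendsto_at 0)
      (tendsto_const_nhds.congr fun k => ((hst k).zero).symm)
    have hHn : ∀ n : ℕ, H (n * (2 * Real.pi)) = n * (2 * Real.pi) := by
      intro n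
      refine tendsto_nhds_unique (hH.tendsto_at _) (tendsto_const_nhds.congr fun k => ?_)
      have := (hst k).int_mul n
      exact_mod_cast this.symm
    have hHn' : ∀ n : ℕ, H (-(n * (2 * Real.pi))) = -(n * (2 * Real.pi)) := by
      intro n
      refine tendsto_nhds_unique (hH.tendsto_at _) (tendsto_const_nhds.congr fun k => ?_)
      have := (hst k).int_mul (-(n : ℤ))
      push_cast at this
      rw [neg_mul] at this
      exact this.symm
    intro x
    obtain ⟨n, hn⟩ := exists_nat_ge |x|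
    have h1 : (n : ℝ) ≤ n * (2 * Real.pi) := by
      have : (0:ℝ) ≤ n := Nat.cast_nonneg n
      nlinarith
    rw [abs_le] at hn
    have hmn : -(n * (2 * Real.pi)) ≤ (n : ℝ) * (2 * Real.pi) := by
      have : (0:ℝ) ≤ n * (2 * Real.pi) := by positivity
      linarith
    have h2 := intermediate_value_Icc hmn hHc.continuousOn
    rw [hHn, hHn'] at h2
    obtain ⟨y, -, hy⟩ := h2 ⟨by linarith [hn.1], by linarith [hn.2]⟩
    exact ⟨y, hy⟩
  have hG : MemG H := ⟨hstrict, hHc, hsurj, w, hw0, hwl, hint2, hainf⟩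
  -- the function
  have hA : InBMOA FP := by
    refine ⟨inBMO_of_bdd hFPc hBP, fun φ hφ => ?_⟩
    apply spec_lim hFP hPc (fun k => (tp_pos (hP k)).per) hFPc hFPp φ
    intro k
    apply spec_span (s := fun k : ℕ => (k : ℤ) + 1) (fun k => by omega) (hP k) φ
    intro j
    apply image_eq_zero_of_notMem_tsupport
    intro hc
    have h1 := hφ hc
    rw [mem_Iio] at h1
    have h2 : (0:ℝ) < (((j : ℤ) + 1 : ℤ) : ℝ) / (2 * Real.pi) := by
      apply div_pos _ (by positivity)
      push_cast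
      positivity
    linarith
  have hfH : (fun x => FP (H x)) = fun x => FV x - 1 := funext hfun
  have hB : InConjBMOA (fun x => FP (H x)) := by
    rw [hfH]
    refine ⟨inBMO_of_bdd (hFVc.sub continuous_const) (B := BV + 1) (fun x => ?_), fun φ hφ => ?_⟩
    · refine (norm_sub_le _ _).trans ?_
      rw [norm_one]
      linarith [hBV x]
    · have e1 : ∫ x, FV x * 𝓕 (φ : ℝ → ℂ) x = 0 := by
        apply spec_lim hFV hVc (fun k => (tp_neg (hV k)).per) hFVc hFVp φ
        intro k
        apply spec_span (s := fun k : ℕ => -((k : ℤ) + 1)) (fun k => by omega) (hV k) φ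
        intro j
        apply image_eq_zero_of_notMem_tsupport
        intro hc
        have h1 := hφ hc
        rw [mem_Ioi] at h1
        have h2 : ((-((j : ℤ) + 1) : ℤ) : ℝ) / (2 * Real.pi) < 0 := by
          apply div_neg_of_neg_of_pos _ (by positivity)
          push_cast
          have : (0:ℝ) ≤ j := Nat.cast_nonneg j
          linarith
        linarith
      have e2 : ∫ x, (1:ℂ) * 𝓕 (φ : ℝ → ℂ) x = 0 := by
        have h1 := spec_E 0 φ
        simp only [E_zero] at h1
        rw [h1]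
        apply image_eq_zero_of_notMem_tsupport
        intro hc
        have h2 := hφ hc
        rw [mem_Ioi] at h2
        simp at h2
      simp only [sub_mul]
      rw [integral_sub (bint hFVc hBV φ) (bint continuous_const (B := 1) (fun _ => by simp) φ),
        e1, e2, sub_zero]
  have hzero : InBMOA (fun _ => 0) := by
    refine ⟨inBMO_of_bdd continuous_const (B := 0) (fun _ => by simp), fun φ _ => by simp⟩
  have hproj : IsProj (fun x => FP (H x)) (fun _ => 0) := by
    refine ⟨hzero, ?_⟩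
    simp only [sub_zero]
    exact hB
  have hne : bmoNorm FP ≠ 0 := by
    intro h0
    have hmP : ∫ x in (0:ℝ)..(2 * Real.pi), FP x = 0 :=
      mean_lim hFP hPc hFPc (fun k => (tp_pos (hP k)).mean)
    have hmV : ∫ x in (0:ℝ)..(2 * Real.pi), FV x = 0 :=
      mean_lim hFV hVc hFVc (fun k => (tp_neg (hV k)).mean)
    have h1 : ENNReal.ofReal (mosc FP 0 (2 * Real.pi)) ≤ bmoNorm FP :=
      le_iSup_of_le 0 (le_iSup_of_le (2 * Real.pi) (le_iSup_of_le (by positivity) le_rfl))
    rw [h0, nonpos_iff_eq_zero, ENNReal.ofReal_eq_zero] at h1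
    have h2 : avg FP 0 (2 * Real.pi) = 0 := by unfold avg; rw [hmP, smul_zero]
    unfold mosc at h1
    rw [h2] at h1
    simp only [sub_zero] at h1
    have hzero : ∀ x ∈ Icc 0 (2 * Real.pi), FP x = 0 := by
      by_contra hc
      push Not at hc
      obtain ⟨x, hx, hx0⟩ := hc
      have h3 : 0 < ∫ x in (0:ℝ)..(2 * Real.pi), ‖FP x‖ :=
        intervalIntegral.integral_pos (by positivity) hFPc.norm.continuousOn
          (fun _ _ => norm_nonneg _) ⟨x, hx, norm_pos_iff.mpr hx0⟩
      have h4 : 0 < (2 * Real.pi)⁻¹ * ∫ x in (0:ℝ)..(2 * Real.pi), ‖FP x‖ := by positivity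
      linarith
    have hall : ∀ x, FP x = 0 := by
      intro x
      have hp : Function.Periodic FP (2 * Real.pi) := hFPp
      obtain ⟨y, hy, hxy⟩ := hp.exists_mem_Ico₀ (by positivity) x
      rw [hxy]
      exact hzero y ⟨hy.1, hy.2.le⟩
    have hV1 : ∀ x, FV x = 1 := by
      intro x
      have := hfun x
      rw [hall] at this
      linear_combination -this
    rw [intervalIntegral.integral_congr (g := fun _ => (1:ℂ)) (fun x _ => hV1 x),
      intervalIntegral.integral_const, sub_zero] at hmV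
    have h5 : ((2 * Real.pi : ℝ) : ℂ) = 0 := by
      rw [Complex.real_smul, mul_one] at hmV
      exact hmV
    have h6 : (2 * Real.pi : ℝ) = 0 := by exact_mod_cast h5
    linarith
  refine ⟨H, hG, ?_, FP, hA, hne, hB, hproj⟩
  rintro ⟨c, hc, hcL⟩
  have h1 := hcL FP (fun _ => 0) hA hproj
  have h2 : bmoNorm (fun _ => (0:ℂ)) = 0 := by
    unfold bmoNorm mosc avg
    simp
  rw [h2, nonpos_iff_eq_zero, mul_eq_zero] at h1
  rcases h1 with h1 | h1
  · rw [ENNReal.ofReal_eq_zero] at h1
    linarith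
  · exact hne h1

lemma avg_mul (c : ℂ) (f : ℝ → ℂ) (a b : ℝ) : avg (fun x => c * f x) a b = c * avg f a b := by
  unfold avg
  rw [intervalIntegral.integral_const_mul, mul_smul_comm]

lemma mosc_mul (c : ℂ) (f : ℝ → ℂ) (a b : ℝ) : mosc (fun x => c * f x) a b = ‖c‖ * mosc f a b := by
  unfold mosc
  rw [avg_mul]
  simp only [← mul_sub, norm_mul]
  rw [intervalIntegral.integral_const_mul]
  ring

lemma bmoNorm_mul (c : ℂ) (f : ℝ → ℂ) :
    bmoNorm (fun x => c * f x) = ENNReal.ofReal ‖c‖ * bmoNorm f := by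
  unfold bmoNorm
  simp only [mosc_mul, ENNReal.ofReal_mul (norm_nonneg c), ENNReal.mul_iSup]

lemma InBMO.const_mul {f : ℝ → ℂ} (hf : InBMO f) (c : ℂ) : InBMO (fun x => c * f x) := by
  refine ⟨?_, ?_⟩
  · intro x
    have := (hf.1 x)
    obtain ⟨s, hs, hi⟩ := this
    exact ⟨s, hs, hi.const_mul c⟩
  · rw [bmoNorm_mul]
    exact ENNReal.mul_lt_top ENNReal.ofReal_lt_top hf.2

lemma InBMOA.const_mul {f : ℝ → ℂ} (hf : InBMOA f) (c : ℂ) : InBMOA (fun x => c * f x) := by
  refine ⟨hf.1.const_mul c, fun φ hφ => ?_⟩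
  simp only [mul_assoc]
  rw [integral_const_mul, hf.2 φ hφ, mul_zero]

lemma InConjBMOA.const_mul {f : ℝ → ℂ} (hf : InConjBMOA f) (c : ℂ) :
    InConjBMOA (fun x => c * f x) := by
  refine ⟨hf.1.const_mul c, fun φ hφ => ?_⟩
  simp only [mul_assoc]
  rw [integral_const_mul, hf.2 φ hφ, mul_zero]

/-- normalised form -/
theorem main_normalised : ∃ h : ℝ → ℝ, MemG h ∧ ¬ PropertyL h ∧ ∃ f : ℝ → ℂ, InBMOA f ∧
    bmoNorm f = 1 ∧ InConjBMOA (fun x => f (h x)) ∧ IsProj (fun x => f (h x)) (fun _ => 0) := by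
  obtain ⟨h, hG, hL, f, hA, hne, hB, hP⟩ := main
  refine ⟨h, hG, hL, fun x => (((bmoNorm f).toReal⁻¹ : ℝ) : ℂ) * f x, hA.const_mul _, ?_,
    hB.const_mul _, ⟨hP.1, ?_⟩⟩
  · have hfin : bmoNorm f ≠ ⊤ := hA.1.2.ne
    have hpos : 0 < (bmoNorm f).toReal := ENNReal.toReal_pos hne hfin
    rw [bmoNorm_mul, Complex.norm_real, Real.norm_of_nonneg (inv_nonneg.mpr hpos.le),
      ENNReal.ofReal_inv_of_pos hpos, ENNReal.ofReal_toReal hfin]
    exact ENNReal.inv_mul_cancel hne hfin
  · simp only [sub_zero]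
    exact hB.const_mul _

end

end Pool.Agent.Helper34.Weld
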