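import Mathlib

set_option autoImplicit false

namespace Pool.Agent.Helper34.Weld

open Complex Set Filter Topology MeasureTheory
open scoped ContDiff

noncomputable section

/-- `e^{ikx}` -/
def E (k : ℤ) (x : ℝ) : ℂ := Complex.exp ((((k : ℝ) * x : ℝ) : ℂ) * I)

/-- trigonometric polynomials with frequencies `≥ 1` -/
def Ppos : Submodule ℂ (ℝ → ℂ) := Submodule.span ℂ (Set.range fun k : ℕ => E ((k : ℤ) + 1))

/-- trigonometric polynomials with frequencies `≤ -1` -/
def Pneg : Submodule ℂ (ℝ → ℂ) := Submodule.span ℂ (Set.range fun k : ℕ => E (-((k : ℤ) + 1)))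

/-- the smooth periodic homeomorphisms fixing `0` -/
structure St (h : ℝ → ℝ) : Prop where
  smooth : ContDiff ℝ ∞ h
  per : ∀ y, h (y + 2 * Real.pi) = h y + 2 * Real.pi
  zero : h 0 = 0
  pos : ∀ y, 0 < deriv h y

lemma norm_E (k : ℤ) (x : ℝ) : ‖E k x‖ = 1 := Complex.norm_exp_ofReal_mul_I _

lemma continuous_E (k : ℤ) : Continuous (E k) := by unfold E; fun_prop

lemma contDiff_E (k : ℤ) : ContDiff ℝ ∞ (E k) := by
  unfold E
  apply ContDiff.cexp
  apply ContDiff.mul _ contDiff_const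
  exact Complex.ofRealCLM.contDiff.comp (contDiff_const.mul contDiff_id)

lemma E_add (k l : ℤ) (x : ℝ) : E (k + l) x = E k x * E l x := by
  unfold E; rw [← Complex.exp_add]; congr 1; push_cast; ring

lemma E_zero (x : ℝ) : E 0 x = 1 := by unfold E; simp

lemma E_per (k : ℤ) (x : ℝ) : E k (x + 2 * Real.pi) = E k x := by
  unfold E
  rw [show ((((k : ℝ) * (x + 2 * Real.pi) : ℝ) : ℂ) * I) =
    (((k : ℝ) * x : ℝ) : ℂ) * I + k * (2 * Real.pi * I) by push_cast; ring,
    Complex.exp_add, Complex.exp_int_mul_two_pi_mul_I, mul_one]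

/-- derivative of a smooth function is smooth -/
lemma smooth_deriv {F : Type*} [NormedAddCommGroup F] [NormedSpace ℝ F] {f : ℝ → F}
    (hf : ContDiff ℝ ∞ f) : ContDiff ℝ ∞ (deriv f) :=
  (contDiff_infty_iff_deriv.mp hf).2

lemma per_deriv {F : Type*} [NormedAddCommGroup F] [NormedSpace ℝ F] {f : ℝ → F} {c : ℝ}
    (hf : ∀ y, f (y + c) = f y) (y : ℝ) : deriv f (y + c) = deriv f y := by
  rw [← deriv_comp_add_const]
  congr 1
  funext z
  exact hf z

lemma St.per_deriv {h : ℝ → ℝ} (hh : St h) (y : ℝ) :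
    deriv h (y + 2 * Real.pi) = deriv h y := by
  rw [← deriv_comp_add_const]
  have : (fun x => h (x + 2 * Real.pi)) = fun x => h x + 2 * Real.pi := funext hh.per
  rw [this, deriv_add_const]

lemma smooth_hasDerivAt {F : Type*} [NormedAddCommGroup F] [NormedSpace ℝ F] {f : ℝ → F}
    (hf : ContDiff ℝ ∞ f) (y : ℝ) : HasDerivAt f (deriv f y) y :=
  ((hf.differentiable (by simp)) y).hasDerivAt

/-- non-stationary phase -/
lemma nsp {h : ℝ → ℝ} (hh : St h) {b : ℝ → ℂ} (hb : ContDiff ℝ ∞ b)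
    (bper : ∀ y, b (y + 2 * Real.pi) = b y) :
    ∃ C : ℝ, 0 ≤ C ∧ ∀ N m : ℕ, 1 ≤ N + m →
      ‖∫ y in (0:ℝ)..(2 * Real.pi), b y *
        Complex.exp (((N : ℝ) * y + (m : ℝ) * h y : ℝ) * I)‖ ≤ C / ((N : ℝ) + m) ^ 2 := by
  have hs1 := smooth_deriv hh.smooth
  have hs2 := smooth_deriv hs1
  have hs3 := smooth_deriv hs2
  have hb1 := smooth_deriv hb
  have hb2 := smooth_deriv hb1
  set k1 := deriv h with hk1
  set k2 := deriv k1 with hk2
  set k3 := deriv k2 with hk3
  set b1 := deriv b with hb1'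
  set b2 := deriv b1 with hb2'
  -- the function whose sup norm is the constant
  let Q : ℝ → ℝ → ℂ := fun l y =>
    ((b2 y * ((l + (1 - l) * k1 y : ℝ) : ℂ) - b y * (((1 - l) * k3 y : ℝ) : ℂ)) *
        ((l + (1 - l) * k1 y : ℝ) : ℂ) -
      3 * (b1 y * ((l + (1 - l) * k1 y : ℝ) : ℂ) - b y * (((1 - l) * k2 y : ℝ) : ℂ)) *
        (((1 - l) * k2 y : ℝ) : ℂ)) / ((l + (1 - l) * k1 y : ℝ) : ℂ) ^ 4
  have hrpos : ∀ l ∈ Icc (0:ℝ) 1, ∀ y, 0 < l + (1 - l) * k1 y := by
    intro l hl y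
    have h1 := hh.pos y
    rcases eq_or_lt_of_le hl.1 with h0 | h0
    · rw [← h0]; simp only [sub_zero, one_mul, zero_add]; exact h1
    · have : 0 ≤ (1 - l) * k1 y := mul_nonneg (by linarith [hl.2]) h1.le
      linarith
  have hcont : ContinuousOn (fun p : ℝ × ℝ => Q p.1 p.2) (Icc (0:ℝ) 1 ×ˢ Icc (0:ℝ) (2 * Real.pi)) := by
    have c1 := hs1.continuous
    have c2 := hs2.continuous
    have c3 := hs3.continuous
    have d0 := hb.continuous
    have d1 := hb1.continuous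
    have d2 := hb2.continuous
    apply ContinuousOn.div
    · apply Continuous.continuousOn
      fun_prop
    · apply Continuous.continuousOn
      fun_prop
    · rintro ⟨l, y⟩ ⟨hl, hy⟩
      apply pow_ne_zero
      exact_mod_cast (hrpos l hl y).ne'
  obtain ⟨C, hC⟩ := (isCompact_Icc.prod isCompact_Icc).exists_bound_of_continuousOn hcont
  have hC0 : 0 ≤ C := by
    refine (norm_nonneg _).trans (hC (0, 0) ⟨by simp, ?_⟩)
    exact ⟨le_rfl, by positivity⟩
  refine ⟨2 * Real.pi * C, by positivity, ?_⟩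
  intro N m hNm
  set L : ℝ := (N : ℝ) + m with hL
  have hL1 : 1 ≤ L := by rw [hL]; exact_mod_cast hNm
  have hL0 : 0 < L := by linarith
  set l : ℝ := (N : ℝ) / L with hl
  have hl01 : l ∈ Icc (0:ℝ) 1 := by
    constructor
    · positivity
    · rw [hl, div_le_one hL0, hL]; linarith [(Nat.cast_nonneg m : (0:ℝ) ≤ m)]
  have hLl : L * l = N := by rw [hl]; field_simp
  have hLl' : L * (1 - l) = m := by rw [mul_sub, hLl, hL]; ring
  let r : ℝ → ℂ := fun y => ((l + (1 - l) * k1 y : ℝ) : ℂ)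
  let r1 : ℝ → ℂ := fun y => (((1 - l) * k2 y : ℝ) : ℂ)
  let r2 : ℝ → ℂ := fun y => (((1 - l) * k3 y : ℝ) : ℂ)
  have hr0 : ∀ y, r y ≠ 0 := fun y => Complex.ofReal_ne_zero.mpr (hrpos l hl01 y).ne'
  have hdr : ∀ y, HasDerivAt r (r1 y) y := by
    intro y
    have := ((smooth_hasDerivAt hs1 y).const_mul (1 - l)).const_add l
    exact this.ofReal_comp
  have hdr1 : ∀ y, HasDerivAt r1 (r2 y) y := by
    intro y
    have := ((smooth_hasDerivAt hs2 y).const_mul (1 - l))
    exact this.ofReal_comp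
  have hdb : ∀ y, HasDerivAt b (b1 y) y := smooth_hasDerivAt hb
  have hdb1 : ∀ y, HasDerivAt b1 (b2 y) y := smooth_hasDerivAt hb1
  let ee : ℝ → ℂ := fun y => Complex.exp (((N : ℝ) * y + (m : ℝ) * h y : ℝ) * I)
  have hde : ∀ y, HasDerivAt ee (ee y * (L * r y * I)) y := by
    intro y
    have h1 : HasDerivAt (fun y : ℝ => (((N : ℝ) * y + (m : ℝ) * h y : ℝ) : ℂ))
        (((N : ℝ) * 1 + (m : ℝ) * k1 y : ℝ) : ℂ) y :=
      (((hasDerivAt_id y).const_mul (N : ℝ)).add
        ((smooth_hasDerivAt hh.smooth y).const_mul (m : ℝ))).ofReal_comp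
    have h2 := (h1.mul_const I).cexp
    convert h2 using 1
    show Complex.exp _ * (L * ((l + (1 - l) * k1 y : ℝ) : ℂ) * I) = _
    congr 2
    have : L * (l + (1 - l) * k1 y) = (N : ℝ) * 1 + (m : ℝ) * k1 y := by
      rw [mul_add, hLl, ← mul_assoc, hLl']; ring
    exact_mod_cast this
  let q : ℝ → ℂ := fun y => (b1 y * r y - b y * r1 y) / r y ^ 3
  have hdq : ∀ y, HasDerivAt q (Q l y) y := by
    intro y
    have h1 := (((hdb1 y).mul (hdr y)).sub ((hdb y).mul (hdr1 y))).div ((hdr y).pow 3)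
      (pow_ne_zero 3 (hr0 y))
    have h2 : HasDerivAt q _ y := h1
    refine h2.congr_deriv ?_
    show _ = ((b2 y * r y - b y * r2 y) * r y - 3 * (b1 y * r y - b y * r1 y) * r1 y) / r y ^ 4
    have := hr0 y
    simp only [Pi.mul_apply, Pi.sub_apply, Pi.pow_apply]
    field_simp
    ring
  let Z : ℝ → ℂ := fun y => ee y * (-I * (b y / (L * r y)) + q y / (L : ℂ) ^ 2)
  have hLc : (L : ℂ) ≠ 0 := by exact_mod_cast hL0.ne'
  have hdZ : ∀ y, HasDerivAt Z (b y * ee y + Q l y * ee y / (L : ℂ) ^ 2) y := by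
    intro y
    have h1 := (hde y).mul (((((hdb y).div ((hdr y).const_mul (L : ℂ))
      (mul_ne_zero hLc (hr0 y)))).const_mul (-I)).add ((hdq y).div_const ((L : ℂ) ^ 2)))
    have h2' : HasDerivAt Z _ y := h1
    refine h2'.congr_deriv ?_
    have h2 : r y ≠ 0 := hr0 y
    show ee y * (L * r y * I) * (-I * (b y / (L * r y)) + q y / (L : ℂ) ^ 2) +
      ee y * (-I * ((b1 y * (L * r y) - b y * (L * r1 y)) / (L * r y) ^ 2) + Q l y / (L : ℂ) ^ 2) = _
    have h3 : q y = (b1 y * r y - b y * r1 y) / r y ^ 3 := rfl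
    rw [h3]
    have hI : I ^ 2 = -1 := Complex.I_sq
    generalize r y = R at h2 ⊢
    generalize r1 y = R1
    generalize Q l y = QQ
    generalize ee y = ee'
    field_simp
    ring_nf
    rw [hI]
    ring
  have hcQ : Continuous (Q l) := by
    have c1 := hs1.continuous
    have c2 := hs2.continuous
    have c3 := hs3.continuous
    have d0 := hb.continuous
    have d1 := hb1.continuous
    have d2 := hb2.continuous
    apply Continuous.div
    · fun_prop
    · fun_prop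
    · intro y
      exact pow_ne_zero _ (hr0 y)
  have hce : Continuous ee := by
    have := hh.smooth.continuous
    show Continuous fun y => Complex.exp (((N : ℝ) * y + (m : ℝ) * h y : ℝ) * I)
    fun_prop
  have hcb := hb.continuous
  have hint : ∫ y in (0:ℝ)..(2 * Real.pi), (b y * ee y + Q l y * ee y / (L : ℂ) ^ 2) =
      Z (2 * Real.pi) - Z 0 := by
    apply intervalIntegral.integral_eq_sub_of_hasDerivAt (fun y _ => hdZ y)
    apply Continuous.intervalIntegrable
    fun_prop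
  have hZ : Z (2 * Real.pi) = Z 0 := by
    have e1 : b (2 * Real.pi) = b 0 := by have := bper 0; rwa [zero_add] at this
    have e2 : b1 (2 * Real.pi) = b1 0 := by
      have := per_deriv bper 0; rwa [zero_add] at this
    have e3 : k1 (2 * Real.pi) = k1 0 := by
      have := hh.per_deriv 0; rwa [zero_add] at this
    have e4 : k2 (2 * Real.pi) = k2 0 := by
      have := per_deriv (hh.per_deriv) 0; rwa [zero_add] at this
    have e5 : ee (2 * Real.pi) = ee 0 := by
      show Complex.exp _ = Complex.exp _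
      have h1 : h (2 * Real.pi) = 2 * Real.pi := by
        have := hh.per 0; rw [zero_add, hh.zero, zero_add] at this; exact this
      rw [h1, hh.zero, mul_zero, mul_zero, add_zero, Complex.ofReal_zero, zero_mul,
        Complex.exp_zero]
      rw [show (((N : ℝ) * (2 * Real.pi) + (m : ℝ) * (2 * Real.pi) : ℝ) : ℂ) * I =
        ((N + m : ℕ) : ℤ) * (2 * Real.pi * I) by push_cast; ring,
        Complex.exp_int_mul_two_pi_mul_I]
    show ee _ * (-I * (b _ / (L * ((l + (1 - l) * k1 _ : ℝ) : ℂ))) +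
      ((b1 _ * ((l + (1 - l) * k1 _ : ℝ) : ℂ) - b _ * (((1 - l) * k2 _ : ℝ) : ℂ)) /
        ((l + (1 - l) * k1 _ : ℝ) : ℂ) ^ 3) / (L : ℂ) ^ 2) = ee _ * (_ + _)
    rw [e1, e2, e3, e4, e5]
  rw [hZ, sub_self, intervalIntegral.integral_add] at hint
  rotate_left
  · apply Continuous.intervalIntegrable; fun_prop
  · apply Continuous.intervalIntegrable; fun_prop
  have h1 : ∫ y in (0:ℝ)..(2 * Real.pi), b y * ee y =
      -∫ y in (0:ℝ)..(2 * Real.pi), Q l y * ee y / (L : ℂ) ^ 2 := eq_neg_of_add_eq_zero_left hint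
  show ‖∫ y in (0:ℝ)..(2 * Real.pi), b y * ee y‖ ≤ _
  rw [h1, norm_neg]
  have h2 : ∀ y ∈ uIoc (0:ℝ) (2 * Real.pi), ‖Q l y * ee y / (L : ℂ) ^ 2‖ ≤ C / L ^ 2 := by
    intro y hy
    rw [uIoc_of_le (by positivity)] at hy
    rw [norm_div, norm_mul, norm_pow, Complex.norm_real, Real.norm_of_nonneg hL0.le]
    have : ‖ee y‖ = 1 := Complex.norm_exp_ofReal_mul_I _
    rw [this, mul_one]
    apply div_le_div_of_nonneg_right _ (by positivity)
    exact hC (l, y) ⟨hl01, ⟨hy.1.le, hy.2⟩⟩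
  refine (intervalIntegral.norm_integral_le_of_norm_le_const h2).trans ?_
  rw [sub_zero, abs_of_pos (by positivity : (0:ℝ) < 2 * Real.pi)]
  apply le_of_eq
  ring

/-- Fourier coefficient -/
def cf (F : ℝ → ℂ) (k : ℤ) : ℂ :=
  ((1 / (2 * Real.pi) : ℝ) : ℂ) * ∫ x in (0:ℝ)..(2 * Real.pi), E (-k) x * F x

lemma hasSum_E {F : ℝ → ℂ} (hF : Continuous F) (hper : ∀ y, F (y + 2 * Real.pi) = F y)
    (hs : Summable (cf F)) (x : ℝ) : HasSum (fun k => cf F k * E k x) (F x) := by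
  have hp : Function.Periodic F (2 * Real.pi) := hper
  have : Fact (0 < 2 * Real.pi) := ⟨by positivity⟩
  let G : C(AddCircle (2 * Real.pi), ℂ) := ⟨hp.lift, by
    refine continuous_coinduced_dom.mpr ?_
    exact hF⟩
  have hE : ∀ (k : ℤ) (x : ℝ), fourier k (x : AddCircle (2 * Real.pi)) = E k x := by
    intro k x
    rw [fourier_coe_apply]
    unfold E
    congr 1
    have : (Real.pi : ℂ) ≠ 0 := by exact_mod_cast Real.pi_ne_zero
    push_cast
    field_simp
  have hcf : ∀ k, fourierCoeff G k = cf F k := by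
    intro k
    rw [fourierCoeff_eq_intervalIntegral _ _ 0, zero_add, cf, Complex.real_smul]
    congr 1
    apply intervalIntegral.integral_congr
    intro y _
    show _ • G (y : AddCircle (2 * Real.pi)) = _
    rw [hE, smul_eq_mul]
    rfl
  have hs' : Summable (fourierCoeff G) := by
    have : fourierCoeff G = cf F := funext hcf
    rw [this]; exact hs
  have h1 := has_pointwise_sum_fourier_series_of_summable hs' (x : AddCircle (2 * Real.pi))
  simp only [hcf, hE, smul_eq_mul] at h1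
  exact h1

lemma St.strictMono {h : ℝ → ℝ} (hh : St h) : StrictMono h := strictMono_of_deriv_pos hh.pos

lemma St.per_nat {h : ℝ → ℝ} (hh : St h) (n : ℕ) (y : ℝ) :
    h (y + n * (2 * Real.pi)) = h y + n * (2 * Real.pi) := by
  induction n with
  | zero => simp
  | succ n ih =>
    rw [show y + ((n + 1 : ℕ) : ℝ) * (2 * Real.pi) = (y + n * (2 * Real.pi)) + 2 * Real.pi by
      push_cast; ring, hh.per, ih]
    push_cast; ring

lemma St.per_int {h : ℝ → ℝ} (hh : St h) (n : ℤ) (y : ℝ) :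
    h (y + n * (2 * Real.pi)) = h y + n * (2 * Real.pi) := by
  obtain ⟨m, rfl | rfl⟩ := n.eq_nat_or_neg
  · have := hh.per_nat m y
    exact_mod_cast this
  · have := hh.per_nat m (y + ((-(m : ℤ) : ℤ) : ℝ) * (2 * Real.pi))
    rw [show y + ((-(m : ℤ) : ℤ) : ℝ) * (2 * Real.pi) + m * (2 * Real.pi) = y by
      push_cast; ring] at this
    rw [this]; push_cast; ring

lemma St.int_mul {h : ℝ → ℝ} (hh : St h) (n : ℤ) : h (n * (2 * Real.pi)) = n * (2 * Real.pi) := by
  have := hh.per_int n 0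
  rw [zero_add, hh.zero, zero_add] at this
  exact this

lemma St.surj {h : ℝ → ℝ} (hh : St h) : Function.Surjective h := by
  have hp : (0:ℝ) < 2 * Real.pi := by positivity
  intro x
  obtain ⟨n, hn⟩ : ∃ n : ℤ, x ≤ n * (2 * Real.pi) := by
    refine ⟨⌈x / (2 * Real.pi)⌉, ?_⟩
    have := Int.le_ceil (x / (2 * Real.pi))
    rwa [div_le_iff₀ hp] at this
  obtain ⟨m, hm⟩ : ∃ m : ℤ, m * (2 * Real.pi) ≤ x := by
    refine ⟨⌊x / (2 * Real.pi)⌋, ?_⟩
    have := Int.floor_le (x / (2 * Real.pi))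
    rwa [le_div_iff₀ hp] at this
  have hmn : (m : ℝ) * (2 * Real.pi) ≤ n * (2 * Real.pi) := hm.trans hn
  have h1 := intermediate_value_Icc hmn hh.smooth.continuous.continuousOn
  rw [hh.int_mul, hh.int_mul] at h1
  obtain ⟨y, -, hy⟩ := h1 ⟨hm, hn⟩
  exact ⟨y, hy⟩

/-- the coefficients of `a(σ x) e^{iNσ(x)}`, where `σ` is the inverse of `h` -/
lemma cf_subst {h : ℝ → ℝ} (hh : St h) {s : ℝ → ℝ} (hs : Continuous s) (hsh : ∀ y, s (h y) = y)
    {a : ℝ → ℂ} (ha : Continuous a) (N k : ℤ) :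
    cf (fun x => a (s x) * E N (s x)) k = ((1 / (2 * Real.pi) : ℝ) : ℂ) *
      ∫ y in (0:ℝ)..(2 * Real.pi), (a y * ((deriv h y : ℝ) : ℂ)) *
        Complex.exp (((N : ℝ) * y + ((-k : ℤ) : ℝ) * h y : ℝ) * I) := by
  unfold cf
  congr 1
  have hc : Continuous fun x => E (-k) x * (a (s x) * E N (s x)) :=
    (continuous_E _).mul ((ha.comp hs).mul ((continuous_E _).comp hs))
  have h1 := intervalIntegral.integral_deriv_smul_comp (a := 0) (b := 2 * Real.pi)
    (f := h) (f' := deriv h) (g := fun x => E (-k) x * (a (s x) * E N (s x)))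
    (fun y _ => smooth_hasDerivAt hh.smooth y)
    (smooth_deriv hh.smooth).continuous.continuousOn hc
  have h2 : h (2 * Real.pi) = 2 * Real.pi := by
    have := hh.per 0; rw [zero_add, hh.zero, zero_add] at this; exact this
  rw [hh.zero, h2] at h1
  rw [← h1]
  apply intervalIntegral.integral_congr
  intro y _
  show deriv h y • (E (-k) (h y) * (a (s (h y)) * E N (s (h y)))) = _
  rw [hsh, Complex.real_smul]
  have : Complex.exp (((N : ℝ) * y + ((-k : ℤ) : ℝ) * h y : ℝ) * I) = E (-k) (h y) * E N y := by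
    unfold E
    rw [← Complex.exp_add]; congr 1; push_cast; ring
  show _ = a y * ((deriv h y : ℝ) : ℂ) *
        Complex.exp (((N : ℝ) * y + ((-k : ℤ) : ℝ) * h y : ℝ) * I)
  rw [this]; ring

lemma integral_conj' (a b : ℝ) (f : ℝ → ℂ) : ∫ x in a..b, (starRingEnd ℂ) (f x) =
    (starRingEnd ℂ) (∫ x in a..b, f x) := by
  rw [intervalIntegral, intervalIntegral, map_sub, integral_conj, integral_conj]

lemma hasSum_tail {f : ℤ → ℂ} {g : ℤ → ℝ} {a : ℂ} {b : ℝ} (hf : HasSum f a) (hg : HasSum g b)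
    (h : ∀ k, ‖f k‖ ≤ g k) (S : Finset ℤ) : ‖a - ∑ k ∈ S, f k‖ ≤ b - ∑ k ∈ S, g k := by
  have h1 : Tendsto (fun T : Finset ℤ => ‖∑ k ∈ T, f k - ∑ k ∈ S, f k‖) atTop
      (𝓝 ‖a - ∑ k ∈ S, f k‖) := (Tendsto.sub_const (hf : Tendsto _ _ _) _).norm
  have h2 : Tendsto (fun T : Finset ℤ => ∑ k ∈ T, g k - ∑ k ∈ S, g k) atTop
      (𝓝 (b - ∑ k ∈ S, g k)) := Tendsto.sub_const (hg : Tendsto _ _ _) _
  refine le_of_tendsto_of_tendsto h1 h2 ((eventually_ge_atTop S).mono ?_)
  intro T hT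
  show ‖∑ k ∈ T, f k - ∑ k ∈ S, f k‖ ≤ ∑ k ∈ T, g k - ∑ k ∈ S, g k
  rw [← Finset.sum_sdiff hT, ← Finset.sum_sdiff (f := g) hT, add_sub_cancel_right,
    add_sub_cancel_right]
  exact norm_sum_le_of_le _ fun k _ => h k

lemma sum_inv_sq (N : ℕ) (hN : 1 ≤ N) (n : ℕ) :
    ∑ m ∈ Finset.range n, 1 / (((N : ℝ) + 1) + m) ^ 2 ≤ 1 / (N : ℝ) - 1 / ((N : ℝ) + n) := by
  have hN' : (1:ℝ) ≤ N := by exact_mod_cast hN
  induction n with
  | zero => simp
  | succ n ih =>
    rw [Finset.sum_range_succ]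
    have hn : (0:ℝ) ≤ n := Nat.cast_nonneg n
    have h1 : 1 / (((N : ℝ) + 1) + n) ^ 2 ≤ 1 / ((N : ℝ) + n) - 1 / ((N : ℝ) + (n + 1 : ℕ)) := by
      push_cast
      rw [div_sub_div _ _ (by positivity) (by positivity), div_le_div_iff₀ (by positivity)
        (by positivity)]
      nlinarith
    linarith

/-- **Lemma B'** -/
lemma approx_pos {h : ℝ → ℝ} (hh : St h) {a : ℝ → ℂ} (ha : ContDiff ℝ ∞ a)
    (aper : ∀ y, a (y + 2 * Real.pi) = a y) {η : ℝ} (hη : 0 < η) :
    ∃ N₀ : ℕ, ∀ N : ℕ, N₀ ≤ N → ∃ T ∈ Ppos, ∀ y, ‖T (h y) - a y * E N y‖ ≤ η := by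
  have hbs : ContDiff ℝ ∞ fun y => a y * ((deriv h y : ℝ) : ℂ) :=
    ha.mul (Complex.ofRealCLM.contDiff.comp (smooth_deriv hh.smooth))
  have hbp : ∀ y, a (y + 2 * Real.pi) * ((deriv h (y + 2 * Real.pi) : ℝ) : ℂ) =
      a y * ((deriv h y : ℝ) : ℂ) := by
    intro y; rw [aper, hh.per_deriv]
  obtain ⟨C, hC0, hC⟩ := nsp hh hbs hbp
  obtain ⟨N₁, hN₁⟩ := exists_nat_ge (2 * C / η)
  refine ⟨N₁ + 2, ?_⟩
  intro N hN
  -- inverse
  let e := hh.strictMono.orderIsoOfSurjective h hh.surj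
  let s : ℝ → ℝ := e.symm
  have hsc : Continuous s := e.symm.continuous
  have hsh : ∀ y, s (h y) = y := fun y => e.symm_apply_apply y
  let F : ℝ → ℂ := fun x => a (s x) * E N (s x)
  have hFc : Continuous F := (ha.continuous.comp hsc).mul ((continuous_E _).comp hsc)
  have hsp : ∀ x, s (x + 2 * Real.pi) = s x + 2 * Real.pi := by
    intro x
    obtain ⟨y, rfl⟩ := hh.surj x
    rw [← hh.per, hsh, hsh]
  have hFp : ∀ y, F (y + 2 * Real.pi) = F y := by
    intro y
    show a (s (y + 2 * Real.pi)) * E N (s (y + 2 * Real.pi)) = a (s y) * E N (s y)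
    rw [hsp, aper, E_per]
  have hcf : ∀ k : ℤ, cf F k = _ := fun k => cf_subst hh hsc hsh ha.continuous N k
  have hpi1 : (1 / (2 * Real.pi) : ℝ) ≤ 1 := by
    rw [div_le_one (by positivity)]
    linarith [Real.pi_gt_three]
  have hpi0 : (0:ℝ) ≤ 1 / (2 * Real.pi) := by positivity
  -- nonpositive k
  have hneg : ∀ m : ℕ, ‖cf F (-(m : ℤ))‖ ≤ C / ((N : ℝ) + m) ^ 2 := by
    intro m
    rw [hcf, norm_mul, Complex.norm_real, Real.norm_of_nonneg hpi0]
    have h1 := hC N m (by omega)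
    have h2 : (∫ y in (0:ℝ)..(2 * Real.pi), a y * ((deriv h y : ℝ) : ℂ) *
        Complex.exp ((((N : ℤ) : ℝ) * y + ((-(-(m : ℤ)) : ℤ) : ℝ) * h y : ℝ) * I)) =
        ∫ y in (0:ℝ)..(2 * Real.pi), a y * ((deriv h y : ℝ) : ℂ) *
        Complex.exp (((N : ℝ) * y + (m : ℝ) * h y : ℝ) * I) := by
      simp only [neg_neg, Int.cast_natCast]
    rw [h2]
    calc _ ≤ 1 * (C / ((N : ℝ) + m) ^ 2) := by
          apply mul_le_mul hpi1 h1 (norm_nonneg _) zero_le_one
      _ = _ := one_mul _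
  -- positive k
  have hpos : ∃ C' : ℝ, ∀ m : ℕ, 1 ≤ m → ‖cf F (m : ℤ)‖ ≤ C' / (m : ℝ) ^ 2 := by
    have hcs : ContDiff ℝ ∞ fun y => (starRingEnd ℂ) (a y * ((deriv h y : ℝ) : ℂ) * E N y) :=
      (Complex.conjCLE.contDiff).comp (hbs.mul (contDiff_E N))
    obtain ⟨C', hC0', hC'⟩ := nsp hh hcs (by
      intro y; simp only [hbp, E_per])
    refine ⟨C', ?_⟩
    intro m hm
    rw [hcf, norm_mul, Complex.norm_real, Real.norm_of_nonneg hpi0]
    have h1 := hC' 0 m (by omega)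
    have h2 : (∫ y in (0:ℝ)..(2 * Real.pi), a y * ((deriv h y : ℝ) : ℂ) *
        Complex.exp ((((N : ℤ) : ℝ) * y + ((-(m : ℤ) : ℤ) : ℝ) * h y : ℝ) * I)) =
        (starRingEnd ℂ) (∫ y in (0:ℝ)..(2 * Real.pi),
          (starRingEnd ℂ) (a y * ((deriv h y : ℝ) : ℂ) * E N y) *
        Complex.exp ((((0 : ℕ) : ℝ) * y + (m : ℝ) * h y : ℝ) * I)) := by
      rw [← integral_conj']
      apply intervalIntegral.integral_congr
      intro y _
      have key : Complex.exp ((((N : ℤ) : ℝ) * y + ((-(m : ℤ) : ℤ) : ℝ) * h y : ℝ) * I) =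
          E N y * (starRingEnd ℂ) (Complex.exp ((((0 : ℕ) : ℝ) * y + (m : ℝ) * h y : ℝ) * I)) := by
        unfold E
        rw [← Complex.exp_conj, ← Complex.exp_add]
        congr 1
        simp only [map_mul, Complex.conj_ofReal, Complex.conj_I]
        push_cast
        ring
      show a y * ((deriv h y : ℝ) : ℂ) * Complex.exp _ = (starRingEnd ℂ) (_ * _)
      rw [key, map_mul, Complex.conj_conj]
      ring
    rw [h2, RCLike.norm_conj]
    calc _ ≤ 1 * (C' / ((((0:ℕ) : ℝ)) + m) ^ 2) := by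
          apply mul_le_mul hpi1 h1 (norm_nonneg _) zero_le_one
      _ = _ := by simp
  obtain ⟨C', hC'⟩ := hpos
  have hsum : Summable fun k => ‖cf F k‖ := by
    rw [summable_int_iff_summable_nat_and_neg]
    constructor
    · refine Summable.of_norm_bounded_eventually_nat (g := fun m : ℕ => C' * (1 / (m : ℝ) ^ 2))
        ((Real.summable_one_div_nat_pow.mpr (by norm_num)).mul_left _) ?_
      filter_upwards [eventually_ge_atTop 1] with m hm
      rw [norm_norm]
      have := hC' m hm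
      rwa [div_eq_mul_one_div] at this
    · refine Summable.of_norm_bounded_eventually_nat (g := fun m : ℕ => C * (1 / (m : ℝ) ^ 2))
        ((Real.summable_one_div_nat_pow.mpr (by norm_num)).mul_left _) ?_
      filter_upwards [eventually_ge_atTop 1] with m hm
      rw [norm_norm]
      refine (hneg m).trans ?_
      rw [div_eq_mul_one_div]
      apply mul_le_mul_of_nonneg_left _ hC0
      have : (1:ℝ) ≤ m := by exact_mod_cast hm
      apply one_div_le_one_div_of_le (by positivity)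
      apply pow_le_pow_left₀ (by positivity)
      linarith [(Nat.cast_nonneg N : (0:ℝ) ≤ N)]
  obtain ⟨b, hb⟩ := hsum
  have hF : ∀ x, HasSum (fun k => cf F k * E k x) (F x) := hasSum_E hFc hFp (Summable.of_norm ⟨b, hb⟩)
  obtain ⟨S, hS⟩ : ∃ S : Finset ℤ, b - ∑ k ∈ S, ‖cf F k‖ < η / 2 := by
    have h1 : ∀ᶠ S : Finset ℤ in atTop, b - η / 2 < ∑ k ∈ S, ‖cf F k‖ :=
      (hb : Tendsto _ _ _).eventually (lt_mem_nhds (by linarith))
    obtain ⟨S, hS⟩ := h1.exists
    exact ⟨S, by linarith⟩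
  have hneg2 : ∑ k ∈ S.filter (fun k => ¬ 1 ≤ k), ‖cf F k‖ ≤ η / 2 := by
    obtain ⟨n, hn⟩ : ∃ n : ℕ, S.filter (fun k => ¬ 1 ≤ k) ⊆
        (Finset.range n).image (fun m : ℕ => -(m : ℤ)) := by
      obtain ⟨n, hn⟩ : ∃ n : ℕ, ∀ k ∈ S, k.natAbs < n :=
        ⟨S.sup Int.natAbs + 1, fun k hk => Nat.lt_succ_of_le (Finset.le_sup hk)⟩
      refine ⟨n, ?_⟩
      intro k hk
      rw [Finset.mem_filter] at hk
      rw [Finset.mem_image]
      refine ⟨k.natAbs, Finset.mem_range.mpr (hn k hk.1), ?_⟩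
      omega
    have hN2 : 1 ≤ N - 1 := by omega
    have hN3 : ((N - 1 : ℕ) : ℝ) + 1 = N := by
      have : ((N - 1 + 1 : ℕ) : ℝ) = N := by congr 1; omega
      exact_mod_cast this
    calc ∑ k ∈ S.filter (fun k => ¬ 1 ≤ k), ‖cf F k‖
        ≤ ∑ k ∈ (Finset.range n).image (fun m : ℕ => -(m : ℤ)), ‖cf F k‖ :=
          Finset.sum_le_sum_of_subset_of_nonneg hn (fun _ _ _ => norm_nonneg _)
      _ = ∑ m ∈ Finset.range n, ‖cf F (-(m : ℤ))‖ := by
          rw [Finset.sum_image]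
          intro x _ y _ hxy
          simpa using hxy
      _ ≤ ∑ m ∈ Finset.range n, C * (1 / ((((N - 1 : ℕ) : ℝ) + 1) + m) ^ 2) := by
          apply Finset.sum_le_sum
          intro m _
          rw [hN3]
          exact (hneg m).trans (le_of_eq (by rw [div_eq_mul_one_div]))
      _ = C * ∑ m ∈ Finset.range n, 1 / ((((N - 1 : ℕ) : ℝ) + 1) + m) ^ 2 := by
          rw [Finset.mul_sum]
      _ ≤ C * (1 / ((N - 1 : ℕ) : ℝ)) := by
          apply mul_le_mul_of_nonneg_left _ hC0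
          refine (sum_inv_sq (N - 1) hN2 n).trans ?_
          have : (0:ℝ) ≤ 1 / (((N - 1 : ℕ) : ℝ) + n) := by positivity
          linarith
      _ ≤ η / 2 := by
          have h3 : 2 * C / η ≤ ((N - 1 : ℕ) : ℝ) := by
            refine hN₁.trans ?_
            exact_mod_cast (by omega : N₁ ≤ N - 1)
          have h4 : (0:ℝ) < ((N - 1 : ℕ) : ℝ) := by exact_mod_cast (by omega : 0 < N - 1)
          rw [div_le_iff₀ hη] at h3
          rw [mul_one_div, div_le_iff₀ h4]
          linarith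
  let T : ℝ → ℂ := fun x => ∑ k ∈ S.filter (fun k => 1 ≤ k), cf F k * E k x
  refine ⟨T, ?_, ?_⟩
  · have hT : T = ∑ k ∈ S.filter (fun k => 1 ≤ k), cf F k • E k := by
      funext x
      rw [Finset.sum_apply]
      rfl
    rw [hT]
    apply Submodule.sum_mem
    intro k hk
    apply Submodule.smul_mem
    apply Submodule.subset_span
    rw [Finset.mem_filter] at hk
    refine ⟨(k - 1).toNat, ?_⟩
    show E (((k - 1).toNat : ℤ) + 1) = E k
    congr 1
    omega
  · intro y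
    have hxF : F (h y) = a y * E N y := by
      show a (s (h y)) * E N (s (h y)) = _
      rw [hsh]
    rw [← hxF]
    have h1 := hasSum_tail (hF (h y)) hb (fun k => by
      rw [norm_mul, norm_E, mul_one]) S
    have h2 : ∑ k ∈ S, cf F k * E k (h y) = T (h y) +
        ∑ k ∈ S.filter (fun k => ¬ 1 ≤ k), cf F k * E k (h y) :=
      (Finset.sum_filter_add_sum_filter_not S _ _).symm
    have h3 : ‖∑ k ∈ S.filter (fun k => ¬ 1 ≤ k), cf F k * E k (h y)‖ ≤ η / 2 := by
      refine (norm_sum_le_of_le _ (fun k _ => ?_)).trans hneg2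
      rw [norm_mul, norm_E, mul_one]
    have h4 : T (h y) - F (h y) = -(F (h y) - ∑ k ∈ S, cf F k * E k (h y)) -
        ∑ k ∈ S.filter (fun k => ¬ 1 ≤ k), cf F k * E k (h y) := by
      rw [h2]; ring
    rw [h4]
    refine (norm_sub_le _ _).trans ?_
    rw [norm_neg]
    linarith

end

end Pool.Agent.Helper34.Weld
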