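import Pool.Agent.Helper34.Weld.Fou

set_option autoImplicit false

namespace Pool.Agent.Helper34.Weld

open Complex Set Filter Topology MeasureTheory
open scoped ContDiff

noncomputable section

lemma St_id : St (fun y => y) where
  smooth := contDiff_id
  per := fun y => rfl
  zero := rfl
  pos := fun y => by simp

lemma E_mul_nat (k : ℤ) (M : ℕ) (y : ℝ) : E k ((M : ℝ) * y) = E (k * M) y := by
  unfold E; congr 1; push_cast; ring

lemma conj_E (k : ℤ) (y : ℝ) : (starRingEnd ℂ) (E k y) = E (-k) y := by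
  unfold E
  rw [← Complex.exp_conj, map_mul, Complex.conj_ofReal, Complex.conj_I]
  congr 1; push_cast; ring

lemma approx_pos_span {h : ℝ → ℝ} (hh : St h) {a : ℝ → ℂ} (ha : ContDiff ℝ ∞ a)
    (aper : ∀ y, a (y + 2 * Real.pi) = a y) {F : ℝ → ℂ} (hF : F ∈ Ppos) :
    ∀ η : ℝ, 0 < η → ∃ M₀ : ℕ, ∀ M : ℕ, M₀ ≤ M → ∃ T ∈ Ppos,
      ∀ y, ‖T (h y) - a y * F ((M : ℝ) * y)‖ ≤ η := by
  unfold Ppos at hF
  induction hF using Submodule.span_induction with
  | mem F hF =>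
    obtain ⟨k, rfl⟩ := hF
    intro η hη
    obtain ⟨N₀, hN₀⟩ := approx_pos hh ha aper hη
    refine ⟨N₀, fun M hM => ?_⟩
    obtain ⟨T, hT, hT2⟩ := hN₀ ((k + 1) * M) (hM.trans (Nat.le_mul_of_pos_left _ (by omega)))
    refine ⟨T, hT, fun y => ?_⟩
    show ‖T (h y) - a y * E ((k : ℤ) + 1) ((M : ℝ) * y)‖ ≤ η
    rw [E_mul_nat]
    have := hT2 y
    push_cast at this
    exact this
  | zero =>
    intro η hη
    exact ⟨0, fun M _ => ⟨0, Submodule.zero_mem _, fun y => by simp [hη.le]⟩⟩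
  | add F G _ _ ihF ihG =>
    intro η hη
    obtain ⟨M₁, h₁⟩ := ihF (η / 2) (by positivity)
    obtain ⟨M₂, h₂⟩ := ihG (η / 2) (by positivity)
    refine ⟨max M₁ M₂, fun M hM => ?_⟩
    obtain ⟨T₁, hT₁, hT₁'⟩ := h₁ M ((le_max_left _ _).trans hM)
    obtain ⟨T₂, hT₂, hT₂'⟩ := h₂ M ((le_max_right _ _).trans hM)
    refine ⟨T₁ + T₂, Submodule.add_mem _ hT₁ hT₂, fun y => ?_⟩
    have : (T₁ + T₂) (h y) - a y * (F + G) ((M : ℝ) * y) =
        (T₁ (h y) - a y * F ((M : ℝ) * y)) + (T₂ (h y) - a y * G ((M : ℝ) * y)) := by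
      simp only [Pi.add_apply]; ring
    rw [this]
    refine (norm_add_le _ _).trans ?_
    linarith [hT₁' y, hT₂' y]
  | smul c F _ ihF =>
    intro η hη
    obtain ⟨M₁, h₁⟩ := ihF (η / (‖c‖ + 1)) (by positivity)
    refine ⟨M₁, fun M hM => ?_⟩
    obtain ⟨T₁, hT₁, hT₁'⟩ := h₁ M hM
    refine ⟨c • T₁, Submodule.smul_mem _ _ hT₁, fun y => ?_⟩
    have : (c • T₁) (h y) - a y * (c • F) ((M : ℝ) * y) =
        c * (T₁ (h y) - a y * F ((M : ℝ) * y)) := by
      simp only [Pi.smul_apply, smul_eq_mul]; ring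
    rw [this, norm_mul]
    calc ‖c‖ * ‖T₁ (h y) - a y * F ((M : ℝ) * y)‖ ≤ (‖c‖ + 1) * (η / (‖c‖ + 1)) := by
          apply mul_le_mul _ (hT₁' y) (norm_nonneg _) (by positivity)
          linarith
      _ = η := by field_simp

lemma conj_mem_neg {T : ℝ → ℂ} (hT : T ∈ Ppos) : (fun x => (starRingEnd ℂ) (T x)) ∈ Pneg := by
  unfold Ppos at hT
  induction hT using Submodule.span_induction with
  | mem F hF =>
    obtain ⟨k, rfl⟩ := hF
    apply Submodule.subset_span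
    refine ⟨k, ?_⟩
    funext x
    exact (conj_E _ _).symm
  | zero => simp only [Pi.zero_apply, map_zero]; exact Submodule.zero_mem _
  | add F G _ _ ihF ihG =>
    simp only [Pi.add_apply, map_add]
    exact Submodule.add_mem _ ihF ihG
  | smul c F _ ihF =>
    simp only [Pi.smul_apply, smul_eq_mul, map_mul]
    exact Submodule.smul_mem _ _ ihF

lemma conj_mem_pos {T : ℝ → ℂ} (hT : T ∈ Pneg) : (fun x => (starRingEnd ℂ) (T x)) ∈ Ppos := by
  unfold Pneg at hT
  induction hT using Submodule.span_induction with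
  | mem F hF =>
    obtain ⟨k, rfl⟩ := hF
    apply Submodule.subset_span
    refine ⟨k, ?_⟩
    funext x
    show _ = (starRingEnd ℂ) (E (-((k:ℤ)+1)) x)
    rw [conj_E, neg_neg]
  | zero => simp only [Pi.zero_apply, map_zero]; exact Submodule.zero_mem _
  | add F G _ _ ihF ihG =>
    simp only [Pi.add_apply, map_add]
    exact Submodule.add_mem _ ihF ihG
  | smul c F _ ihF =>
    simp only [Pi.smul_apply, smul_eq_mul, map_mul]
    exact Submodule.smul_mem _ _ ihF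

lemma approx_neg_span {a : ℝ → ℂ} (ha : ContDiff ℝ ∞ a)
    (aper : ∀ y, a (y + 2 * Real.pi) = a y) {F : ℝ → ℂ} (hF : F ∈ Pneg) {η : ℝ} (hη : 0 < η) :
    ∃ M₀ : ℕ, ∀ M : ℕ, M₀ ≤ M → ∃ T ∈ Pneg,
      ∀ y, ‖T y - a y * F ((M : ℝ) * y)‖ ≤ η := by
  have hc : ContDiff ℝ ∞ fun y => (starRingEnd ℂ) (a y) :=
    (Complex.conjCLE.contDiff).comp ha
  obtain ⟨M₀, hM₀⟩ := approx_pos_span St_id hc (fun y => by rw [aper]) (conj_mem_pos hF) η hη
  refine ⟨M₀, fun M hM => ?_⟩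
  obtain ⟨T, hT, hT'⟩ := hM₀ M hM
  refine ⟨_, conj_mem_neg hT, fun y => ?_⟩
  have : (starRingEnd ℂ) (T y) - a y * F ((M : ℝ) * y) =
      (starRingEnd ℂ) (T y - (starRingEnd ℂ) (a y) * (starRingEnd ℂ) (F ((M : ℝ) * y))) := by
    simp only [map_sub, map_mul, Complex.conj_conj]
  rw [this, RCLike.norm_conj]
  exact hT' y

lemma integral_E {k : ℤ} (hk : k ≠ 0) : ∫ x in (0:ℝ)..(2 * Real.pi), E k x = 0 := by
  have hk' : (k : ℂ) ≠ 0 := by exact_mod_cast hk
  have h1 : ∀ x : ℝ, HasDerivAt (fun x => E k x / (k * I)) (E k x) x := by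
    intro x
    have h2 : HasDerivAt (fun x : ℝ => (((k : ℝ) * x : ℝ) : ℂ) * I) ((((k : ℝ) * 1 : ℝ) : ℂ) * I) x :=
      (((hasDerivAt_id x).const_mul (k : ℝ)).ofReal_comp).mul_const I
    have h3 := h2.cexp.div_const (k * I)
    refine HasDerivAt.congr_deriv h3 ?_
    show E k x * _ / _ = _
    have := Complex.I_ne_zero
    push_cast
    field_simp
  rw [intervalIntegral.integral_eq_sub_of_hasDerivAt (fun x _ => h1 x)
    ((continuous_E k).intervalIntegrable _ _)]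
  have := E_per k 0
  rw [zero_add] at this
  rw [this, sub_self]

structure TP (T : ℝ → ℂ) : Prop where
  smooth : ContDiff ℝ ∞ T
  per : ∀ y, T (y + 2 * Real.pi) = T y
  mean : ∫ x in (0:ℝ)..(2 * Real.pi), T x = 0

lemma tp_span {s : ℕ → ℤ} (hs : ∀ k, s k ≠ 0) {T : ℝ → ℂ}
    (hT : T ∈ Submodule.span ℂ (Set.range fun k : ℕ => E (s k))) : TP T := by
  induction hT using Submodule.span_induction with
  | mem F hF =>
    obtain ⟨k, rfl⟩ := hF
    exact ⟨contDiff_E _, E_per _, integral_E (hs k)⟩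
  | zero => exact ⟨contDiff_const, fun _ => rfl, by simp⟩
  | add F G _ _ ihF ihG =>
    refine ⟨ihF.smooth.add ihG.smooth, fun y => ?_, ?_⟩
    · simp only [Pi.add_apply, ihF.per, ihG.per]
    · simp only [Pi.add_apply]
      rw [intervalIntegral.integral_add (ihF.smooth.continuous.intervalIntegrable _ _)
        (ihG.smooth.continuous.intervalIntegrable _ _), ihF.mean, ihG.mean, add_zero]
  | smul c F _ ihF =>
    refine ⟨contDiff_const.smul ihF.smooth, fun y => ?_, ?_⟩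
    · simp only [Pi.smul_apply, ihF.per]
    · simp only [Pi.smul_apply]
      rw [intervalIntegral.integral_smul, ihF.mean, smul_zero]

lemma tp_pos {T : ℝ → ℂ} (hT : T ∈ Ppos) : TP T := tp_span (fun k => by omega) hT

lemma tp_neg {T : ℝ → ℂ} (hT : T ∈ Pneg) : TP T := tp_span (fun k => by omega) hT

lemma cf_summable {a : ℝ → ℂ} (ha : ContDiff ℝ ∞ a) (aper : ∀ y, a (y + 2 * Real.pi) = a y) :
    Summable fun k => ‖cf a k‖ := by
  have hpi1 : (1 / (2 * Real.pi) : ℝ) ≤ 1 := by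
    rw [div_le_one (by positivity)]
    linarith [Real.pi_gt_three]
  have hpi0 : (0:ℝ) ≤ 1 / (2 * Real.pi) := by positivity
  have key : ∀ b : ℝ → ℂ, ContDiff ℝ ∞ b → (∀ y, b (y + 2 * Real.pi) = b y) →
      ∃ C : ℝ, 0 ≤ C ∧ ∀ m : ℕ, 1 ≤ m → ‖cf b (-(m : ℤ))‖ ≤ C * (1 / (m : ℝ) ^ 2) := by
    intro b hb bper
    obtain ⟨C, hC0, hC⟩ := nsp St_id hb bper
    refine ⟨C, hC0, fun m hm => ?_⟩
    have h1 := hC m 0 (by omega)
    unfold cf
    rw [norm_mul, Complex.norm_real, Real.norm_of_nonneg hpi0]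
    have h2 : (∫ x in (0:ℝ)..(2 * Real.pi), E (-(-(m : ℤ))) x * b x) =
        ∫ y in (0:ℝ)..(2 * Real.pi), b y *
        Complex.exp (((m : ℝ) * y + ((0 : ℕ) : ℝ) * y : ℝ) * I) := by
      apply intervalIntegral.integral_congr
      intro y _
      show E (-(-(m : ℤ))) y * b y = b y * Complex.exp (((m : ℝ) * y + ((0 : ℕ) : ℝ) * y : ℝ) * I)
      unfold E
      rw [mul_comm]
      congr 2
      push_cast
      ring
    rw [h2]
    calc _ ≤ 1 * (C / ((m : ℝ) + (0 : ℕ)) ^ 2) := by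
          apply mul_le_mul hpi1 h1 (norm_nonneg _) zero_le_one
      _ = _ := by rw [one_mul, Nat.cast_zero, add_zero, div_eq_mul_one_div]
  have hcs : ContDiff ℝ ∞ fun y => (starRingEnd ℂ) (a y) := (Complex.conjCLE.contDiff).comp ha
  have hconj : ∀ k : ℤ, ‖cf a k‖ = ‖cf (fun y => (starRingEnd ℂ) (a y)) (-k)‖ := by
    intro k
    unfold cf
    rw [norm_mul, norm_mul]
    congr 1
    rw [← RCLike.norm_conj, ← integral_conj']
    congr 1
    apply intervalIntegral.integral_congr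
    intro y _
    show (starRingEnd ℂ) (E (-k) y * a y) = E (-(-k)) y * (starRingEnd ℂ) (a y)
    rw [map_mul, conj_E]
  obtain ⟨C₁, h1, hC₁⟩ := key a ha aper
  obtain ⟨C₂, h2, hC₂⟩ := key _ hcs (fun y => by rw [aper])
  rw [summable_int_iff_summable_nat_and_neg]
  constructor
  · refine Summable.of_norm_bounded_eventually_nat (g := fun m : ℕ => C₂ * (1 / (m : ℝ) ^ 2))
      ((Real.summable_one_div_nat_pow.mpr (by norm_num)).mul_left _) ?_
    filter_upwards [eventually_ge_atTop 1] with m hm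
    rw [norm_norm, hconj]
    exact hC₂ m hm
  · refine Summable.of_norm_bounded_eventually_nat (g := fun m : ℕ => C₁ * (1 / (m : ℝ) ^ 2))
      ((Real.summable_one_div_nat_pow.mpr (by norm_num)).mul_left _) ?_
    filter_upwards [eventually_ge_atTop 1] with m hm
    rw [norm_norm]
    exact hC₁ m hm

/-- **Lemma F** -/
lemma fourier_split {a : ℝ → ℂ} (ha : ContDiff ℝ ∞ a) (aper : ∀ y, a (y + 2 * Real.pi) = a y) :
    ∃ B : ℝ, 0 ≤ B ∧ ∀ η : ℝ, 0 < η → ∃ V₁ ∈ Ppos, ∃ V₂ ∈ Pneg,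
      (∀ y, ‖V₁ y‖ ≤ B) ∧ (∀ y, ‖V₂ y‖ ≤ B) ∧ ∀ y, ‖a y - cf a 0 - V₁ y - V₂ y‖ ≤ η := by
  obtain ⟨b, hb⟩ := cf_summable ha aper
  have hF : ∀ x, HasSum (fun k => cf a k * E k x) (a x) :=
    hasSum_E ha.continuous aper (Summable.of_norm ⟨b, hb⟩)
  have hbS : ∀ S : Finset ℤ, ∑ k ∈ S, ‖cf a k‖ ≤ b := fun S =>
    sum_le_hasSum S (fun _ _ => norm_nonneg _) hb
  have hb0 : 0 ≤ b := by simpa using hbS ∅
  refine ⟨b, hb0, fun η hη => ?_⟩
  obtain ⟨S, hS⟩ : ∃ S : Finset ℤ, b - ∑ k ∈ S, ‖cf a k‖ < η := by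
    have h1 : ∀ᶠ S : Finset ℤ in atTop, b - η < ∑ k ∈ S, ‖cf a k‖ :=
      (hb : Tendsto _ _ _).eventually (lt_mem_nhds (by linarith))
    obtain ⟨S, hS⟩ := h1.exists
    exact ⟨S, by linarith⟩
  have hS' : b - ∑ k ∈ insert 0 S, ‖cf a k‖ < η := by
    refine lt_of_le_of_lt ?_ hS
    have := Finset.sum_le_sum_of_subset_of_nonneg (f := fun k => ‖cf a k‖)
      (Finset.subset_insert 0 S) (fun _ _ _ => norm_nonneg _)
    linarith
  set R := insert 0 S with hR
  have hmem : ∀ (R' : Finset ℤ) (x : ℝ), ‖∑ k ∈ R', cf a k * E k x‖ ≤ b := by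
    intro R' x
    refine (norm_sum_le_of_le _ (fun k _ => ?_)).trans (hbS R')
    rw [norm_mul, norm_E, mul_one]
  refine ⟨fun x => ∑ k ∈ R.filter (fun k => 1 ≤ k), cf a k * E k x, ?_,
    fun x => ∑ k ∈ R.filter (fun k => k ≤ -1), cf a k * E k x, ?_, hmem _, hmem _, ?_⟩
  · have hT : (fun x => ∑ k ∈ R.filter (fun k => 1 ≤ k), cf a k * E k x) =
        ∑ k ∈ R.filter (fun k => 1 ≤ k), cf a k • E k := by
      funext x
      rw [Finset.sum_apply]
      rfl
    rw [hT]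
    apply Submodule.sum_mem
    intro k hk
    apply Submodule.smul_mem
    apply Submodule.subset_span
    rw [Finset.mem_filter] at hk
    refine ⟨(k - 1).toNat, ?_⟩
    show E (((k - 1).toNat : ℤ) + 1) = E k
    congr 1
    omega
  · have hT : (fun x => ∑ k ∈ R.filter (fun k => k ≤ -1), cf a k * E k x) =
        ∑ k ∈ R.filter (fun k => k ≤ -1), cf a k • E k := by
      funext x
      rw [Finset.sum_apply]
      rfl
    rw [hT]
    apply Submodule.sum_mem
    intro k hk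
    apply Submodule.smul_mem
    apply Submodule.subset_span
    rw [Finset.mem_filter] at hk
    refine ⟨(-k - 1).toNat, ?_⟩
    show E (-(((-k - 1).toNat : ℤ) + 1)) = E k
    congr 1
    omega
  · intro y
    have h1 := hasSum_tail (hF y) hb (fun k => by rw [norm_mul, norm_E, mul_one]) R
    have h2 : ∑ k ∈ R, cf a k * E k y = cf a 0 + ∑ k ∈ R.filter (fun k => 1 ≤ k), cf a k * E k y +
        ∑ k ∈ R.filter (fun k => k ≤ -1), cf a k * E k y := by
      rw [← Finset.sum_filter_add_sum_filter_not R (fun k => 1 ≤ k)]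
      rw [← Finset.sum_filter_add_sum_filter_not (R.filter (fun k => ¬ 1 ≤ k)) (fun k => k ≤ -1)]
      have h3 : (R.filter (fun k => ¬ 1 ≤ k)).filter (fun k => k ≤ -1) =
          R.filter (fun k => k ≤ -1) := by
        ext k; simp only [Finset.mem_filter]; constructor
        · rintro ⟨⟨h1, _⟩, h2⟩; exact ⟨h1, h2⟩
        · rintro ⟨h1, h2⟩; exact ⟨⟨h1, by omega⟩, h2⟩
      have h4 : (R.filter (fun k => ¬ 1 ≤ k)).filter (fun k => ¬ k ≤ -1) = {0} := by
        ext k; simp only [Finset.mem_filter, Finset.mem_singleton]; constructor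
        · rintro ⟨⟨h1, _⟩, h2⟩; omega
        · rintro rfl; exact ⟨⟨by rw [hR]; exact Finset.mem_insert_self _ _, by omega⟩, by omega⟩
      rw [h3, h4, Finset.sum_singleton, E_zero, mul_one]
      ring
    rw [h2] at h1
    have h5 : a y - cf a 0 - ∑ k ∈ R.filter (fun k => 1 ≤ k), cf a k * E k y -
        ∑ k ∈ R.filter (fun k => k ≤ -1), cf a k * E k y =
        a y - (cf a 0 + ∑ k ∈ R.filter (fun k => 1 ≤ k), cf a k * E k y +
        ∑ k ∈ R.filter (fun k => k ≤ -1), cf a k * E k y) := by ring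
    rw [h5]
    linarith

end

end Pool.Agent.Helper34.Weld
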