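import Pool.Agent.Helper34.Weld.Base

set_option autoImplicit false

namespace Pool.Agent.Helper34.Weld

open Complex Set Filter Topology MeasureTheory
open scoped ContDiff Classical

noncomputable section

/-- the cell index of `y` in the grid of step `2π/M` -/
def ci (M : ℕ) (y : ℝ) : ℤ := ⌊(M : ℝ) * y / (2 * Real.pi)⌋

/-- implant of `Γ` in the cells selected by `p` -/
def Gm (Γ : ℝ → ℝ) (p : ℤ → Prop) (M : ℕ) (y : ℝ) : ℝ :=
  if p (ci M y) then Γ (M * y) / M else y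

/-- the branch function -/
def Br (Γ : ℝ → ℝ) (P : Prop) (M : ℕ) (y : ℝ) : ℝ := if P then Γ (M * y) / M else y

structure Flat (Γ : ℝ → ℝ) (δ : ℝ) : Prop where
  pos : 0 < δ
  flat : ∀ y, |y| ≤ δ → Γ y = y

lemma Flat.int {Γ : ℝ → ℝ} {δ : ℝ} (hf : Flat Γ δ) (hΓ : St Γ) (n : ℤ) {y : ℝ}
    (hy : |y - n * (2 * Real.pi)| ≤ δ) : Γ y = y := by
  have h1 := hΓ.per_int n (y - n * (2 * Real.pi))
  rw [sub_add_cancel, hf.flat _ hy] at h1
  linarith

lemma ci_le {M : ℕ} (_hM : 1 ≤ M) (y : ℝ) : (ci M y : ℝ) * (2 * Real.pi) ≤ M * y := by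
  have := Int.floor_le ((M : ℝ) * y / (2 * Real.pi))
  rwa [le_div_iff₀ (by positivity)] at this

lemma lt_ci {M : ℕ} (_hM : 1 ≤ M) (y : ℝ) : M * y < ((ci M y : ℝ) + 1) * (2 * Real.pi) := by
  have := Int.lt_floor_add_one ((M : ℝ) * y / (2 * Real.pi))
  rwa [div_lt_iff₀ (by positivity)] at this

lemma ci_eq {M : ℕ} {n : ℤ} {y : ℝ} (h1 : (n : ℝ) * (2 * Real.pi) ≤ M * y)
    (h2 : M * y < ((n : ℝ) + 1) * (2 * Real.pi)) : ci M y = n := by
  unfold ci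
  rw [Int.floor_eq_iff]
  constructor
  · rwa [le_div_iff₀ (by positivity)]
  · rwa [div_lt_iff₀ (by positivity)]

lemma Gm_local {Γ : ℝ → ℝ} {δ : ℝ} (hf : Flat Γ δ) (hΓ : St Γ) (p : ℤ → Prop) {M : ℕ} (hM : 1 ≤ M)
    (y : ℝ) : Gm Γ p M =ᶠ[𝓝 y] Br Γ (p (ci M y)) M := by
  have hM0 : (0:ℝ) < M := by exact_mod_cast hM
  rcases eq_or_lt_of_le (ci_le hM y) with h | h
  · -- grid point
    have h1 : ∀ᶠ z in 𝓝 y, |M * z - ci M y * (2 * Real.pi)| < δ := by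
      have hc : Continuous fun z : ℝ => |M * z - ci M y * (2 * Real.pi)| := by fun_prop
      apply hc.continuousAt.eventually (gt_mem_nhds _)
      show |M * y - ci M y * (2 * Real.pi)| < δ
      rw [h, sub_self, abs_zero]
      exact hf.pos
    filter_upwards [h1] with z hz
    have h2 : Γ (M * z) = M * z := hf.int hΓ _ hz.le
    have h3 : Γ (M * z) / M = z := by rw [h2]; field_simp
    unfold Gm Br
    rw [h3]
    simp
  · have h1 : ∀ᶠ z in 𝓝 y, (ci M y : ℝ) * (2 * Real.pi) < M * z := by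
      have hc : Continuous fun z : ℝ => (M : ℝ) * z := by fun_prop
      exact hc.continuousAt.eventually (lt_mem_nhds h)
    have h2 : ∀ᶠ z in 𝓝 y, M * z < ((ci M y : ℝ) + 1) * (2 * Real.pi) := by
      have hc : Continuous fun z : ℝ => (M : ℝ) * z := by fun_prop
      exact hc.continuousAt.eventually (gt_mem_nhds (lt_ci hM y))
    filter_upwards [h1, h2] with z h1z h2z
    have : ci M z = ci M y := ci_eq h1z.le h2z
    unfold Gm Br
    rw [this]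

lemma Br_smooth {Γ : ℝ → ℝ} (hΓ : St Γ) (P : Prop) (M : ℕ) : ContDiff ℝ ∞ (Br Γ P M) := by
  unfold Br
  by_cases h : P
  · simp only [h, if_true]
    exact (hΓ.smooth.comp (contDiff_const.mul contDiff_id)).div_const _
  · simp only [h, if_false]
    exact contDiff_id

lemma Br_hasDeriv {Γ : ℝ → ℝ} (hΓ : St Γ) (P : Prop) {M : ℕ} (hM : 1 ≤ M) (y : ℝ) :
    HasDerivAt (Br Γ P M) (if P then deriv Γ (M * y) else 1) y := by
  have hM0 : (0:ℝ) < M := by exact_mod_cast hM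
  unfold Br
  by_cases h : P
  · simp only [h, if_true]
    have h1 : HasDerivAt (fun z : ℝ => (M : ℝ) * z) ((M : ℝ) * 1) y :=
      (hasDerivAt_id y).const_mul _
    have h2 := ((smooth_hasDerivAt hΓ.smooth (M * y)).comp y h1).div_const (M : ℝ)
    refine HasDerivAt.congr_deriv h2 ?_
    field_simp
  · simp only [h, if_false]
    exact hasDerivAt_id y

lemma Gm_smooth {Γ : ℝ → ℝ} {δ : ℝ} (hf : Flat Γ δ) (hΓ : St Γ) (p : ℤ → Prop) {M : ℕ}
    (hM : 1 ≤ M) : ContDiff ℝ ∞ (Gm Γ p M) := by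
  rw [contDiff_iff_contDiffAt]
  intro y
  exact (Br_smooth hΓ _ M).contDiffAt.congr_of_eventuallyEq (Gm_local hf hΓ p hM y)

lemma Gm_hasDeriv {Γ : ℝ → ℝ} {δ : ℝ} (hf : Flat Γ δ) (hΓ : St Γ) (p : ℤ → Prop) {M : ℕ}
    (hM : 1 ≤ M) (y : ℝ) :
    HasDerivAt (Gm Γ p M) (if p (ci M y) then deriv Γ (M * y) else 1) y :=
  (Br_hasDeriv hΓ _ hM y).congr_of_eventuallyEq (Gm_local hf hΓ p hM y)

lemma Gm_deriv_pos {Γ : ℝ → ℝ} {δ : ℝ} (hf : Flat Γ δ) (hΓ : St Γ) (p : ℤ → Prop) {M : ℕ}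
    (hM : 1 ≤ M) (y : ℝ) : 0 < deriv (Gm Γ p M) y := by
  rw [(Gm_hasDeriv hf hΓ p hM y).deriv]
  split_ifs
  · exact hΓ.pos _
  · exact one_pos

lemma St.mem_cell {Γ : ℝ → ℝ} (hΓ : St Γ) {n : ℤ} {x : ℝ} (h1 : (n : ℝ) * (2 * Real.pi) ≤ x)
    (h2 : x ≤ ((n : ℝ) + 1) * (2 * Real.pi)) :
    (n : ℝ) * (2 * Real.pi) ≤ Γ x ∧ Γ x ≤ ((n : ℝ) + 1) * (2 * Real.pi) := by
  have e1 := hΓ.int_mul n
  have e2 := hΓ.int_mul (n + 1)
  push_cast at e2
  constructor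
  · rw [← e1]; exact hΓ.strictMono.monotone h1
  · rw [← e2]; exact hΓ.strictMono.monotone h2

/-- `Γ` moves points by at most `2π` -/
lemma St.sub_le {Γ : ℝ → ℝ} (hΓ : St Γ) (x : ℝ) : |Γ x - x| ≤ 2 * Real.pi := by
  have h1 := ci_le (M := 1) le_rfl x
  have h2 := lt_ci (M := 1) le_rfl x
  rw [Nat.cast_one, one_mul] at h1 h2
  obtain ⟨h3, h4⟩ := hΓ.mem_cell h1 h2.le
  rw [abs_le]
  constructor <;> nlinarith

lemma Gm_cell {Γ : ℝ → ℝ} (hΓ : St Γ) (p : ℤ → Prop) {M : ℕ} (hM : 1 ≤ M) (y : ℝ) :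
    (ci M y : ℝ) * (2 * Real.pi) ≤ M * Gm Γ p M y ∧
      M * Gm Γ p M y ≤ ((ci M y : ℝ) + 1) * (2 * Real.pi) := by
  have hM0 : (0:ℝ) < M := by exact_mod_cast hM
  have h1 := ci_le hM y
  have h2 := lt_ci hM y
  unfold Gm
  split_ifs
  · have : (M : ℝ) * (Γ (M * y) / M) = Γ (M * y) := by field_simp
    rw [this]
    exact hΓ.mem_cell h1 h2.le
  · exact ⟨h1, h2.le⟩

lemma Gm_sub_le {Γ : ℝ → ℝ} (hΓ : St Γ) (p : ℤ → Prop) {M : ℕ} (hM : 1 ≤ M) (y : ℝ) :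
    |Gm Γ p M y - y| ≤ 2 * Real.pi / M := by
  have hM0 : (0:ℝ) < M := by exact_mod_cast hM
  obtain ⟨h3, h4⟩ := Gm_cell hΓ p hM y
  have h1 := ci_le hM y
  have h2 := lt_ci hM y
  rw [abs_le, neg_le_iff_add_nonneg, ← sub_nonneg (b := Gm Γ p M y - y)]
  constructor
  · have : 0 ≤ (M : ℝ) * (Gm Γ p M y - y + 2 * Real.pi / M) := by
      rw [mul_add, mul_div_cancel₀ _ hM0.ne', mul_sub]; linarith
    exact nonneg_of_mul_nonneg_right this hM0
  · have : 0 ≤ (M : ℝ) * (2 * Real.pi / M - (Gm Γ p M y - y)) := by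
      rw [mul_sub, mul_div_cancel₀ _ hM0.ne', mul_sub]; linarith
    exact nonneg_of_mul_nonneg_right this hM0

lemma ci_add {M : ℕ} (y : ℝ) : ci M (y + 2 * Real.pi) = ci M y + M := by
  unfold ci
  rw [show (M : ℝ) * (y + 2 * Real.pi) / (2 * Real.pi) = M * y / (2 * Real.pi) + (M : ℤ) by
    have := Real.pi_ne_zero
    field_simp
    push_cast
    ring]
  exact Int.floor_add_intCast _ _

lemma Gm_st {Γ : ℝ → ℝ} {δ : ℝ} (hf : Flat Γ δ) (hΓ : St Γ) (p : ℤ → Prop) {M : ℕ}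
    (hM : 1 ≤ M) (hp : ∀ n, p (n + M) ↔ p n) : St (Gm Γ p M) where
  smooth := Gm_smooth hf hΓ p hM
  pos := Gm_deriv_pos hf hΓ p hM
  zero := by
    unfold Gm
    rw [mul_zero, hΓ.zero]; simp
  per := by
    intro y
    have hM0 : (0:ℝ) < M := by exact_mod_cast hM
    unfold Gm
    rw [ci_add]
    simp only [hp]
    split_ifs
    · have := hΓ.per_nat M (M * y)
      rw [show (M : ℝ) * (y + 2 * Real.pi) = M * y + M * (2 * Real.pi) by ring, this]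
      field_simp
    · rfl

end

end Pool.Agent.Helper34.Weld
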