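import Pool.Agent.Helper34.Weld.Rh4

set_option autoImplicit false

namespace Pool.Agent.Helper34.Weld

open Complex Set Filter Topology MeasureTheory
open scoped ContDiff Classical

noncomputable section

/-- the defect `u = P ∘ h + 1 - V` -/
def uu (h : ℝ → ℝ) (P V : ℝ → ℂ) (y : ℝ) : ℂ := P (h y) + 1 - V y

lemma uu_smooth {h : ℝ → ℝ} (hh : St h) {P V : ℝ → ℂ} (hP : P ∈ Ppos) (hV : V ∈ Pneg) :
    ContDiff ℝ ∞ (uu h P V) :=
  (((tp_pos hP).smooth.comp hh.smooth).add contDiff_const).sub (tp_neg hV).smooth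

lemma uu_per {h : ℝ → ℝ} (hh : St h) {P V : ℝ → ℂ} (hP : P ∈ Ppos) (hV : V ∈ Pneg) (y : ℝ) :
    uu h P V (y + 2 * Real.pi) = uu h P V y := by
  unfold uu
  rw [hh.per, (tp_pos hP).per, (tp_neg hV).per]

theorem implant_approx {h : ℝ → ℝ} (hh : St h) {P V : ℝ → ℂ} (hP : P ∈ Ppos) (hV : V ∈ Pneg)
    {Γ : ℝ → ℝ} (hΓ : St Γ) {FP FV : ℝ → ℂ} (hFP : FP ∈ Ppos)
    (hFV : FV ∈ Pneg) {μ m K : ℝ} (hμ : ∀ y, ‖uu h P V y‖ ≤ μ) (hm : ∀ y, ‖uu Γ FP FV y‖ ≤ m)
    (hKP : ∀ y, ‖FP y‖ ≤ K) (hKV : ∀ y, ‖FV y‖ ≤ K) {θ : ℝ} (hθ : 0 < θ) :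
    ∃ M₀ : ℕ, ∀ M : ℕ, M₀ ≤ M → 1 ≤ M → ∃ P' ∈ Ppos, ∃ V' ∈ Pneg,
      (∀ y, ‖P' y - P y‖ ≤ μ * K + θ) ∧ (∀ y, ‖V' y - V y‖ ≤ μ * K + θ) ∧
      ∀ (p : ℤ → Prop) (η₀ : ℝ), (∀ y, ¬ p (ci M y) → ‖uu h P V y‖ ≤ η₀) →
        ∀ y, ‖uu (fun y => h (Gm Γ p M y)) P' V' y‖ ≤ max (μ * m) ((1 + 2 * K) * η₀) + θ := by
  have hK0 : 0 ≤ K := (norm_nonneg _).trans (hKP 0)
  have hμ0 : 0 ≤ μ := (norm_nonneg _).trans (hμ 0)
  have hm0 : 0 ≤ m := (norm_nonneg _).trans (hm 0)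
  set η := θ / (4 * (K + 1)) with hη
  have hη0 : 0 < η := by positivity
  have hη1 : 4 * ((K + 1) * η) = θ := by rw [hη]; field_simp
  have hus := uu_smooth hh hP hV
  have hup := uu_per hh hP hV
  have hPh : Continuous fun y => P (h y) := (tp_pos hP).smooth.continuous.comp hh.smooth.continuous
  obtain ⟨r₁, hr₁, hu₁⟩ := per_unif hPh (fun y => by rw [hh.per, (tp_pos hP).per]) hη0
  obtain ⟨r₂, hr₂, hu₂⟩ := per_unif hus.continuous hup hη0
  obtain ⟨M₁, -, hM₁⟩ := exists_M (lt_min hr₁ hr₂)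
  obtain ⟨M₂, hM₂⟩ := approx_pos_span hh hus hup hFP η hη0
  obtain ⟨M₃, hM₃⟩ := approx_neg_span hus hup hFV hη0
  refine ⟨max M₁ (max M₂ M₃), fun M hM hM1 => ?_⟩
  have hMr := hM₁ M ((le_max_left _ _).trans hM)
  obtain ⟨T₁, hT₁, hT₁'⟩ := hM₂ M (((le_max_left _ _).trans (le_max_right _ _)).trans hM)
  obtain ⟨T₂, hT₂, hT₂'⟩ := hM₃ M (((le_max_right _ _).trans (le_max_right _ _)).trans hM)
  have hηθ : η ≤ θ := by nlinarith
  refine ⟨P + T₁, Submodule.add_mem _ hP hT₁, V + T₂, Submodule.add_mem _ hV hT₂, ?_, ?_, ?_⟩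
  · intro x
    obtain ⟨y, rfl⟩ := hh.surj x
    rw [Pi.add_apply, add_sub_cancel_left]
    have h1 : T₁ (h y) = (T₁ (h y) - uu h P V y * FP (M * y)) + uu h P V y * FP (M * y) := by ring
    rw [h1]
    refine (norm_add_le _ _).trans ?_
    rw [norm_mul]
    have h2 := hT₁' y
    have h3 : ‖uu h P V y‖ * ‖FP (M * y)‖ ≤ μ * K :=
      mul_le_mul (hμ y) (hKP _) (norm_nonneg _) hμ0
    linarith
  · intro y
    rw [Pi.add_apply, add_sub_cancel_left]
    have h1 : T₂ y = (T₂ y - uu h P V y * FV (M * y)) + uu h P V y * FV (M * y) := by ring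
    rw [h1]
    refine (norm_add_le _ _).trans ?_
    rw [norm_mul]
    have h2 := hT₂' y
    have h3 : ‖uu h P V y‖ * ‖FV (M * y)‖ ≤ μ * K :=
      mul_le_mul (hμ y) (hKV _) (norm_nonneg _) hμ0
    linarith
  · intro p η₀ hp y
    set g := Gm Γ p M y with hg
    have hgy : |g - y| ≤ min r₁ r₂ := (Gm_sub_le hΓ p hM1 y).trans hMr
    have k1 : ‖P (h g) - P (h y)‖ ≤ η := hu₁ g y (hgy.trans (min_le_left _ _))
    have k2 : ‖uu h P V g - uu h P V y‖ ≤ η := hu₂ g y (hgy.trans (min_le_right _ _))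
    have k3 := hT₁' g
    have k4 := hT₂' y
    have hmain : uu (fun y => h (Gm Γ p M y)) (P + T₁) (V + T₂) y =
        (P (h g) - P (h y)) + (T₁ (h g) - uu h P V g * FP (M * g)) +
        (uu h P V g - uu h P V y) * FP (M * g) - (T₂ y - uu h P V y * FV (M * y)) +
        uu h P V y * (FP (M * g) + 1 - FV (M * y)) := by
      have e1 : uu (fun y => h (Gm Γ p M y)) (P + T₁) (V + T₂) y =
        (P (h g) + T₁ (h g)) + 1 - (V y + T₂ y) := rfl
      have e2 : uu h P V y = P (h y) + 1 - V y := rfl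
      rw [e1]
      generalize uu h P V g = ug
      rw [e2]
      ring
    have hlast : ‖uu h P V y * (FP (M * g) + 1 - FV (M * y))‖ ≤
        max (μ * m) ((1 + 2 * K) * η₀) := by
      rw [norm_mul]
      by_cases hpy : p (ci M y)
      · apply le_trans _ (le_max_left _ _)
        have hMg : (M : ℝ) * g = Γ (M * y) := by
          have hM0 : (0:ℝ) < M := by exact_mod_cast hM1
          rw [hg]; unfold Gm
          rw [if_pos hpy]
          field_simp
        rw [hMg]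
        exact mul_le_mul (hμ y) (hm (M * y)) (norm_nonneg _) hμ0
      · apply le_trans _ (le_max_right _ _)
        have h1 : ‖FP (M * g) + 1 - FV (M * y)‖ ≤ 1 + 2 * K := by
          refine (norm_sub_le _ _).trans ((add_le_add (norm_add_le _ _) le_rfl).trans ?_)
          rw [norm_one]
          linarith [hKP (M * g), hKV (M * y)]
        rw [mul_comm]
        exact mul_le_mul h1 (hp y hpy) (norm_nonneg _) (by linarith)
    rw [hmain]
    have n1 := norm_add_le ((P (h g) - P (h y)) + (T₁ (h g) - uu h P V g * FP (M * g)) +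
        (uu h P V g - uu h P V y) * FP (M * g) - (T₂ y - uu h P V y * FV (M * y)))
        (uu h P V y * (FP (M * g) + 1 - FV (M * y)))
    have n2 := norm_sub_le ((P (h g) - P (h y)) + (T₁ (h g) - uu h P V g * FP (M * g)) +
        (uu h P V g - uu h P V y) * FP (M * g)) (T₂ y - uu h P V y * FV (M * y))
    have n3 := norm_add_le ((P (h g) - P (h y)) + (T₁ (h g) - uu h P V g * FP (M * g)))
        ((uu h P V g - uu h P V y) * FP (M * g))
    have n4 := norm_add_le (P (h g) - P (h y)) (T₁ (h g) - uu h P V g * FP (M * g))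
    have n5 : ‖(uu h P V g - uu h P V y) * FP (M * g)‖ ≤ η * K := by
      rw [norm_mul]
      exact mul_le_mul k2 (hKP _) (norm_nonneg _) hη0.le
    have : 3 * η + η * K ≤ θ := by nlinarith
    linarith

end

end Pool.Agent.Helper34.Weld
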