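import Pool.Agent.Helper34.Weld.Bump

set_option autoImplicit false

namespace Pool.Agent.Helper34.Weld

open Complex Set Filter Topology MeasureTheory
open scoped ContDiff Classical

noncomputable section

lemma RHx_mono {σ C C' : ℝ} {h : ℝ → ℝ} (hh : StrictMono h) {x y : ℝ} (hxy : x < y)
    (hC : C ≤ C') (hR : RHx σ C h x y) : RHx σ C' h x y := by
  unfold RHx at *
  exact hR.trans (mul_le_mul_of_nonneg_right hC
    (Real.rpow_nonneg (sub_pos.mpr (hh hxy)).le _))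

lemma CX_nonneg {A δ σ : ℝ} (hA : 0 ≤ A) (hδ : 0 < δ) : 0 ≤ CX A δ σ := by
  unfold CX
  have : 0 ≤ (2 * Real.pi / δ) ^ (1 + σ) := Real.rpow_nonneg (by positivity) _
  positivity

section

variable {Γ : ℝ → ℝ} {δ : ℝ} (hf : Flat Γ δ) (hΓ : St Γ)
  {h : ℝ → ℝ} (hh : St h) {σ A C : ℝ} (hσ : 0 ≤ σ) (hδ : δ ≤ 1) (hA : 1 ≤ A)
  (hI : ∫ s in (0:ℝ)..(2 * Real.pi), (deriv Γ s) ^ (1 + σ) ≤ 2 * Real.pi * A)
  (hC : 1 ≤ C) (hRH : RH σ C Γ)

include hf hΓ hh hσ hδ hA hI hC hRH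

lemma lev1_RH {l R : ℝ} (hl : 0 < l) (hR : 0 < R) (hlR : ∀ t, l ≤ deriv h t ∧ deriv h t ≤ R * l)
    {θ : ℝ} (hθ : 0 < θ) :
    ∃ M₀ : ℕ, 1 ≤ M₀ ∧ ∀ M : ℕ, M₀ ≤ M → ∀ p : ℤ → Prop,
      RH σ (max (C * (1 + θ) ^ (2 * (1 + σ))) (CX A δ σ * R ^ (1 + σ)))
        (fun y => h (Gm Γ p M y)) := by
  obtain ⟨r, hr0, hr⟩ := hh.ratio hθ
  obtain ⟨M₀, hM₀, hM₀'⟩ := exists_M hr0
  refine ⟨M₀, hM₀, fun M hM p x y hxy => ?_⟩
  have hM1 : 1 ≤ M := hM₀.trans hM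
  have hGs := Gm_smooth hf hΓ p hM1
  have hGp := Gm_deriv_pos hf hΓ p hM1
  have hcomp : StrictMono (fun y => h (Gm Γ p M y)) :=
    hh.strictMono.comp (Gm_strictMono hf hΓ p hM1)
  have hmono := (Gm_strictMono hf hΓ p hM1).monotone
  have hθ1 : 0 < 1 + θ := by linarith
  rcases cell_or_cross hM1 x y with ⟨n, h1, h2⟩ | ⟨n, h1, h2⟩
  · have e1 := Gm_RH_cell hf hΓ p hM1 hC hRH hxy h1 h2
    apply RHx_mono hcomp hxy (le_max_left _ _)
    have e2 := RHx_comp (R := (1 + θ) ^ 2) (l := deriv h (Gm Γ p M x) / (1 + θ)) hσ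
      (by linarith) hh.smooth hh.pos hGs hGp hxy (div_pos (hh.pos _) hθ1) (by positivity) ?_ e1
    · rw [← Real.rpow_two, ← Real.rpow_mul hθ1.le] at e2
      exact e2
    · intro s hs
      have g1 : gr M n ≤ Gm Γ p M x := by
        have := hmono ((le_iff_gr hM1).mp h1)
        rwa [Gm_grid hf hΓ p hM1] at this
      have g2 : Gm Γ p M y ≤ gr M (n + 1) := by
        have h2' : M * y ≤ ((n + 1 : ℤ) : ℝ) * (2 * Real.pi) := by push_cast; exact h2
        have := hmono ((ge_iff_gr hM1).mp h2')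
        rwa [Gm_grid hf hΓ p hM1] at this
      have g3 := gr_succ (M := M) n
      have g4 : |s - Gm Γ p M x| ≤ r := by
        rw [abs_of_nonneg (by linarith [hs.1])]
        linarith [hs.2, hM₀' M hM]
      constructor
      · rw [div_le_iff₀ hθ1, mul_comm]
        apply hr
        rw [abs_sub_comm]; exact g4
      · have := hr _ _ g4
        refine this.trans (le_of_eq ?_)
        field_simp
  · have e1 := Gm_RH_cross hf hΓ p hM1 hδ hA hI hσ hxy h1 h2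
    apply RHx_mono hcomp hxy (le_max_right _ _)
    exact RHx_comp hσ (CX_nonneg (by linarith) hf.pos) hh.smooth hh.pos hGs hGp hxy hl hR
      (fun s _ => hlR s) e1

lemma lev2_RH {C' : ℝ} (hC' : 0 ≤ C') (hRHh : RH σ C' h) {θ : ℝ} (hθ : 0 < θ) :
    ∃ M₀ : ℕ, 1 ≤ M₀ ∧ ∀ M : ℕ, M₀ ≤ M → ∀ p : ℤ → Prop,
      RH σ (max (max C (CX A δ σ) * (1 + θ) ^ (2 * (1 + σ))) (C' * A * (1 + θ) ^ (3 * (1 + σ))))
        (fun y => h (Gm Γ p M y)) := by
  obtain ⟨r, hr0, hr⟩ := hh.ratio hθ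
  obtain ⟨l₁, l₂, hl₁, hl₁₂, hl⟩ := hh.bounds
  have hl₂ : 0 < l₂ := lt_of_lt_of_le hl₁ hl₁₂
  obtain ⟨M₀, hM₀, hM₀'⟩ := exists_M (r := min (r / 3) (θ * (l₁ * (r / 3)) / (2 * l₂ * (2 + θ))))
    (by positivity)
  refine ⟨M₀, hM₀, fun M hM p x y hxy => ?_⟩
  have hM1 : 1 ≤ M := hM₀.trans hM
  have hM0 : (0:ℝ) < M := by exact_mod_cast hM1
  have hℓ := hM₀' M hM
  have hℓ1 := hℓ.trans (min_le_left _ _)
  have hℓ2 := hℓ.trans (min_le_right _ _)
  have hℓ0 : 0 < 2 * Real.pi / (M : ℝ) := by positivity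
  have hGs := Gm_smooth hf hΓ p hM1
  have hGp := Gm_deriv_pos hf hΓ p hM1
  have hcomp : StrictMono (fun y => h (Gm Γ p M y)) :=
    hh.strictMono.comp (Gm_strictMono hf hΓ p hM1)
  have hθ1 : 0 < 1 + θ := by linarith
  rcases le_or_gt (r / 3) (y - x) with hc | hc
  · apply RHx_mono hcomp hxy (le_max_right _ _)
    apply RH_large hf hΓ p hM1 hh hθ (fun s t hst => hr s t (hst.trans (by linarith))) hσ hA hI
      hC' hRHh hl₁ hl _ (by positivity : 0 < r / 3) hc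
    rw [le_div_iff₀ (by positivity)] at hℓ2
    linarith
  · apply RHx_mono hcomp hxy (le_max_left _ _)
    have e1 : RHx σ (max C (CX A δ σ)) (Gm Γ p M) x y := by
      rcases cell_or_cross hM1 x y with ⟨n, h1, h2⟩ | ⟨n, h1, h2⟩
      · exact RHx_mono (Gm_strictMono hf hΓ p hM1) hxy (le_max_left _ _)
          (Gm_RH_cell hf hΓ p hM1 hC hRH hxy h1 h2)
      · exact RHx_mono (Gm_strictMono hf hΓ p hM1) hxy (le_max_right _ _)
          (Gm_RH_cross hf hΓ p hM1 hδ hA hI hσ hxy h1 h2)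
    have e2 := RHx_comp (R := (1 + θ) ^ 2) (l := deriv h (Gm Γ p M x) / (1 + θ)) hσ
      (by have := le_max_left C (CX A δ σ); linarith) hh.smooth hh.pos hGs hGp hxy
      (div_pos (hh.pos _) hθ1) (by positivity) ?_ e1
    · rw [← Real.rpow_two, ← Real.rpow_mul hθ1.le] at e2
      exact e2
    · intro s hs
      have g1 := Gm_sub_le hΓ p hM1 x
      have g2 := Gm_sub_le hΓ p hM1 y
      rw [abs_le] at g1 g2
      have g4 : |s - Gm Γ p M x| ≤ r := by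
        rw [abs_of_nonneg (by linarith [hs.1])]
        linarith [hs.2]
      constructor
      · rw [div_le_iff₀ hθ1, mul_comm]
        apply hr
        rw [abs_sub_comm]; exact g4
      · have := hr _ _ g4
        refine this.trans (le_of_eq ?_)
        field_simp

end

/-- the selector of cells -/
def pb (β : ℝ) (M : ℕ) (n : ℤ) : Prop := Real.cos (gr M n) < β

lemma pb_per {β : ℝ} {M : ℕ} (hM : 1 ≤ M) (n : ℤ) : pb β M (n + M) ↔ pb β M n := by
  unfold pb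
  have hM0 : (0:ℝ) < M := by exact_mod_cast hM
  have : gr M (n + M) = gr M n + 2 * Real.pi := by
    unfold gr; push_cast; field_simp
  rw [this, Real.cos_add_two_pi]

lemma cos_ci {M : ℕ} (hM : 1 ≤ M) (y : ℝ) :
    |Real.cos y - Real.cos (gr M (ci M y))| ≤ 2 * Real.pi / M := by
  refine (Real.abs_cos_sub_cos_le _ _).trans ?_
  have h1 := gr_ci_le hM y
  have h2 := lt_gr_ci hM y
  rw [gr_succ] at h2
  rw [abs_of_nonneg (by linarith)]
  linarith

/-- the block predicate -/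
def Blk (σ A Cb K m : ℝ) (Γ : ℝ → ℝ) (FP FV : ℝ → ℂ) : Prop :=
  St Γ ∧ Flat Γ (dl / 4) ∧ FP ∈ Ppos ∧ FV ∈ Pneg ∧ (∀ y, ‖FP y‖ ≤ K) ∧ (∀ y, ‖FV y‖ ≤ K) ∧
    (∀ y, ‖uu Γ FP FV y‖ ≤ m) ∧
    (∫ t in (0:ℝ)..(2 * Real.pi), (deriv Γ t) ^ (1 + σ) ≤ 2 * Real.pi * A) ∧
    ∃ C, 1 ≤ C ∧ C < Cb ∧ RH σ C Γ

lemma blk_id {σ A Cb K : ℝ} (hA : 1 ≤ A) (hCb : 1 < Cb) (hK : 0 ≤ K) :
    Blk σ A Cb K 1 (fun y => y) 0 0 := by
  have hd : deriv (fun y : ℝ => y) = fun _ => 1 := by funext; simp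
  refine ⟨St_id, ⟨by have := dl_pos; positivity, fun _ _ => rfl⟩, Submodule.zero_mem _,
    Submodule.zero_mem _, fun y => by simpa using hK, fun y => by simpa using hK, fun y => by
      unfold uu; simp, ?_, 1, le_rfl, hCb, ?_⟩
  · rw [hd]
    simp only [Real.one_rpow]
    rw [intervalIntegral.integral_const, smul_eq_mul, mul_one, sub_zero]
    have : 0 < 2 * Real.pi := by positivity
    nlinarith
  · intro x y hxy
    unfold RHx
    have hyx : 0 < y - x := sub_pos.mpr hxy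
    rw [hd]
    simp only [Real.one_rpow]
    rw [intervalIntegral.integral_const, smul_eq_mul, mul_one, one_mul, Real.rpow_add hyx,
      Real.rpow_one, mul_comm]

end

end Pool.Agent.Helper34.Weld
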