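import Pool.Agent.Helper34.Weld.Lev1

set_option autoImplicit false

namespace Pool.Agent.Helper34.Weld

open Complex Set Filter Topology MeasureTheory
open scoped ContDiff Classical

noncomputable section

lemma int_if (p : ℤ → Prop) (M : ℕ) (a b : ℝ) {w : ℝ → ℝ} (hw : Continuous w) (x y : ℝ) :
    IntervalIntegrable (fun t : ℝ => (if p (ci M t) then a else b) * w t) volume x y := by
  have hAc : Continuous fun t => (|a| + |b|) * |w t| := continuous_const.mul hw.abs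
  have hmeas : Measurable fun t : ℝ => (if p (ci M t) then a else b) * w t := by
    apply Measurable.mul _ hw.measurable
    apply Measurable.ite _ measurable_const measurable_const
    have : Measurable (ci M) := by
      unfold ci
      exact Int.measurable_floor.comp (by fun_prop)
    exact this (MeasurableSet.of_discrete (s := {n | p n}))
  apply (hAc.intervalIntegrable x y).mono_fun' hmeas.aestronglyMeasurable
  filter_upwards with t
  rw [Real.norm_eq_abs, abs_mul]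
  apply mul_le_mul_of_nonneg_right _ (abs_nonneg _)
  split_ifs
  · linarith [abs_nonneg b]
  · linarith [abs_nonneg a]

lemma gr_zero (M : ℕ) : gr M 0 = 0 := by unfold gr; simp

lemma gr_self {M : ℕ} (hM : 1 ≤ M) : gr M M = 2 * Real.pi := by
  have hM0 : (0:ℝ) < M := by exact_mod_cast hM
  unfold gr
  push_cast
  field_simp

lemma cos_ge_of_abs {y d : ℝ} (hd : d ≤ Real.pi) (hy : |y| ≤ d) : Real.cos d ≤ Real.cos y := by
  rw [← Real.cos_abs y]
  exact Real.cos_le_cos_of_nonneg_of_le_pi (abs_nonneg _) hd hy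

/-- constants of level one -/
def Rb : ℝ := (1 + 5 * ep) / (1 - 5 * ep)

def Cb : ℝ := 2 * (CX 4 (dl / 4) dl * Rb ^ (1 + dl) + 1)

lemma mean_split {p : ℤ → Prop} {M : ℕ} {w : ℝ → ℝ} (hw : Continuous w) (w0 : ∀ t, 0 ≤ w t)
    {d : ℝ} (hd0 : 0 ≤ d) (hd : d ≤ 2 * Real.pi) (hp : ∀ t ∈ Icc 0 d, ¬ p (ci M t)) :
    ∫ t in (0:ℝ)..(2 * Real.pi), (if p (ci M t) then 4 else 1) * w t ≤
      4 * (∫ t in (0:ℝ)..(2 * Real.pi), w t) - 3 * ∫ t in (0:ℝ)..d, w t := by
  rw [← intervalIntegral.integral_add_adjacent_intervals (int_if p M 4 1 hw 0 d)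
    (int_if p M 4 1 hw d _),
    ← intervalIntegral.integral_add_adjacent_intervals (hw.intervalIntegrable 0 d)
    (hw.intervalIntegrable d _)]
  have h1 : ∫ t in (0:ℝ)..d, (if p (ci M t) then 4 else 1) * w t = ∫ t in (0:ℝ)..d, w t := by
    apply intervalIntegral.integral_congr
    intro t ht
    rw [uIcc_of_le hd0] at ht
    show (if p (ci M t) then (4:ℝ) else 1) * w t = w t
    rw [if_neg (hp t ht), one_mul]
  have h2 : ∫ t in d..(2 * Real.pi), (if p (ci M t) then 4 else 1) * w t ≤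
      ∫ t in d..(2 * Real.pi), 4 * w t := by
    apply intervalIntegral.integral_mono_on hd (int_if p M 4 1 hw _ _)
      ((hw.intervalIntegrable _ _).const_mul _)
    intro t _
    apply mul_le_mul_of_nonneg_right _ (w0 t)
    split_ifs <;> norm_num
  rw [intervalIntegral.integral_const_mul] at h2
  rw [h1]
  linarith

set_option maxHeartbeats 4000000 in
theorem lev1_step {Kb : ℝ} (hKb : 0 ≤ Kb)
    (hbase : ∀ η : ℝ, 0 < η → ∃ (g : ℝ → ℝ) (P V : ℝ → ℂ),
    St g ∧ P ∈ Ppos ∧ V ∈ Pneg ∧ (∀ y, ‖P y‖ ≤ Kb) ∧ (∀ y, ‖V y‖ ≤ Kb) ∧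
    (∀ y, |deriv g y - 1| ≤ 5 * ep) ∧ (∀ y, Real.cos (dl / 4) ≤ Real.cos y → g y = y) ∧
    (∀ y, ‖uu g P V y‖ ≤ 1 - 57 / 100 * ep ^ 2 + η) ∧
    (∀ y, Real.cos (dl / 2) ≤ Real.cos y → ‖uu g P V y‖ ≤ η))
    {m : ℝ} (hm : 0 < m)
    (hB : ∃ Γ FP FV, Blk dl 4 Cb ((Kb + 1) * (2 / ep ^ 2)) m Γ FP FV) :
    ∃ Γ FP FV, Blk dl 4 Cb ((Kb + 1) * (2 / ep ^ 2)) ((1 - ep ^ 2 / 4) * m) Γ FP FV := by
  have hep := ep_pos
  have hdl := dl_pos
  have hpi := Real.pi_gt_three
  have hpi2 := Real.pi_lt_d2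
  obtain ⟨Γ, FP, FV, hΓ, hf, hFP, hFV, hKP, hKV, hum, hI, C, hC1, hCb, hRH⟩ := hB
  set K := (Kb + 1) * (2 / ep ^ 2) with hK
  have hK0 : 0 ≤ K := by positivity
  set η := min (7 / 100 * ep ^ 2) (m / (4 * (1 + 2 * K))) with hη
  have hη0 : 0 < η := by positivity
  have hη1 : η ≤ 7 / 100 * ep ^ 2 := min_le_left _ _
  have hη2 : (1 + 2 * K) * η ≤ m / 4 := by
    have h1 : η ≤ m / (4 * (1 + 2 * K)) := min_le_right _ _
    rw [le_div_iff₀ (by positivity)] at h1
    linarith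
  obtain ⟨g, P, V, hg, hP, hV, hPb, hVb, hder, hgid, hu1, hu2⟩ := hbase η hη0
  have hμ : ∀ y, ‖uu g P V y‖ ≤ 1 - ep ^ 2 / 2 := by
    intro y; have := hu1 y; linarith
  set θ' := min (ep ^ 2 / 4 * m) 1 with hθ'
  have hθ'0 : 0 < θ' := by positivity
  obtain ⟨M₁, hM₁⟩ := implant_approx hg hP hV hΓ hFP hFV hμ hum hKP hKV hθ'0
  -- θ for the reverse Hölder constants
  obtain ⟨θ, hθ0, hθ1, hθC⟩ : ∃ θ : ℝ, 0 < θ ∧ θ ≤ dl / 400 ∧ C * (1 + θ) ^ 4 < Cb := by
    have hcont : Continuous fun θ : ℝ => C * (1 + θ) ^ 4 := by fun_prop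
    have h1 : ∀ᶠ θ in 𝓝 (0:ℝ), C * (1 + θ) ^ 4 < Cb := by
      apply hcont.continuousAt.eventually (gt_mem_nhds _)
      simpa using hCb
    rw [Metric.eventually_nhds_iff] at h1
    obtain ⟨e, he, h2⟩ := h1
    refine ⟨min (e / 2) (dl / 400), by positivity, min_le_right _ _, h2 ?_⟩
    rw [Real.dist_eq, sub_zero, abs_of_pos (by positivity)]
    exact lt_of_le_of_lt (min_le_left _ _) (by linarith)
  have hσ0 : (0:ℝ) ≤ dl := hdl.le
  have hσ1 : dl ≤ 1 := by unfold dl; norm_num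
  have hpow : (1 + θ) ^ (2 * (1 + dl)) ≤ (1 + θ) ^ 4 := by
    rw [← Real.rpow_natCast (1 + θ) 4]
    apply Real.rpow_le_rpow_of_exponent_le (by linarith)
    push_cast; linarith
  have hpow0 : 1 ≤ (1 + θ) ^ (2 * (1 + dl)) := Real.one_le_rpow (by linarith) (by linarith)
  have h5 : 0 < 1 - 5 * ep := by unfold ep; norm_num
  have hRb : 0 < Rb := by unfold Rb; positivity
  obtain ⟨M₂, hM₂, hM₂'⟩ := lev1_RH hf hΓ hg hσ0 (by unfold dl; norm_num) (by norm_num) hI hC1 hRH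
    (l := 1 - 5 * ep) (R := Rb) h5 hRb (fun t => by
      have := hder t
      rw [abs_le] at this
      constructor
      · linarith [this.1]
      · unfold Rb
        rw [div_mul_cancel₀ _ h5.ne']
        linarith [this.2]) hθ0
  obtain ⟨r, hr0, hr⟩ := hg.ratio hθ0
  have hlt : Real.cos (dl / 2) < Real.cos (dl / 4) :=
    cos_dl (by positivity) (by linarith) (by unfold dl; linarith)
  set e := (Real.cos (dl / 4) - Real.cos (dl / 2)) / 2 with he
  have he0 : 0 < e := by rw [he]; linarith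
  obtain ⟨M₃, hM₃, hM₃'⟩ := exists_M (lt_min hr0 he0)
  set M := M₁ + M₂ + M₃ with hM
  have hM1 : 1 ≤ M := by omega
  have hℓ := hM₃' M (by omega)
  have hℓ1 := hℓ.trans (min_le_left _ _)
  have hℓ2 := hℓ.trans (min_le_right _ _)
  set β := (Real.cos (dl / 4) + Real.cos (dl / 2)) / 2 with hβ
  set p : ℤ → Prop := pb β M with hp
  obtain ⟨P', hP', V', hV', hPP, hVV, hfin⟩ := hM₁ M (by omega) hM1
  have hpf : ∀ y, Real.cos (dl / 4) ≤ Real.cos y → ¬ p (ci M y) := by
    intro y hy hc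
    have h1 := cos_ci hM1 y
    rw [abs_le] at h1
    have h2 : Real.cos (gr M (ci M y)) < β := hc
    linarith [h1.2]
  refine ⟨fun y => g (Gm Γ p M y), P', V', comp_st hg (Gm_st hf hΓ p hM1 (pb_per hM1)),
    ⟨by positivity, ?_⟩, hP', hV', ?_, ?_, ?_, ?_, ?_⟩
  · intro y hy
    have hcy := cos_ge_of_abs (by linarith) hy
    have h1 : Gm Γ p M y = y := by
      unfold Gm; rw [if_neg (hpf y hcy)]
    show g (Gm Γ p M y) = y
    rw [h1]
    exact hgid y hcy
  · intro y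
    have h1 : P' y = P y + (P' y - P y) := by ring
    rw [h1]
    refine (norm_add_le _ _).trans ?_
    have h2 := hPb y
    have h3 := hPP y
    have h4 : θ' ≤ 1 := min_le_right _ _
    have h5 : ep ^ 2 / 2 * K = Kb + 1 := by rw [hK]; field_simp
    nlinarith
  · intro y
    have h1 : V' y = V y + (V' y - V y) := by ring
    rw [h1]
    refine (norm_add_le _ _).trans ?_
    have h2 := hVb y
    have h3 := hVV y
    have h4 : θ' ≤ 1 := min_le_right _ _
    have h5 : ep ^ 2 / 2 * K = Kb + 1 := by rw [hK]; field_simp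
    nlinarith
  · intro y
    refine (hfin p η ?_ y).trans ?_
    · intro z hz
      apply hu2
      have h1 := cos_ci hM1 z
      rw [abs_le] at h1
      have h2 : β ≤ Real.cos (gr M (ci M z)) := not_lt.mp hz
      linarith [h1.1]
    · have h1 : max ((1 - ep ^ 2 / 2) * m) ((1 + 2 * K) * η) ≤ (1 - ep ^ 2 / 2) * m := by
        apply max_le le_rfl
        refine hη2.trans ?_
        have : ep ^ 2 ≤ 1 := by unfold ep; norm_num
        nlinarith
      have h2 : θ' ≤ ep ^ 2 / 4 * m := min_le_left _ _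
      linarith
  · -- the mean
    have hw := rpow_cont hg.smooth hg.pos (1 + dl)
    have h1 := comp_mean hf hΓ p hM1 hg hθ0 (fun s t hst => hr s t (hst.trans hℓ1)) hσ0
      (by norm_num : (1:ℝ) ≤ 4) hI (m := 0) (n := M) (by omega)
    rw [gr_zero, gr_self hM1] at h1
    have h2 := mean_split (p := p) (M := M) hw (fun t => Real.rpow_nonneg (hg.pos t).le _)
      (d := dl / 4) (by positivity) (by linarith) (fun t ht => hpf t
        (cos_ge_of_abs (by linarith) (by rw [abs_of_nonneg ht.1]; exact ht.2)))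
    have h3 := pmean_bound hg hder hσ0 hσ1
    have h4 : 9 / 10 * (dl / 4) ≤ ∫ t in (0:ℝ)..(dl / 4), (deriv g t) ^ (1 + dl) := by
      have h6 : ∫ t in (0:ℝ)..(dl / 4), (9 / 10 : ℝ) ≤
          ∫ t in (0:ℝ)..(dl / 4), (deriv g t) ^ (1 + dl) := by
        apply intervalIntegral.integral_mono_on (by positivity) intervalIntegrable_const
          (hw.intervalIntegrable _ _)
        intro t _
        have h7 := hder t
        rw [abs_le] at h7
        have h8 : (1 - 5 * ep) ^ (1 + dl) ≤ (deriv g t) ^ (1 + dl) :=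
          Real.rpow_le_rpow h5.le (by linarith [h7.1]) (by linarith)
        have h9 : (1 - 5 * ep) ^ (2:ℝ) ≤ (1 - 5 * ep) ^ (1 + dl) :=
          Real.rpow_le_rpow_of_exponent_ge h5 (by linarith) (by linarith)
        rw [Real.rpow_two] at h9
        have h10 : (9 / 10 : ℝ) ≤ (1 - 5 * ep) ^ 2 := by unfold ep; norm_num
        linarith
      rw [intervalIntegral.integral_const, smul_eq_mul, sub_zero] at h6
      linarith
    refine h1.trans ?_
    set Z := ∫ t in (0:ℝ)..(2 * Real.pi), (if p (ci M t) then 4 else 1) * (deriv g t) ^ (1 + dl)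
      with hZ
    have hZ1 : Z ≤ 4 * (2 * Real.pi * (1 + dl * (5 * ep) ^ 2)) - 3 * (9 / 10 * (dl / 4)) := by
      linarith
    have hZ0 : 0 ≤ 4 * (2 * Real.pi * (1 + dl * (5 * ep) ^ 2)) - 3 * (9 / 10 * (dl / 4)) := by
      unfold dl ep; nlinarith
    have hq : (1 + θ) ^ (2 * (1 + dl)) ≤ (1 + dl / 400) ^ 4 :=
      hpow.trans (pow_le_pow_left₀ (by linarith) (by linarith) 4)
    have hq0 : 0 ≤ (1 + θ) ^ (2 * (1 + dl)) := by linarith
    calc (1 + θ) ^ (2 * (1 + dl)) * Z ≤ (1 + θ) ^ (2 * (1 + dl)) *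
          (4 * (2 * Real.pi * (1 + dl * (5 * ep) ^ 2)) - 3 * (9 / 10 * (dl / 4))) :=
          mul_le_mul_of_nonneg_left hZ1 hq0
      _ ≤ (1 + dl / 400) ^ 4 *
          (4 * (2 * Real.pi * (1 + dl * (5 * ep) ^ 2)) - 3 * (9 / 10 * (dl / 4))) :=
          mul_le_mul_of_nonneg_right hq hZ0
      _ ≤ 2 * Real.pi * 4 := by
          unfold dl ep
          norm_num
          nlinarith
  · refine ⟨_, ?_, ?_, hM₂' M (by omega) p⟩
    · apply le_max_of_le_left
      nlinarith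
    · apply max_lt
      · refine lt_of_le_of_lt ?_ hθC
        exact mul_le_mul_of_nonneg_left hpow (by linarith)
      · unfold Cb
        have h1 : 0 ≤ CX 4 (dl / 4) dl := CX_nonneg (by norm_num) (by positivity)
        have h2 : 0 ≤ Rb ^ (1 + dl) := Real.rpow_nonneg hRb.le _
        nlinarith [mul_nonneg h1 h2]

/-- **Level one** -/
theorem lev1 : ∃ K : ℝ, 0 ≤ K ∧ ∀ m : ℝ, 0 < m → ∃ Γ FP FV, Blk dl 4 Cb K m Γ FP FV := by
  obtain ⟨Kb, hKb, hbase⟩ := base_a
  have hep := ep_pos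
  refine ⟨(Kb + 1) * (2 / ep ^ 2), by positivity, ?_⟩
  have hρ0 : 0 < 1 - ep ^ 2 / 4 := by unfold ep; norm_num
  have hρ1 : 1 - ep ^ 2 / 4 < 1 := by unfold ep; norm_num
  have hCb1 : 1 < Cb := by
    unfold Cb
    have h1 : 0 ≤ CX 4 (dl / 4) dl := CX_nonneg (by norm_num) (by have := dl_pos; positivity)
    have h2 : 0 ≤ Rb ^ (1 + dl) := Real.rpow_nonneg (by unfold Rb ep; norm_num) _
    nlinarith [mul_nonneg h1 h2]
  have hind : ∀ j : ℕ, ∃ Γ FP FV, Blk dl 4 Cb ((Kb + 1) * (2 / ep ^ 2))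
      ((1 - ep ^ 2 / 4) ^ j) Γ FP FV := by
    intro j
    induction j with
    | zero =>
      refine ⟨fun y => y, 0, 0, ?_⟩
      rw [pow_zero]
      exact blk_id (by norm_num) hCb1 (by positivity)
    | succ j ih =>
      rw [pow_succ' (1 - ep ^ 2 / 4) j]
      exact lev1_step hKb hbase (pow_pos hρ0 j) ih
  intro m hm
  obtain ⟨j, hj⟩ := exists_pow_lt_of_lt_one hm hρ1
  obtain ⟨Γ, FP, FV, h1, h2, h3, h4, h5, h6, h7, h8⟩ := hind j
  exact ⟨Γ, FP, FV, h1, h2, h3, h4, h5, h6, fun y => (h7 y).trans hj.le, h8⟩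

end

end Pool.Agent.Helper34.Weld
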