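import Pool.Agent.Helper34.Weld.Conc

set_option autoImplicit false

namespace Pool.Agent.Helper34.Weld

open Complex Set Filter Topology MeasureTheory
open scoped ContDiff Classical

noncomputable section

lemma Cb_bounds : 1 ≤ Cb ∧ CX 4 (dl / 4) dl ≤ Cb := by
  unfold Cb
  have h1 : 0 ≤ CX 4 (dl / 4) dl := CX_nonneg (by norm_num) (by have := dl_pos; positivity)
  have h2 : 1 ≤ Rb ^ (1 + dl) := Real.one_le_rpow (by unfold Rb ep; norm_num)
    (by have := dl_pos; linarith)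
  constructor <;> nlinarith

set_option maxHeartbeats 4000000 in
lemma lev2_step {t : ℝ} (ht : 0 < t) (ht1 : t ≤ 1) {K : ℝ}
    (hK : ∀ m : ℝ, 0 < m → ∃ Γ FP FV, Blk dl (1 + t / 16) Cb K m Γ FP FV ∧
      ∫ s in (0:ℝ)..(2 * Real.pi), |deriv Γ s - 1| ≤ 2 * Real.pi * (t / 16))
    {h : ℝ → ℝ} {P V : ℝ → ℂ} (hh : St h) (hP : P ∈ Ppos) (hV : V ∈ Pneg) {μ : ℝ}
    (hμ : ∀ y, ‖uu h P V y‖ ≤ μ) {C' : ℝ} (hC' : 0 ≤ C') (hRHh : RH dl C' h)
    {μ' : ℝ} (hμ' : 0 < μ') :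
    ∃ (h' : ℝ → ℝ) (P' V' : ℝ → ℂ), St h' ∧ P' ∈ Ppos ∧ V' ∈ Pneg ∧
      (∀ y, ‖uu h' P' V' y‖ ≤ μ') ∧ (∀ y, ‖P' y - P y‖ ≤ μ * K + t) ∧
      (∀ y, ‖V' y - V y‖ ≤ μ * K + t) ∧ (∀ y, |h' y - h y| ≤ t) ∧
      (∀ n : ℕ, ∫ s in (-(n * (2 * Real.pi)) : ℝ)..(n * (2 * Real.pi)),
        |deriv h' s - deriv h s| ≤ t * (n * (4 * Real.pi))) ∧
      RH dl (max (Cb * (3 / 2)) (C' * (1 + t / 4))) h' := by
  have hdl := dl_pos
  have hpi := Real.pi_gt_three
  have hμ0 : 0 ≤ μ := (norm_nonneg _).trans (hμ 0)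
  obtain ⟨Γ, FP, FV, ⟨hΓ, hf, hFP, hFV, hKP, hKV, hum, hI, C, hC1, hCb, hRH⟩, hL1⟩ :=
    hK (μ' / (2 * (μ + 1))) (by positivity)
  set θ' := min (μ' / 2) t with hθ'
  have hθ'0 : 0 < θ' := by positivity
  obtain ⟨M₁, hM₁⟩ := implant_approx hh hP hV hΓ hFP hFV hμ hum hKP hKV hθ'0
  set θ := t / 100 with hθ
  have hθ0 : 0 < θ := by positivity
  have hσ0 : (0:ℝ) ≤ dl := hdl.le
  have hσ1 : dl ≤ 1 := by unfold dl; norm_num
  have hA1 : 1 ≤ 1 + t / 16 := by linarith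
  obtain ⟨M₂, hM₂, hM₂'⟩ := lev2_RH hf hΓ hh hσ0 (by unfold dl; norm_num) hA1 hI hC1 hRH hC' hRHh
    hθ0
  obtain ⟨r, hr0, hr⟩ := hh.ratio hθ0
  obtain ⟨l₁, l₂, hl₁, hl₁₂, hl⟩ := hh.bounds
  have hl₂ : 0 < l₂ := lt_of_lt_of_le hl₁ hl₁₂
  obtain ⟨M₃, hM₃, hM₃'⟩ := exists_M (r := min r (t / l₂)) (by positivity)
  set M := M₁ + M₂ + M₃ with hM
  have hM1 : 1 ≤ M := by omega
  have hM0 : (0:ℝ) < M := by exact_mod_cast hM1
  have hℓ := hM₃' M (by omega)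
  have hℓ1 := hℓ.trans (min_le_left _ _)
  have hℓ2 := hℓ.trans (min_le_right _ _)
  set p : ℤ → Prop := fun _ => True with hp
  obtain ⟨P', hP', V', hV', hPP, hVV, hfin⟩ := hM₁ M (by omega) hM1
  have hGs := Gm_smooth hf hΓ p hM1
  refine ⟨fun y => h (Gm Γ p M y), P', V',
    comp_st hh (Gm_st hf hΓ p hM1 (fun _ => Iff.rfl)), hP', hV', ?_, ?_, ?_, ?_, ?_, ?_⟩
  · intro y
    refine (hfin p 0 (fun y hy => absurd trivial hy) y).trans ?_
    rw [mul_zero]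
    have h1 : μ * (μ' / (2 * (μ + 1))) ≤ μ' / 2 := by
      rw [mul_div_assoc', div_le_div_iff₀ (by positivity) (by norm_num)]
      nlinarith
    have h2 : max (μ * (μ' / (2 * (μ + 1)))) 0 ≤ μ' / 2 := max_le h1 (by positivity)
    have h3 : θ' ≤ μ' / 2 := min_le_left _ _
    linarith
  · intro y
    have h3 : θ' ≤ t := min_le_right _ _
    linarith [hPP y]
  · intro y
    have h3 : θ' ≤ t := min_le_right _ _
    linarith [hVV y]
  · intro y
    have h1 := Gm_sub_le hΓ p hM1 y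
    have h2 : l₂ * (2 * Real.pi / M) ≤ t := by
      rw [le_div_iff₀ hl₂] at hℓ2
      linarith
    rw [abs_le] at h1
    show |h (Gm Γ p M y) - h y| ≤ t
    rcases le_total y (Gm Γ p M y) with hc | hc
    · have h4 := hh.strictMono.monotone hc
      rw [abs_of_nonneg (by linarith)]
      have h3 := smooth_upper hh.smooth hc (fun s _ => (hl s).2)
      nlinarith
    · have h4 := hh.strictMono.monotone hc
      rw [abs_of_nonpos (by linarith)]
      have h3 := smooth_upper hh.smooth hc (fun s _ => (hl s).2)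
      nlinarith
  · intro n
    have h1 := comp_L1 hf hΓ p hM1 hh hθ0 (fun s t hst => hr s t (hst.trans hℓ1))
      (by linarith) hL1 (m := -(n * M : ℕ)) (n := (n * M : ℕ)) (by omega)
    have h2 : gr M ((n * M : ℕ) : ℤ) = n * (2 * Real.pi) := by
      unfold gr; push_cast; field_simp
    have h3 : gr M (-((n * M : ℕ) : ℤ)) = -(n * (2 * Real.pi)) := by
      unfold gr; push_cast; field_simp
    rw [h2, h3, ← smooth_ftc hh.smooth] at h1
    have h4 : h (n * (2 * Real.pi)) = n * (2 * Real.pi) := by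
      have := hh.int_mul n
      exact_mod_cast this
    have h5 : h (-(n * (2 * Real.pi))) = -(n * (2 * Real.pi)) := by
      have := hh.int_mul (-(n:ℤ))
      push_cast at this
      rw [neg_mul] at this
      exact this
    rw [h4, h5] at h1
    refine h1.trans ?_
    rw [hθ]
    have h6 : (0:ℝ) ≤ n * (4 * Real.pi) := by positivity
    nlinarith
  · -- reverse Hölder
    have h1 := hM₂' M (by omega) p
    intro x y hxy
    refine RHx_mono (hh.strictMono.comp (Gm_strictMono hf hΓ p hM1)) hxy ?_ (h1 x y hxy)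
    obtain ⟨hCb1, hCX⟩ := Cb_bounds
    have hpow : (1 + θ) ^ (2 * (1 + dl)) ≤ (1 + θ) ^ 4 := by
      rw [← Real.rpow_natCast (1 + θ) 4]
      apply Real.rpow_le_rpow_of_exponent_le (by linarith)
      push_cast; linarith
    have hpow3 : (1 + θ) ^ (3 * (1 + dl)) ≤ (1 + θ) ^ 6 := by
      rw [← Real.rpow_natCast (1 + θ) 6]
      apply Real.rpow_le_rpow_of_exponent_le (by linarith)
      push_cast; linarith
    have hCX2 : CX (1 + t / 16) (dl / 4) dl ≤ CX 4 (dl / 4) dl := by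
      unfold CX
      have h5 : 0 ≤ (2 * Real.pi / (dl / 4)) ^ (1 + dl) := Real.rpow_nonneg (by positivity) _
      apply mul_le_mul_of_nonneg_right _ h5
      apply mul_le_mul_of_nonneg_right _ (by positivity)
      linarith
    have hθs : (1 + θ) ^ 2 ≤ 1 + 21 / 1000 * t := by rw [hθ]; nlinarith
    have hθ4 : (1 + θ) ^ 4 ≤ 1 + t / 20 := by
      have e2 : (1 + θ) ^ 4 = ((1 + θ) ^ 2) ^ 2 := by ring
      rw [e2]
      calc ((1 + θ) ^ 2) ^ 2 ≤ (1 + 21 / 1000 * t) ^ 2 :=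
            pow_le_pow_left₀ (by positivity) hθs 2
        _ ≤ 1 + t / 20 := by nlinarith
    have hθ6 : (1 + θ) ^ 6 ≤ 1 + t / 10 := by
      have e2 : (1 + θ) ^ 6 = (1 + θ) ^ 4 * (1 + θ) ^ 2 := by ring
      rw [e2]
      calc (1 + θ) ^ 4 * (1 + θ) ^ 2 ≤ (1 + t / 20) * (1 + 21 / 1000 * t) :=
            mul_le_mul hθ4 hθs (by positivity) (by positivity)
        _ ≤ 1 + t / 10 := by nlinarith
    apply max_le_max
    · have h6 : max C (CX (1 + t / 16) (dl / 4) dl) ≤ Cb := max_le hCb.le (hCX2.trans hCX)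
      have h7 : 0 ≤ (1 + θ) ^ (2 * (1 + dl)) := Real.rpow_nonneg (by linarith) _
      calc max C (CX (1 + t / 16) (dl / 4) dl) * (1 + θ) ^ (2 * (1 + dl))
          ≤ Cb * (1 + θ) ^ (2 * (1 + dl)) := mul_le_mul_of_nonneg_right h6 h7
        _ ≤ Cb * (3 / 2) := by
            apply mul_le_mul_of_nonneg_left _ (by linarith)
            linarith
    · rw [mul_assoc]
      apply mul_le_mul_of_nonneg_left _ hC'
      calc (1 + t / 16) * (1 + θ) ^ (3 * (1 + dl)) ≤ (1 + t / 16) * (1 + t / 10) :=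
            mul_le_mul_of_nonneg_left (hpow3.trans hθ6) (by linarith)
        _ ≤ 1 + t / 4 := by nlinarith

/-- the whole sequence -/
theorem exists_seq : ∃ (h : ℕ → ℝ → ℝ) (P V : ℕ → ℝ → ℂ) (b μ : ℕ → ℝ) (C : ℝ),
    0 < C ∧ Summable b ∧ Tendsto μ atTop (𝓝 0) ∧
    (∀ k, St (h k)) ∧ (∀ k, P k ∈ Ppos) ∧ (∀ k, V k ∈ Pneg) ∧
    (∀ k y, ‖uu (h k) (P k) (V k) y‖ ≤ μ k) ∧
    (∀ k y, ‖P (k + 1) y - P k y‖ ≤ b k) ∧ (∀ k y, ‖V (k + 1) y - V k y‖ ≤ b k) ∧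
    (∀ k y, |h (k + 1) y - h k y| ≤ b k) ∧
    (∀ k (n : ℕ), ∫ s in (-(n * (2 * Real.pi)) : ℝ)..(n * (2 * Real.pi)),
        |deriv (h (k + 1)) s - deriv (h k) s| ≤ b k * (n * (4 * Real.pi))) ∧
    ∀ k, RH dl C (h k) := by
  have hb : ∀ k : ℕ, ∃ K : ℝ, 0 ≤ K ∧ ∀ m : ℝ, 0 < m → ∃ Γ FP FV,
      Blk dl (1 + (1 / 2 : ℝ) ^ k / 16) Cb K m Γ FP FV ∧
      ∫ s in (0:ℝ)..(2 * Real.pi), |deriv Γ s - 1| ≤ 2 * Real.pi * ((1 / 2 : ℝ) ^ k / 16) := by
    intro k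
    apply blocks (by positivity)
    have : (1 / 2 : ℝ) ^ k ≤ 1 := pow_le_one₀ (by norm_num) (by norm_num)
    linarith
  choose K hK0 hK using hb
  let t : ℕ → ℝ := fun k => (1 / 2 : ℝ) ^ k
  have ht0 : ∀ k, 0 < t k := fun k => by positivity
  have ht1 : ∀ k, t k ≤ 1 := fun k => pow_le_one₀ (by norm_num) (by norm_num)
  let μ : ℕ → ℝ := fun k => t k / (if k = 0 then 1 else K k + 1)
  have hμ0 : ∀ k, 0 < μ k := by
    intro k
    apply div_pos (ht0 k)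
    split_ifs
    · exact one_pos
    · linarith [hK0 k]
  have hμt : ∀ k, μ k ≤ t k := by
    intro k
    apply div_le_self (ht0 k).le
    split_ifs
    · exact le_rfl
    · linarith [hK0 k]
  obtain ⟨hCb1, hCX⟩ := Cb_bounds
  let Cc : ℕ → ℝ := fun k => Cb * (2 - t k)
  let Inv : ℕ → (ℝ → ℝ) × (ℝ → ℂ) × (ℝ → ℂ) → Prop := fun k x =>
    St x.1 ∧ x.2.1 ∈ Ppos ∧ x.2.2 ∈ Pneg ∧ (∀ y, ‖uu x.1 x.2.1 x.2.2 y‖ ≤ μ k) ∧
      RH dl (Cc k) x.1
  let Rel : ℕ → (ℝ → ℝ) × (ℝ → ℂ) × (ℝ → ℂ) → (ℝ → ℝ) × (ℝ → ℂ) × (ℝ → ℂ) → Prop := fun k x z =>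
    (∀ y, ‖z.2.1 y - x.2.1 y‖ ≤ μ k * K k + t k) ∧ (∀ y, ‖z.2.2 y - x.2.2 y‖ ≤ μ k * K k + t k) ∧
      (∀ y, |z.1 y - x.1 y| ≤ t k) ∧
      (∀ n : ℕ, ∫ s in (-(n * (2 * Real.pi)) : ℝ)..(n * (2 * Real.pi)),
        |deriv z.1 s - deriv x.1 s| ≤ t k * (n * (4 * Real.pi)))
  have hstep : ∀ k (x : {x // Inv k x}), ∃ z : {z // Inv (k + 1) z}, Rel k x.1 z.1 := by
    rintro k ⟨⟨h, P, V⟩, hh, hP, hV, hu, hR⟩
    have hCc0 : 0 ≤ Cc k := by
      have := ht1 k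
      show 0 ≤ Cb * (2 - t k)
      nlinarith
    obtain ⟨h', P', V', h1, h2, h3, h4, h5, h6, h7, h8, h9⟩ := lev2_step (ht0 k) (ht1 k)
      (hK k) hh hP hV hu hCc0 hR (hμ0 (k + 1))
    refine ⟨⟨⟨h', P', V'⟩, h1, h2, h3, h4, ?_⟩, h5, h6, h7, h8⟩
    intro x y hxy
    refine RHx_mono h1.strictMono hxy ?_ (h9 x y hxy)
    have htk : t (k + 1) = t k / 2 := by show (1 / 2 : ℝ) ^ (k + 1) = (1 / 2 : ℝ) ^ k / 2; ring
    apply max_le
    · show Cb * (3 / 2) ≤ Cb * (2 - t (k + 1))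
      rw [htk]
      have := ht1 k
      nlinarith
    · show Cb * (2 - t k) * (1 + t k / 4) ≤ Cb * (2 - t (k + 1))
      rw [htk]
      have := ht1 k
      have := ht0 k
      have h10 : (2 - t k) * (1 + t k / 4) ≤ 2 - t k / 2 := by nlinarith
      rw [mul_assoc]
      exact mul_le_mul_of_nonneg_left h10 (by linarith)
  have h0 : Inv 0 ⟨fun y => y, 0, 0⟩ := by
    refine ⟨St_id, Submodule.zero_mem _, Submodule.zero_mem _, fun y => ?_, ?_⟩
    · have : μ 0 = 1 := by show (1 / 2 : ℝ) ^ 0 / (if (0:ℕ) = 0 then 1 else K 0 + 1) = 1; simp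
      rw [this]
      show ‖uu (fun y => y) 0 0 y‖ ≤ 1
      unfold uu; simp
    · have h1 : Cc 0 = Cb := by show Cb * (2 - (1 / 2 : ℝ) ^ 0) = Cb; norm_num
      rw [h1]
      obtain ⟨-, -, -, -, -, -, -, -, C, hC1, hC2, hR⟩ := blk_id (σ := dl) (A := 1) (Cb := 2) (K := 0)
        le_rfl (by norm_num) le_rfl
      intro x y hxy
      show RHx dl Cb (fun y => y) x y
      unfold RHx
      have hyx : 0 < y - x := sub_pos.mpr hxy
      have hd : deriv (fun y : ℝ => y) = fun _ => 1 := by funext; simp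
      rw [hd]
      simp only [Real.one_rpow]
      rw [intervalIntegral.integral_const, smul_eq_mul, mul_one, Real.rpow_add hyx,
        Real.rpow_one]
      have : 0 < (y - x) ^ dl := Real.rpow_pos_of_pos hyx _
      have h2 : 0 < (y - x) * (y - x) ^ dl := by positivity
      nlinarith
  choose next hnext using hstep
  let f : (k : ℕ) → {x // Inv k x} := fun k =>
    Nat.rec (motive := fun k => {x // Inv k x}) ⟨_, h0⟩ (fun k x => next k x) k
  have hf : ∀ k, Rel k (f k).1 (f (k + 1)).1 := fun k => hnext k (f k)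
  let b : ℕ → ℝ := fun k => μ k * K k + t k
  have hbt : ∀ k, t k ≤ b k := fun k => by
    have := mul_nonneg (hμ0 k).le (hK0 k)
    show t k ≤ μ k * K k + t k
    linarith
  have hts : Summable t := summable_geometric_of_lt_one (by norm_num) (by norm_num)
  have hμK : ∀ k, 1 ≤ k → μ k * K k ≤ t k := by
    intro k hk
    have h1 : μ k = t k / (K k + 1) := by
      show t k / (if k = 0 then 1 else K k + 1) = _
      rw [if_neg (by omega)]
    rw [h1, div_mul_eq_mul_div, div_le_iff₀ (by linarith [hK0 k])]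
    have := ht0 k
    nlinarith
  refine ⟨fun k => (f k).1.1, fun k => (f k).1.2.1, fun k => (f k).1.2.2, b, μ, Cb * 2,
    by linarith, ?_, ?_, fun k => (f k).2.1, fun k => (f k).2.2.1, fun k => (f k).2.2.2.1,
    fun k => (f k).2.2.2.2.1, fun k => (hf k).1, fun k => (hf k).2.1,
    fun k y => ((hf k).2.2.1 y).trans (hbt k), fun k n => ((hf k).2.2.2 n).trans ?_, ?_⟩
  · -- summable b
    refine Summable.of_norm_bounded_eventually_nat (g := fun k => 2 * t k) (hts.mul_left 2) ?_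
    filter_upwards [eventually_ge_atTop 1] with k hk
    rw [Real.norm_of_nonneg ((ht0 k).le.trans (hbt k))]
    show μ k * K k + t k ≤ 2 * t k
    linarith [hμK k hk]
  · exact squeeze_zero (fun k => (hμ0 k).le) hμt
      (tendsto_pow_atTop_nhds_zero_of_lt_one (by norm_num) (by norm_num))
  · apply mul_le_mul_of_nonneg_right (hbt k)
    have := Real.pi_pos
    positivity
  · intro k x y hxy
    refine RHx_mono (f k).2.1.strictMono hxy ?_ ((f k).2.2.2.2.2 x y hxy)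
    show Cb * (2 - t k) ≤ Cb * 2
    have := ht0 k
    nlinarith

end

end Pool.Agent.Helper34.Weld
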