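import Pool.Agent.Helper34.Weld.Gmap

set_option autoImplicit false

namespace Pool.Agent.Helper34.Weld

open Complex Set Filter Topology MeasureTheory
open scoped ContDiff Classical

noncomputable section

/-- reverse Hölder inequality on `[x,y]` -/
def RHx (σ C : ℝ) (h : ℝ → ℝ) (x y : ℝ) : Prop :=
  (y - x) ^ σ * ∫ t in x..y, (deriv h t) ^ (1 + σ) ≤ C * (h y - h x) ^ (1 + σ)

def RH (σ C : ℝ) (h : ℝ → ℝ) : Prop := ∀ x y, x < y → RHx σ C h x y

/-- grid points -/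
def gr (M : ℕ) (n : ℤ) : ℝ := n * (2 * Real.pi) / M

lemma gr_mul {M : ℕ} (hM : 1 ≤ M) (n : ℤ) : (M : ℝ) * gr M n = n * (2 * Real.pi) := by
  have hM0 : (0:ℝ) < M := by exact_mod_cast hM
  unfold gr; field_simp

lemma gr_succ {M : ℕ} (n : ℤ) : gr M (n + 1) = gr M n + 2 * Real.pi / M := by
  unfold gr; push_cast; ring

lemma gr_mono {M : ℕ} {m n : ℤ} (h : m ≤ n) : gr M m ≤ gr M n := by
  unfold gr
  have : (m : ℝ) ≤ n := by exact_mod_cast h
  gcongr

lemma flat_deriv {Γ : ℝ → ℝ} {δ : ℝ} (hf : Flat Γ δ) (hΓ : St Γ) (n : ℤ) {y : ℝ}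
    (hy : |y - n * (2 * Real.pi)| < δ) : deriv Γ y = 1 := by
  have h1 : Γ =ᶠ[𝓝 y] fun z => z := by
    have hc : Continuous fun z : ℝ => |z - n * (2 * Real.pi)| := by fun_prop
    filter_upwards [hc.continuousAt.eventually (gt_mem_nhds hy)] with z hz
    exact hf.int hΓ n hz.le
  rw [h1.deriv_eq]
  simp

section G

variable {Γ : ℝ → ℝ} {δ : ℝ} (hf : Flat Γ δ) (hΓ : St Γ) (p : ℤ → Prop) {M : ℕ} (hM : 1 ≤ M)

include hf hΓ hM

lemma Gm_deriv_cell {n : ℤ} {t : ℝ} (h1 : (n : ℝ) * (2 * Real.pi) ≤ M * t)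
    (h2 : M * t ≤ ((n : ℝ) + 1) * (2 * Real.pi)) :
    deriv (Gm Γ p M) t = if p n then deriv Γ (M * t) else 1 := by
  rw [(Gm_hasDeriv hf hΓ p hM t).deriv]
  rcases eq_or_lt_of_le h2 with h | h
  · have e1 : deriv Γ (M * t) = 1 := by
      apply flat_deriv hf hΓ (n + 1)
      rw [h]; push_cast; rw [sub_self, abs_zero]; exact hf.pos
    rw [e1]; simp
  · rw [ci_eq h1 h]

lemma Gm_eq_cell {n : ℤ} {t : ℝ} (h1 : (n : ℝ) * (2 * Real.pi) ≤ M * t)
    (h2 : M * t ≤ ((n : ℝ) + 1) * (2 * Real.pi)) :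
    Gm Γ p M t = if p n then Γ (M * t) / M else t := by
  have hM0 : (0:ℝ) < M := by exact_mod_cast hM
  rcases eq_or_lt_of_le h2 with h | h
  · have e1 : Γ (M * t) / M = t := by
      have := hΓ.int_mul (n + 1)
      push_cast at this
      rw [h, this, ← h]
      field_simp
    unfold Gm
    rw [e1]; simp
  · unfold Gm
    rw [ci_eq h1 h]

lemma Gm_grid (n : ℤ) : Gm Γ p M (gr M n) = gr M n := by
  have hM0 : (0:ℝ) < M := by exact_mod_cast hM
  have h1 := gr_mul hM n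
  rw [Gm_eq_cell hf hΓ p hM h1.ge (by rw [h1]; nlinarith [Real.pi_pos])]
  rw [h1, hΓ.int_mul]
  have : (n : ℝ) * (2 * Real.pi) / M = gr M n := rfl
  rw [this]; simp

lemma Gm_strictMono : StrictMono (Gm Γ p M) := strictMono_of_deriv_pos (Gm_deriv_pos hf hΓ p hM)

lemma Gm_deriv_cont : Continuous (deriv (Gm Γ p M)) :=
  (smooth_deriv (Gm_smooth hf hΓ p hM)).continuous

/-- substitution in a cell -/
lemma Gm_integral_cell (f : ℝ → ℝ) {n : ℤ} {x y : ℝ} (hxy : x ≤ y)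
    (h1 : (n : ℝ) * (2 * Real.pi) ≤ M * x) (h2 : M * y ≤ ((n : ℝ) + 1) * (2 * Real.pi)) :
    ∫ t in x..y, f (deriv (Gm Γ p M) t) =
      if p n then (M : ℝ)⁻¹ * ∫ s in (M * x)..(M * y), f (deriv Γ s) else (y - x) * f 1 := by
  have hM0 : (0:ℝ) < M := by exact_mod_cast hM
  have e1 : ∫ t in x..y, f (deriv (Gm Γ p M) t) =
      ∫ t in x..y, (if p n then f (deriv Γ (M * t)) else f 1) := by
    apply intervalIntegral.integral_congr
    intro t ht
    rw [uIcc_of_le hxy] at ht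
    show f (deriv (Gm Γ p M) t) = _
    rw [Gm_deriv_cell hf hΓ p hM (n := n) (t := t)
      (h1.trans (mul_le_mul_of_nonneg_left ht.1 hM0.le))
      ((mul_le_mul_of_nonneg_left ht.2 hM0.le).trans h2)]
    split_ifs <;> rfl
  rw [e1]
  by_cases h : p n
  · simp only [h, if_true]
    rw [intervalIntegral.integral_comp_mul_left (fun s => f (deriv Γ s)) hM0.ne', smul_eq_mul]
  · simp only [h, if_false]
    rw [intervalIntegral.integral_const, smul_eq_mul]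

/-- reverse Hölder inside a cell -/
lemma Gm_RH_cell {σ C : ℝ} (hC : 1 ≤ C) (hRH : RH σ C Γ) {n : ℤ} {x y : ℝ} (hxy : x < y)
    (h1 : (n : ℝ) * (2 * Real.pi) ≤ M * x) (h2 : M * y ≤ ((n : ℝ) + 1) * (2 * Real.pi)) :
    RHx σ C (Gm Γ p M) x y := by
  have hM0 : (0:ℝ) < M := by exact_mod_cast hM
  have hx2 : M * x ≤ ((n : ℝ) + 1) * (2 * Real.pi) :=
    (mul_le_mul_of_nonneg_left hxy.le hM0.le).trans h2
  have hy1 : (n : ℝ) * (2 * Real.pi) ≤ M * y :=
    h1.trans (mul_le_mul_of_nonneg_left hxy.le hM0.le)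
  unfold RHx
  rw [Gm_integral_cell hf hΓ p hM (fun s => s ^ (1 + σ)) hxy.le h1 h2,
    Gm_eq_cell hf hΓ p hM h1 hx2, Gm_eq_cell hf hΓ p hM hy1 h2]
  have hyx : 0 < y - x := sub_pos.mpr hxy
  by_cases h : p n
  · simp only [h, if_true]
    have h3 := hRH (M * x) (M * y) (mul_lt_mul_of_pos_left hxy hM0)
    unfold RHx at h3
    rw [← mul_sub, Real.mul_rpow hM0.le hyx.le] at h3
    have hΔ : 0 < Γ (M * y) - Γ (M * x) :=
      sub_pos.mpr (hΓ.strictMono (mul_lt_mul_of_pos_left hxy hM0))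
    rw [← sub_div, Real.div_rpow hΔ.le hM0.le, Real.rpow_add hM0, Real.rpow_one]
    have hMσ : 0 < (M : ℝ) ^ σ := Real.rpow_pos_of_pos hM0 _
    set I := ∫ s in (M * x)..(M * y), (deriv Γ s) ^ (1 + σ)
    set D := (Γ (M * y) - Γ (M * x)) ^ (1 + σ)
    have h4 : (y - x) ^ σ * ((M : ℝ)⁻¹ * I) = ((M : ℝ) ^ σ * (y - x) ^ σ * I) / (M * (M : ℝ) ^ σ) := by
      field_simp
    rw [h4, ← mul_div_assoc]
    exact div_le_div_of_nonneg_right h3 (by positivity)
  · simp only [h, if_false]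
    rw [Real.one_rpow, mul_one, Real.rpow_add hyx, Real.rpow_one]
    have : 0 < (y - x) ^ σ := Real.rpow_pos_of_pos hyx _
    nlinarith [mul_pos this hyx]

end G

end

end Pool.Agent.Helper34.Weld
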