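import Pool.Agent.Helper34.Weld.Rh

set_option autoImplicit false

namespace Pool.Agent.Helper34.Weld

open Complex Set Filter Topology MeasureTheory
open scoped ContDiff Classical

noncomputable section

lemma cell_sum {F H : ℝ → ℝ} (hF : ∀ a b, IntervalIntegrable F volume a b)
    (hH : ∀ a b, IntervalIntegrable H volume a b) {M : ℕ}
    (h : ∀ n : ℤ, ∫ t in (gr M n)..(gr M (n + 1)), F t ≤ ∫ t in (gr M n)..(gr M (n + 1)), H t)
    {m n : ℤ} (hmn : m ≤ n) :
    ∫ t in (gr M m)..(gr M n), F t ≤ ∫ t in (gr M m)..(gr M n), H t := by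
  induction n, hmn using Int.leInduction with
  | base => simp
  | succ n _ ih =>
    rw [← intervalIntegral.integral_add_adjacent_intervals (hF _ (gr M n)) (hF _ _),
      ← intervalIntegral.integral_add_adjacent_intervals (hH _ (gr M n)) (hH _ _)]
    exact add_le_add ih (h n)

lemma gr_lt {M : ℕ} (hM : 1 ≤ M) {m n : ℤ} (h : m < n) : gr M m < gr M n := by
  have hM0 : (0:ℝ) < M := by exact_mod_cast hM
  unfold gr
  have : (m : ℝ) < n := by exact_mod_cast h
  have hp : (0:ℝ) < 2 * Real.pi := by positivity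
  gcongr

lemma gr_lt_iff {M : ℕ} (hM : 1 ≤ M) {m n : ℤ} : gr M m < gr M n ↔ m < n := by
  constructor
  · intro h
    by_contra hc
    exact absurd (gr_mono (not_lt.mp hc)) (not_le.mpr h)
  · exact gr_lt hM

lemma le_iff_gr {M : ℕ} (hM : 1 ≤ M) {n : ℤ} {x : ℝ} :
    (n : ℝ) * (2 * Real.pi) ≤ M * x ↔ gr M n ≤ x := by
  have hM0 : (0:ℝ) < M := by exact_mod_cast hM
  rw [← gr_mul hM]
  exact mul_le_mul_iff_right₀ hM0

lemma ge_iff_gr {M : ℕ} (hM : 1 ≤ M) {n : ℤ} {x : ℝ} :
    M * x ≤ (n : ℝ) * (2 * Real.pi) ↔ x ≤ gr M n := by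
  have hM0 : (0:ℝ) < M := by exact_mod_cast hM
  rw [← gr_mul hM]
  exact mul_le_mul_iff_right₀ hM0

lemma gr_ci_le {M : ℕ} (hM : 1 ≤ M) (x : ℝ) : gr M (ci M x) ≤ x := (le_iff_gr hM).mp (ci_le hM x)

lemma lt_gr_ci {M : ℕ} (hM : 1 ≤ M) (x : ℝ) : x < gr M (ci M x + 1) := by
  have h := lt_ci hM x
  have hM0 : (0:ℝ) < M := by exact_mod_cast hM
  have h2 := gr_mul hM (ci M x + 1)
  push_cast at h2
  rw [← h2] at h
  exact lt_of_mul_lt_mul_left h hM0.le

/-- every interval is in one cell or crosses the grid -/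
lemma cell_or_cross {M : ℕ} (hM : 1 ≤ M) (x y : ℝ) :
    (∃ n : ℤ, (n : ℝ) * (2 * Real.pi) ≤ M * x ∧ M * y ≤ ((n : ℝ) + 1) * (2 * Real.pi)) ∨
      ∃ n : ℤ, x ≤ gr M n ∧ gr M n ≤ y := by
  rcases le_or_gt y (gr M (ci M x + 1)) with h | h
  · left
    refine ⟨ci M x, ci_le hM x, ?_⟩
    have := (ge_iff_gr hM).mpr h
    push_cast at this
    exact this
  · right
    exact ⟨ci M x + 1, (lt_gr_ci hM x).le, h.le⟩

section G

variable {Γ : ℝ → ℝ} {δ : ℝ} (hf : Flat Γ δ) (hΓ : St Γ) (p : ℤ → Prop) {M : ℕ} (hM : 1 ≤ M)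
  {σ A : ℝ} (hδ : δ ≤ 1) (hA : 1 ≤ A)
  (hI : ∫ s in (0:ℝ)..(2 * Real.pi), (deriv Γ s) ^ (1 + σ) ≤ 2 * Real.pi * A)

include hf hΓ hM

omit hM in
lemma int_per (f : ℝ → ℝ) (n : ℤ) :
    ∫ s in (n * (2 * Real.pi) : ℝ)..(((n : ℝ) + 1) * (2 * Real.pi)), f (deriv Γ s) =
      ∫ s in (0:ℝ)..(2 * Real.pi), f (deriv Γ s) := by
  have hp : Function.Periodic (fun s => f (deriv Γ s)) (2 * Real.pi) := by
    intro s
    show f (deriv Γ (s + 2 * Real.pi)) = f (deriv Γ s)
    rw [hΓ.per_deriv]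
  have := hp.intervalIntegral_add_eq (n * (2 * Real.pi)) 0
  rw [zero_add] at this
  rw [← this]
  congr 1
  ring

/-- full cell -/
lemma Gm_full (f : ℝ → ℝ) (n : ℤ) :
    ∫ t in (gr M n)..(gr M (n + 1)), f (deriv (Gm Γ p M) t) =
      if p n then (M : ℝ)⁻¹ * ∫ s in (0:ℝ)..(2 * Real.pi), f (deriv Γ s)
      else 2 * Real.pi / M * f 1 := by
  have h1 := gr_mul hM n
  have h2 := gr_mul hM (n + 1)
  push_cast at h2
  rw [Gm_integral_cell hf hΓ p hM f (n := n) (gr_mono (by omega)) h1.ge h2.le, h1, h2,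
    int_per hf hΓ, gr_succ, add_sub_cancel_left]

include hA hI in
lemma Gm_full_le (n : ℤ) :
    ∫ t in (gr M n)..(gr M (n + 1)), (deriv (Gm Γ p M) t) ^ (1 + σ) ≤ A * (2 * Real.pi / M) := by
  have hM0 : (0:ℝ) < M := by exact_mod_cast hM
  rw [Gm_full hf hΓ p hM (fun s => s ^ (1 + σ)) n]
  split_ifs
  · calc (M : ℝ)⁻¹ * ∫ s in (0:ℝ)..(2 * Real.pi), (deriv Γ s) ^ (1 + σ)
        ≤ (M : ℝ)⁻¹ * (2 * Real.pi * A) := mul_le_mul_of_nonneg_left hI (by positivity)
      _ = _ := by ring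
  · rw [Real.one_rpow, mul_one]
    have : 0 < 2 * Real.pi / M := by positivity
    nlinarith

include hδ hA hI in
lemma Gm_near {n : ℤ} {x y : ℝ} (hxy : x ≤ y) (h1 : gr M n ≤ x) (h2 : y ≤ gr M (n + 1))
    (h3 : x = gr M n ∨ y = gr M (n + 1)) :
    (∫ t in x..y, (deriv (Gm Γ p M) t) ^ (1 + σ) ≤ A * (2 * Real.pi / δ) * (y - x)) ∧
      δ / (2 * Real.pi) * (y - x) ≤ Gm Γ p M y - Gm Γ p M x := by
  have hM0 : (0:ℝ) < M := by exact_mod_cast hM
  have hδ0 := hf.pos
  have hpi := Real.pi_gt_three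
  have hD1 : 1 ≤ A * (2 * Real.pi / δ) := by
    have : 1 ≤ 2 * Real.pi / δ := by rw [le_div_iff₀ hδ0]; linarith
    nlinarith
  have hd1 : δ / (2 * Real.pi) ≤ 1 := by rw [div_le_one (by positivity)]; linarith
  have hx1 : (n : ℝ) * (2 * Real.pi) ≤ M * x := (le_iff_gr hM).mpr h1
  have hy2 : M * y ≤ ((n + 1 : ℤ) : ℝ) * (2 * Real.pi) := (ge_iff_gr hM).mpr h2
  push_cast at hy2
  have hcont : Continuous fun t => (deriv (Gm Γ p M) t) ^ (1 + σ) := by
    have := Gm_deriv_cont hf hΓ p hM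
    exact this.rpow_const (fun t => Or.inl (Gm_deriv_pos hf hΓ p hM t).ne')
  have hder : ∀ t, HasDerivAt (Gm Γ p M) (deriv (Gm Γ p M) t) t :=
    smooth_hasDerivAt (Gm_smooth hf hΓ p hM)
  have hFTC : ∀ a b, Gm Γ p M b - Gm Γ p M a = ∫ t in a..b, deriv (Gm Γ p M) t := fun a b =>
    (intervalIntegral.integral_eq_sub_of_hasDerivAt (fun t _ => hder t)
      ((Gm_deriv_cont hf hΓ p hM).intervalIntegrable _ _)).symm
  rcases lt_or_ge (M * (y - x)) δ with hc | hc
  · -- the map is the identity here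
    have hone : ∀ t ∈ Icc x y, deriv (Gm Γ p M) t = 1 := by
      intro t ht
      have e1 : M * x ≤ M * t := mul_le_mul_of_nonneg_left ht.1 hM0.le
      have e2 : M * t ≤ M * y := mul_le_mul_of_nonneg_left ht.2 hM0.le
      rw [Gm_deriv_cell hf hΓ p hM (hx1.trans e1) (e2.trans hy2)]
      rw [mul_sub] at hc
      have : deriv Γ (M * t) = 1 := by
        rcases h3 with h3 | h3
        · apply flat_deriv hf hΓ n
          rw [← gr_mul hM n, ← h3, abs_of_nonneg (by linarith)]
          linarith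
        · apply flat_deriv hf hΓ (n + 1)
          rw [← gr_mul hM (n + 1), ← h3, abs_of_nonpos (by linarith)]
          linarith
      rw [this]; simp
    constructor
    · have : ∫ t in x..y, (deriv (Gm Γ p M) t) ^ (1 + σ) = ∫ t in x..y, (1:ℝ) := by
        apply intervalIntegral.integral_congr
        intro t ht
        rw [uIcc_of_le hxy] at ht
        show (deriv (Gm Γ p M) t) ^ (1 + σ) = 1
        rw [hone t ht, Real.one_rpow]
      rw [this, intervalIntegral.integral_const, smul_eq_mul, mul_one]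
      nlinarith
    · rw [hFTC]
      have : ∫ t in x..y, deriv (Gm Γ p M) t = ∫ t in x..y, (1:ℝ) := by
        apply intervalIntegral.integral_congr
        intro t ht
        rw [uIcc_of_le hxy] at ht
        exact hone t ht
      rw [this, intervalIntegral.integral_const, smul_eq_mul, mul_one]
      nlinarith
  · have hyx : δ / M ≤ y - x := by rw [div_le_iff₀ hM0]; linarith
    have hyx2 : y - x ≤ 2 * Real.pi / M := by rw [gr_succ] at h2; linarith
    constructor
    · have e1 : ∫ t in x..y, (deriv (Gm Γ p M) t) ^ (1 + σ) ≤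
          ∫ t in (gr M n)..(gr M (n + 1)), (deriv (Gm Γ p M) t) ^ (1 + σ) := by
        apply intervalIntegral.integral_mono_interval h1 hxy h2 _ (hcont.intervalIntegrable _ _)
        filter_upwards with t
        exact Real.rpow_nonneg (Gm_deriv_pos hf hΓ p hM t).le _
      refine e1.trans ((Gm_full_le hf hΓ p hM hA hI n).trans ?_)
      have e2 : 2 * Real.pi / (M : ℝ) = 2 * Real.pi / δ * (δ / M) := by field_simp
      rw [e2, mul_assoc A]
      apply mul_le_mul_of_nonneg_left _ (by linarith)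
      exact mul_le_mul_of_nonneg_left hyx (by positivity)
    · -- lower bound by the identity piece
      have hkey : δ / M ≤ Gm Γ p M y - Gm Γ p M x := by
        have hmono := (Gm_strictMono hf hΓ p hM).monotone
        rcases h3 with h3 | h3
        · -- x = gr n
          have e1 : Gm Γ p M x = x := by rw [h3]; exact Gm_grid hf hΓ p hM n
          have e2 : Gm Γ p M (x + δ / M) = x + δ / M := by
            have e3 : (n : ℝ) * (2 * Real.pi) ≤ M * (x + δ / M) :=
              hx1.trans (mul_le_mul_of_nonneg_left (by linarith [div_pos hδ0 hM0]) hM0.le)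
            have e4 : M * (x + δ / M) ≤ ((n : ℝ) + 1) * (2 * Real.pi) :=
              (mul_le_mul_of_nonneg_left (by linarith) hM0.le).trans hy2
            rw [Gm_eq_cell hf hΓ p hM e3 e4]
            have e5 : Γ (M * (x + δ / M)) = M * (x + δ / M) := by
              apply hf.int hΓ n
              rw [mul_add, mul_div_cancel₀ _ hM0.ne', h3, gr_mul hM, add_sub_cancel_left,
                abs_of_pos hδ0]
            rw [e5, mul_div_cancel_left₀ _ hM0.ne']; simp
          have e6 := hmono (show x + δ / M ≤ y by linarith)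
          rw [e2] at e6
          rw [e1]; linarith
        · have e1 : Gm Γ p M y = y := by rw [h3]; exact Gm_grid hf hΓ p hM (n + 1)
          have e2 : Gm Γ p M (y - δ / M) = y - δ / M := by
            have e3 : (n : ℝ) * (2 * Real.pi) ≤ M * (y - δ / M) :=
              hx1.trans (mul_le_mul_of_nonneg_left (by linarith) hM0.le)
            have e4 : M * (y - δ / M) ≤ ((n : ℝ) + 1) * (2 * Real.pi) :=
              (mul_le_mul_of_nonneg_left (by linarith [div_pos hδ0 hM0]) hM0.le).trans hy2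
            rw [Gm_eq_cell hf hΓ p hM e3 e4]
            have e5 : Γ (M * (y - δ / M)) = M * (y - δ / M) := by
              apply hf.int hΓ (n + 1)
              rw [mul_sub, mul_div_cancel₀ _ hM0.ne', h3, gr_mul hM]
              rw [show ((n + 1 : ℤ) : ℝ) * (2 * Real.pi) - δ - ((n + 1 : ℤ) : ℝ) * (2 * Real.pi) =
                -δ by ring, abs_neg, abs_of_pos hδ0]
            rw [e5, mul_div_cancel_left₀ _ hM0.ne']; simp
          have e6 := hmono (show x ≤ y - δ / M by linarith)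
          rw [e2] at e6
          rw [e1]; linarith
      refine le_trans ?_ hkey
      have e2 : δ / (M : ℝ) = δ / (2 * Real.pi) * (2 * Real.pi / M) := by field_simp
      rw [e2]
      exact mul_le_mul_of_nonneg_left hyx2 (by positivity)

include hδ hA hI in
/-- crossing a grid point -/
lemma Gm_cross {n : ℤ} {x y : ℝ} (hxn : x ≤ gr M n) (hny : gr M n ≤ y) :
    (∫ t in x..y, (deriv (Gm Γ p M) t) ^ (1 + σ) ≤ A * (2 * Real.pi / δ) * (y - x)) ∧
      δ / (2 * Real.pi) * (y - x) ≤ Gm Γ p M y - Gm Γ p M x := by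
  have hM0 : (0:ℝ) < M := by exact_mod_cast hM
  have hδ0 := hf.pos
  have hpi := Real.pi_gt_three
  have hd1 : δ / (2 * Real.pi) ≤ 1 := by rw [div_le_one (by positivity)]; linarith
  have hcont : Continuous fun t => (deriv (Gm Γ p M) t) ^ (1 + σ) := by
    have := Gm_deriv_cont hf hΓ p hM
    exact this.rpow_const (fun t => Or.inl (Gm_deriv_pos hf hΓ p hM t).ne')
  have hxy := hxn.trans hny
  set a := ci M x with ha
  set b := ci M y with hb
  have ha1 := gr_ci_le hM x
  have ha2 := lt_gr_ci hM x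
  have hb1 := gr_ci_le hM y
  have hb2 := lt_gr_ci hM y
  rw [← ha] at ha1 ha2
  rw [← hb] at hb1 hb2
  have hab : a ≤ b := by
    have : gr M a < gr M (b + 1) := lt_of_le_of_lt (ha1.trans hxy) hb2
    have := (gr_lt_iff hM).mp this
    omega
  rcases eq_or_lt_of_le hab with hab' | hab'
  · -- same cell
    have h1 : gr M a ≤ gr M n := ha1.trans hxn
    have h2 : gr M n < gr M (a + 1) := by rw [hab']; exact lt_of_le_of_lt hny hb2
    have h3 : n = a := by
      have h4 := (gr_lt_iff hM).mp h2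
      have h5 : ¬ n < a := fun h => absurd ((gr_lt_iff hM).mpr h) (not_lt.mpr h1)
      omega
    have h4 : x = gr M a := le_antisymm (by rw [← h3]; exact hxn) ha1
    exact Gm_near hf hΓ p hM hδ hA hI hxy ha1 (by rw [hab']; exact hb2.le) (Or.inl h4)
  · have hmid : gr M (a + 1) ≤ gr M b := gr_mono (by omega)
    obtain ⟨u1, l1⟩ := Gm_near hf hΓ p hM hδ hA hI ha2.le ha1 le_rfl (Or.inr rfl)
    obtain ⟨u3, l3⟩ := Gm_near hf hΓ p hM hδ hA hI hb1 le_rfl hb2.le (Or.inl rfl)
    have hD1 : 1 ≤ 2 * Real.pi / δ := by rw [le_div_iff₀ hδ0]; linarith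
    have u2 : ∫ t in (gr M (a + 1))..(gr M b), (deriv (Gm Γ p M) t) ^ (1 + σ) ≤
        A * (2 * Real.pi / δ) * (gr M b - gr M (a + 1)) := by
      have := cell_sum (F := fun t => (deriv (Gm Γ p M) t) ^ (1 + σ))
        (H := fun _ => A * (2 * Real.pi / δ)) (fun _ _ => hcont.intervalIntegrable _ _)
        (fun _ _ => intervalIntegrable_const) (M := M) (fun k => by
          refine (Gm_full_le hf hΓ p hM hA hI k).trans ?_
          rw [intervalIntegral.integral_const, smul_eq_mul, gr_succ, add_sub_cancel_left]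
          have : 0 < 2 * Real.pi / M := by positivity
          have h5 : A ≤ A * (2 * Real.pi / δ) := by nlinarith
          nlinarith) (show a + 1 ≤ b by omega)
      rw [intervalIntegral.integral_const, smul_eq_mul] at this
      linarith
    rw [Gm_grid hf hΓ p hM] at l1 l3
    constructor
    · rw [← intervalIntegral.integral_add_adjacent_intervals
        (hcont.intervalIntegrable x (gr M (a + 1))) (hcont.intervalIntegrable _ _),
        ← intervalIntegral.integral_add_adjacent_intervals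
        (hcont.intervalIntegrable (gr M (a + 1)) (gr M b)) (hcont.intervalIntegrable _ _)]
      linarith
    · have : δ / (2 * Real.pi) * (gr M b - gr M (a + 1)) ≤ gr M b - gr M (a + 1) := by
        nlinarith [sub_nonneg.mpr hmid]
      linarith

/-- the crossing constant -/
def CX (A δ σ : ℝ) : ℝ := A * (2 * Real.pi / δ) * (2 * Real.pi / δ) ^ (1 + σ)

include hδ hA hI in
lemma Gm_RH_cross (hσ : 0 ≤ σ) {n : ℤ} {x y : ℝ} (hxy : x < y) (hxn : x ≤ gr M n)
    (hny : gr M n ≤ y) : RHx σ (CX A δ σ) (Gm Γ p M) x y := by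
  obtain ⟨h1, h2⟩ := Gm_cross hf hΓ p hM hδ hA hI hxn hny
  have hδ0 := hf.pos
  have hyx : 0 < y - x := sub_pos.mpr hxy
  unfold RHx CX
  have e1 : (y - x) ^ σ * ∫ t in x..y, (deriv (Gm Γ p M) t) ^ (1 + σ) ≤
      (y - x) ^ σ * (A * (2 * Real.pi / δ) * (y - x)) :=
    mul_le_mul_of_nonneg_left h1 (Real.rpow_nonneg hyx.le _)
  refine e1.trans ?_
  have e2 : (y - x) ≤ 2 * Real.pi / δ * (Gm Γ p M y - Gm Γ p M x) := by
    have : 2 * Real.pi / δ * (δ / (2 * Real.pi) * (y - x)) ≤
        2 * Real.pi / δ * (Gm Γ p M y - Gm Γ p M x) := mul_le_mul_of_nonneg_left h2 (by positivity)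
    have e3 : 2 * Real.pi / δ * (δ / (2 * Real.pi) * (y - x)) = y - x := by field_simp
    linarith
  have hG : 0 ≤ Gm Γ p M y - Gm Γ p M x :=
    (sub_pos.mpr (Gm_strictMono hf hΓ p hM hxy)).le
  have e4 : (y - x) ^ σ * (y - x) = (y - x) ^ (1 + σ) := by
    rw [Real.rpow_add hyx, Real.rpow_one, mul_comm]
  have e5 : (y - x) ^ (1 + σ) ≤ (2 * Real.pi / δ) ^ (1 + σ) * (Gm Γ p M y - Gm Γ p M x) ^ (1 + σ) := by
    rw [← Real.mul_rpow (by positivity) hG]
    exact Real.rpow_le_rpow hyx.le e2 (by linarith)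
  calc (y - x) ^ σ * (A * (2 * Real.pi / δ) * (y - x)) =
      A * (2 * Real.pi / δ) * ((y - x) ^ σ * (y - x)) := by ring
    _ ≤ A * (2 * Real.pi / δ) *
        ((2 * Real.pi / δ) ^ (1 + σ) * (Gm Γ p M y - Gm Γ p M x) ^ (1 + σ)) := by
        rw [e4]
        exact mul_le_mul_of_nonneg_left e5 (by positivity)
    _ = _ := by ring

end G

end

end Pool.Agent.Helper34.Weld
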