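import Pool.Agent.Helper34.Weld.Rh2

set_option autoImplicit false

namespace Pool.Agent.Helper34.Weld

open Complex Set Filter Topology MeasureTheory
open scoped ContDiff Classical

noncomputable section

lemma smooth_ftc {h : ℝ → ℝ} (hh : ContDiff ℝ ∞ h) (a b : ℝ) :
    h b - h a = ∫ t in a..b, deriv h t :=
  (intervalIntegral.integral_eq_sub_of_hasDerivAt (fun t _ => smooth_hasDerivAt hh t)
    ((smooth_deriv hh).continuous.intervalIntegrable _ _)).symm

lemma smooth_lower {h : ℝ → ℝ} (hh : ContDiff ℝ ∞ h) {a b l : ℝ} (hab : a ≤ b)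
    (hl : ∀ t ∈ Icc a b, l ≤ deriv h t) : l * (b - a) ≤ h b - h a := by
  rw [smooth_ftc hh]
  have h1 : ∫ t in a..b, l ≤ ∫ t in a..b, deriv h t :=
    intervalIntegral.integral_mono_on hab intervalIntegrable_const
      ((smooth_deriv hh).continuous.intervalIntegrable _ _) hl
  rw [intervalIntegral.integral_const, smul_eq_mul] at h1
  linarith

lemma smooth_upper {h : ℝ → ℝ} (hh : ContDiff ℝ ∞ h) {a b l : ℝ} (hab : a ≤ b)
    (hl : ∀ t ∈ Icc a b, deriv h t ≤ l) : h b - h a ≤ l * (b - a) := by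
  rw [smooth_ftc hh]
  have h1 : ∫ t in a..b, deriv h t ≤ ∫ t in a..b, l :=
    intervalIntegral.integral_mono_on hab
      ((smooth_deriv hh).continuous.intervalIntegrable _ _) intervalIntegrable_const hl
  rw [intervalIntegral.integral_const, smul_eq_mul] at h1
  linarith

lemma St.bounds {h : ℝ → ℝ} (hh : St h) :
    ∃ l₁ l₂ : ℝ, 0 < l₁ ∧ l₁ ≤ l₂ ∧ ∀ t, l₁ ≤ deriv h t ∧ deriv h t ≤ l₂ := by
  have hc := (smooth_deriv hh.smooth).continuous
  obtain ⟨B, hB0, hB⟩ := per_bdd hc hh.per_deriv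
  have hc2 : Continuous fun t => (deriv h t)⁻¹ := hc.inv₀ (fun t => (hh.pos t).ne')
  obtain ⟨B', hB0', hB'⟩ := per_bdd hc2 (fun y => by rw [hh.per_deriv])
  have h1 : ∀ t, (B' + 1)⁻¹ ≤ deriv h t ∧ deriv h t ≤ B := by
    intro t
    constructor
    · have h2 := hB' t
      rw [Real.norm_eq_abs, abs_of_pos (inv_pos.mpr (hh.pos t))] at h2
      rw [inv_le_comm₀ (by positivity) (hh.pos t)]
      linarith
    · exact (le_abs_self _).trans (hB t)
  exact ⟨(B' + 1)⁻¹, B, by positivity, (h1 0).1.trans (h1 0).2, h1⟩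

lemma St.ratio {h : ℝ → ℝ} (hh : St h) {θ : ℝ} (hθ : 0 < θ) :
    ∃ r : ℝ, 0 < r ∧ ∀ s t, |s - t| ≤ r → deriv h s ≤ (1 + θ) * deriv h t := by
  obtain ⟨l₁, l₂, h0, -, h1⟩ := hh.bounds
  obtain ⟨r, hr, hu⟩ := per_unif (smooth_deriv hh.smooth).continuous hh.per_deriv
    (η := θ * l₁) (by positivity)
  refine ⟨r, hr, fun s t hst => ?_⟩
  have h2 := hu s t hst
  rw [Real.norm_eq_abs, abs_le] at h2
  nlinarith [(h1 t).1, h2.2]

lemma deriv_comp' {h G : ℝ → ℝ} (hh : ContDiff ℝ ∞ h) (hG : ContDiff ℝ ∞ G) (t : ℝ) :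
    deriv (fun y => h (G y)) t = deriv h (G t) * deriv G t :=
  ((smooth_hasDerivAt hh (G t)).comp t (smooth_hasDerivAt hG t)).deriv

lemma rpow_cont {G : ℝ → ℝ} (hG : ContDiff ℝ ∞ G) (hpos : ∀ t, 0 < deriv G t) (q : ℝ) :
    Continuous fun t => (deriv G t) ^ q :=
  (smooth_deriv hG).continuous.rpow_const (fun t => Or.inl (hpos t).ne')

lemma comp_st {h G : ℝ → ℝ} (hh : St h) (hG : St G) : St (fun y => h (G y)) where
  smooth := hh.smooth.comp hG.smooth
  per := fun y => by rw [hG.per, hh.per]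
  zero := by rw [hG.zero, hh.zero]
  pos := fun y => by
    rw [deriv_comp' hh.smooth hG.smooth]
    exact mul_pos (hh.pos _) (hG.pos _)

lemma RHx_comp {σ C R l : ℝ} (hσ : 0 ≤ σ) (hC : 0 ≤ C) {h G : ℝ → ℝ} (hh : ContDiff ℝ ∞ h)
    (hhp : ∀ t, 0 < deriv h t) (hG : ContDiff ℝ ∞ G) (hGp : ∀ t, 0 < deriv G t) {x y : ℝ}
    (hxy : x < y) (hl : 0 < l) (hR : 0 < R)
    (hlR : ∀ s ∈ Icc (G x) (G y), l ≤ deriv h s ∧ deriv h s ≤ R * l) (hRH : RHx σ C G x y) :
    RHx σ (C * R ^ (1 + σ)) (fun y => h (G y)) x y := by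
  have hmono : StrictMono G := strictMono_of_deriv_pos hGp
  have hcG := rpow_cont hG hGp (1 + σ)
  have hcc : Continuous fun t => (deriv (fun y => h (G y)) t) ^ (1 + σ) :=
    rpow_cont (hh.comp hG) (fun t => by
      show 0 < deriv (fun y => h (G y)) t
      rw [deriv_comp' hh hG]; exact mul_pos (hhp _) (hGp _)) _
  unfold RHx at hRH ⊢
  have h1 : ∫ t in x..y, (deriv (fun y => h (G y)) t) ^ (1 + σ) ≤
      ∫ t in x..y, (R * l) ^ (1 + σ) * (deriv G t) ^ (1 + σ) := by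
    apply intervalIntegral.integral_mono_on hxy.le (hcc.intervalIntegrable _ _)
      ((continuous_const.mul hcG).intervalIntegrable _ _)
    intro t ht
    rw [deriv_comp' hh hG, Real.mul_rpow (hhp _).le (hGp _).le]
    apply mul_le_mul_of_nonneg_right _ (Real.rpow_nonneg (hGp _).le _)
    apply Real.rpow_le_rpow (hhp _).le _ (by linarith)
    exact (hlR (G t) ⟨hmono.monotone ht.1, hmono.monotone ht.2⟩).2
  rw [intervalIntegral.integral_const_mul] at h1
  have hΔ : 0 ≤ G y - G x := (sub_pos.mpr (hmono hxy)).le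
  have h2 : l * (G y - G x) ≤ h (G y) - h (G x) :=
    smooth_lower hh (hmono hxy).le (fun t ht => (hlR t ht).1)
  have h3 : (l * (G y - G x)) ^ (1 + σ) ≤ (h (G y) - h (G x)) ^ (1 + σ) :=
    Real.rpow_le_rpow (by positivity) h2 (by linarith)
  have hyx : 0 ≤ (y - x) ^ σ := Real.rpow_nonneg (sub_pos.mpr hxy).le _
  have hRl : 0 ≤ (R * l) ^ (1 + σ) := Real.rpow_nonneg (by positivity) _
  have hR' : 0 ≤ R ^ (1 + σ) := Real.rpow_nonneg hR.le _
  calc (y - x) ^ σ * ∫ t in x..y, (deriv (fun y => h (G y)) t) ^ (1 + σ)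
      ≤ (y - x) ^ σ * ((R * l) ^ (1 + σ) * ∫ t in x..y, (deriv G t) ^ (1 + σ)) :=
        mul_le_mul_of_nonneg_left h1 hyx
    _ = (R * l) ^ (1 + σ) * ((y - x) ^ σ * ∫ t in x..y, (deriv G t) ^ (1 + σ)) := by ring
    _ ≤ (R * l) ^ (1 + σ) * (C * (G y - G x) ^ (1 + σ)) := mul_le_mul_of_nonneg_left hRH hRl
    _ = C * R ^ (1 + σ) * (l * (G y - G x)) ^ (1 + σ) := by
        rw [Real.mul_rpow hR.le hl.le, Real.mul_rpow hl.le hΔ]; ring
    _ ≤ C * R ^ (1 + σ) * (h (G y) - h (G x)) ^ (1 + σ) :=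
        mul_le_mul_of_nonneg_left h3 (by positivity)

section G

variable {Γ : ℝ → ℝ} {δ : ℝ} (hf : Flat Γ δ) (hΓ : St Γ) (p : ℤ → Prop) {M : ℕ} (hM : 1 ≤ M)
  {h : ℝ → ℝ} (hh : St h) {θ : ℝ} (hθ : 0 < θ)
  (hr : ∀ s t, |s - t| ≤ 2 * Real.pi / M → deriv h s ≤ (1 + θ) * deriv h t)

include hf hΓ hM hh hθ hr

/-- on a cell, `h'` is nearly constant, including at the moved points -/
lemma cell_near {n : ℤ} {t : ℝ} (ht : t ∈ Icc (gr M n) (gr M (n + 1))) :
    (deriv h (Gm Γ p M t) ≤ (1 + θ) * deriv h (gr M n)) ∧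
    (deriv h (gr M n) ≤ (1 + θ) * deriv h (Gm Γ p M t)) ∧
    (deriv h t ≤ (1 + θ) * deriv h (gr M n)) ∧
    (deriv h (gr M n) ≤ (1 + θ) * deriv h t) := by
  have hmono := (Gm_strictMono hf hΓ p hM).monotone
  have h1 := hmono ht.1
  have h2 := hmono ht.2
  rw [Gm_grid hf hΓ p hM] at h1 h2
  have h3 : gr M (n + 1) - gr M n = 2 * Real.pi / M := by rw [gr_succ]; ring
  have h4 : |Gm Γ p M t - gr M n| ≤ 2 * Real.pi / M := by
    rw [abs_of_nonneg (by linarith)]; linarith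
  have h5 : |t - gr M n| ≤ 2 * Real.pi / M := by
    rw [abs_of_nonneg (by linarith [ht.1])]; linarith [ht.2]
  refine ⟨hr _ _ h4, ?_, hr _ _ h5, ?_⟩
  · apply hr; rw [abs_sub_comm]; exact h4
  · apply hr; rw [abs_sub_comm]; exact h5

/-- the `p`-mean over cells -/
lemma comp_mean {σ A : ℝ} (hσ : 0 ≤ σ) (hA : 1 ≤ A)
    (hI : ∫ s in (0:ℝ)..(2 * Real.pi), (deriv Γ s) ^ (1 + σ) ≤ 2 * Real.pi * A) {m n : ℤ}
    (hmn : m ≤ n) :
    ∫ t in (gr M m)..(gr M n), (deriv (fun y => h (Gm Γ p M y)) t) ^ (1 + σ) ≤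
      (1 + θ) ^ (2 * (1 + σ)) * ∫ t in (gr M m)..(gr M n),
        (if p (ci M t) then A else 1) * (deriv h t) ^ (1 + σ) := by
  have hM0 : (0:ℝ) < M := by exact_mod_cast hM
  have hGs := Gm_smooth hf hΓ p hM
  have hGp := Gm_deriv_pos hf hΓ p hM
  have hcG := rpow_cont hGs hGp (1 + σ)
  have hch := rpow_cont hh.smooth hh.pos (1 + σ)
  have hcc : Continuous fun t => (deriv (fun y => h (Gm Γ p M y)) t) ^ (1 + σ) :=
    rpow_cont (hh.smooth.comp hGs) (fun t => by
      show 0 < deriv (fun y => h (Gm Γ p M y)) t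
      rw [deriv_comp' hh.smooth hGs]; exact mul_pos (hh.pos _) (hGp _)) _
  have hmeas : Measurable fun t : ℝ => (if p (ci M t) then A else 1) * (deriv h t) ^ (1 + σ) := by
    apply Measurable.mul _ hch.measurable
    apply Measurable.ite _ measurable_const measurable_const
    have : Measurable (ci M) := by
      unfold ci
      exact Int.measurable_floor.comp (by fun_prop)
    exact this (MeasurableSet.of_discrete (s := {n | p n}))
  have hH : ∀ a b, IntervalIntegrable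
      (fun t : ℝ => (if p (ci M t) then A else 1) * (deriv h t) ^ (1 + σ)) volume a b := by
    intro a b
    have hAc : Continuous fun t => A * (deriv h t) ^ (1 + σ) := continuous_const.mul hch
    apply (hAc.intervalIntegrable a b).mono_fun' hmeas.aestronglyMeasurable
    filter_upwards with t
    have h0 := Real.rpow_nonneg (hh.pos t).le (1 + σ)
    rw [Real.norm_eq_abs, abs_mul, abs_of_nonneg h0]
    apply mul_le_mul_of_nonneg_right _ h0
    split_ifs
    · rw [abs_of_pos (by linarith)]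
    · rw [abs_one]; exact hA
  rw [← intervalIntegral.integral_const_mul]
  apply cell_sum (fun _ _ => hcc.intervalIntegrable _ _) (fun a b => (hH a b).const_mul _) _ hmn
  intro k
  have hk : gr M k ≤ gr M (k + 1) := gr_mono (by omega)
  have hk2 : gr M (k + 1) - gr M k = 2 * Real.pi / M := by rw [gr_succ]; ring
  set μ := deriv h (gr M k) with hμ
  have hμ0 : 0 < μ := hh.pos _
  have hθ1 : 0 < 1 + θ := by linarith
  -- upper bound
  have h1 : ∫ t in (gr M k)..(gr M (k + 1)), (deriv (fun y => h (Gm Γ p M y)) t) ^ (1 + σ) ≤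
      ∫ t in (gr M k)..(gr M (k + 1)), ((1 + θ) * μ) ^ (1 + σ) * (deriv (Gm Γ p M) t) ^ (1 + σ) := by
    apply intervalIntegral.integral_mono_on hk (hcc.intervalIntegrable _ _)
      ((continuous_const.mul hcG).intervalIntegrable _ _)
    intro t ht
    rw [deriv_comp' hh.smooth hGs, Real.mul_rpow (hh.pos _).le (hGp _).le]
    apply mul_le_mul_of_nonneg_right _ (Real.rpow_nonneg (hGp _).le _)
    apply Real.rpow_le_rpow (hh.pos _).le _ (by linarith)
    exact (cell_near hf hΓ p hM hh hθ hr ht).1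
  rw [intervalIntegral.integral_const_mul] at h1
  have h2 : ∫ t in (gr M k)..(gr M (k + 1)), (deriv (Gm Γ p M) t) ^ (1 + σ) ≤
      (if p k then A else 1) * (2 * Real.pi / M) := by
    rw [Gm_full hf hΓ p hM (fun s => s ^ (1 + σ)) k]
    split_ifs
    · calc (M : ℝ)⁻¹ * ∫ s in (0:ℝ)..(2 * Real.pi), (deriv Γ s) ^ (1 + σ)
          ≤ (M : ℝ)⁻¹ * (2 * Real.pi * A) := mul_le_mul_of_nonneg_left hI (by positivity)
        _ = _ := by ring
    · rw [Real.one_rpow, mul_one, one_mul]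
  -- lower bound
  have h3 : ∫ t in (gr M k)..(gr M (k + 1)), (1 + θ) ^ (2 * (1 + σ)) *
        ((if p k then A else 1) * (μ / (1 + θ)) ^ (1 + σ)) ≤
      ∫ t in (gr M k)..(gr M (k + 1)), (1 + θ) ^ (2 * (1 + σ)) *
        ((if p (ci M t) then A else 1) * (deriv h t) ^ (1 + σ)) := by
    apply intervalIntegral.integral_mono_on_of_le_Ioo hk intervalIntegrable_const
      ((hH _ _).const_mul _)
    intro t ht
    have hci : ci M t = k := by
      apply ci_eq ((le_iff_gr hM).mpr ht.1.le)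
      have h4 := gr_mul hM (k + 1)
      push_cast at h4
      rw [← h4]
      exact mul_lt_mul_of_pos_left ht.2 hM0
    rw [hci]
    apply mul_le_mul_of_nonneg_left _ (Real.rpow_nonneg hθ1.le _)
    apply mul_le_mul_of_nonneg_left _ (by split_ifs <;> linarith)
    apply Real.rpow_le_rpow (by positivity) _ (by linarith)
    rw [div_le_iff₀ hθ1, mul_comm]
    exact (cell_near hf hΓ p hM hh hθ hr ⟨ht.1.le, ht.2.le⟩).2.2.2
  refine le_trans ?_ h3
  rw [intervalIntegral.integral_const, smul_eq_mul, hk2]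
  have h4 : (1 + θ) ^ (2 * (1 + σ)) * (μ / (1 + θ)) ^ (1 + σ) = ((1 + θ) * μ) ^ (1 + σ) := by
    rw [Real.rpow_mul hθ1.le, ← Real.mul_rpow (by positivity) (by positivity)]
    congr 1
    rw [Real.rpow_two]
    field_simp
  have h5 : 0 ≤ ((1 + θ) * μ) ^ (1 + σ) := Real.rpow_nonneg (by positivity) _
  calc _ ≤ ((1 + θ) * μ) ^ (1 + σ) * ((if p k then A else 1) * (2 * Real.pi / M)) :=
        h1.trans (mul_le_mul_of_nonneg_left h2 h5)
    _ = (2 * Real.pi / M) * ((1 + θ) ^ (2 * (1 + σ)) *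
          ((if p k then A else 1) * (μ / (1 + θ)) ^ (1 + σ))) := by
        rw [← h4]; ring

end G

end

end Pool.Agent.Helper34.Weld
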