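import Pool.Agent.Helper34.Weld.Rh3

set_option autoImplicit false

namespace Pool.Agent.Helper34.Weld

open Complex Set Filter Topology MeasureTheory
open scoped ContDiff Classical

noncomputable section

lemma exists_M {r : ℝ} (hr : 0 < r) : ∃ M₀ : ℕ, 1 ≤ M₀ ∧ ∀ M : ℕ, M₀ ≤ M → 2 * Real.pi / M ≤ r := by
  obtain ⟨M₀, hM₀⟩ := exists_nat_ge (2 * Real.pi / r)
  refine ⟨M₀ + 1, by omega, fun M hM => ?_⟩
  have hM0 : (0:ℝ) < M := by exact_mod_cast (by omega : 0 < M)
  rw [div_le_iff₀ hM0]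
  have h1 : (M₀ : ℝ) ≤ M := by exact_mod_cast (by omega : M₀ ≤ M)
  have h2 := hM₀.trans h1
  rw [div_le_iff₀ hr] at h2
  linarith

section G

variable {Γ : ℝ → ℝ} {δ : ℝ} (hf : Flat Γ δ) (hΓ : St Γ) (p : ℤ → Prop) {M : ℕ} (hM : 1 ≤ M)
  {h : ℝ → ℝ} (hh : St h) {θ : ℝ} (hθ : 0 < θ)
  (hr : ∀ s t, |s - t| ≤ 2 * Real.pi / M → deriv h s ≤ (1 + θ) * deriv h t)

include hf hΓ hM hh hθ hr

lemma comp_L1 {κ : ℝ} (hθ1 : θ ≤ 1)
    (hK : ∫ s in (0:ℝ)..(2 * Real.pi), |deriv Γ s - 1| ≤ 2 * Real.pi * κ) {m n : ℤ}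
    (hmn : m ≤ n) :
    ∫ t in (gr M m)..(gr M n), |deriv (fun y => h (Gm Γ p M y)) t - deriv h t| ≤
      (4 * θ + 4 * κ) * ∫ t in (gr M m)..(gr M n), deriv h t := by
  have hM0 : (0:ℝ) < M := by exact_mod_cast hM
  have hGs := Gm_smooth hf hΓ p hM
  have hGp := Gm_deriv_pos hf hΓ p hM
  have hcG := Gm_deriv_cont hf hΓ p hM
  have hch := (smooth_deriv hh.smooth).continuous
  have hcc : Continuous fun t => |deriv (fun y => h (Gm Γ p M y)) t - deriv h t| := by
    have := (smooth_deriv (hh.smooth.comp hGs)).continuous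
    exact (this.sub hch).abs
  rw [← intervalIntegral.integral_const_mul]
  apply cell_sum (fun _ _ => hcc.intervalIntegrable _ _)
    (fun a b => (hch.intervalIntegrable _ _).const_mul _) _ hmn
  intro k
  have hk : gr M k ≤ gr M (k + 1) := gr_mono (by omega)
  have hk2 : gr M (k + 1) - gr M k = 2 * Real.pi / M := by rw [gr_succ]; ring
  set μ := deriv h (gr M k) with hμ
  have hμ0 : 0 < μ := hh.pos _
  have hℓ : 0 < 2 * Real.pi / M := by positivity
  have hκ0 : 0 ≤ κ := by
    have h1 : 0 ≤ ∫ s in (0:ℝ)..(2 * Real.pi), |deriv Γ s - 1| :=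
      intervalIntegral.integral_nonneg (by positivity) (fun _ _ => abs_nonneg _)
    have h2 := h1.trans hK
    exact nonneg_of_mul_nonneg_right h2 (by positivity)
  have h1 : ∫ t in (gr M k)..(gr M (k + 1)), |deriv (fun y => h (Gm Γ p M y)) t - deriv h t| ≤
      ∫ t in (gr M k)..(gr M (k + 1)), (2 * θ * μ * deriv (Gm Γ p M) t +
        2 * μ * |deriv (Gm Γ p M) t - 1|) := by
    apply intervalIntegral.integral_mono_on hk (hcc.intervalIntegrable _ _)
    · apply Continuous.intervalIntegrable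
      fun_prop
    intro t ht
    obtain ⟨n1, n2, n3, n4⟩ := cell_near hf hΓ p hM hh hθ hr ht
    rw [deriv_comp' hh.smooth hGs]
    set a := deriv h (Gm Γ p M t)
    set b := deriv h t
    set g := deriv (Gm Γ p M) t
    have hg : 0 < g := hGp t
    have ha0 : 0 < a := hh.pos _
    have hb0 : 0 < b := hh.pos _
    have e1 : a * g - b = (a - b) * g + b * (g - 1) := by ring
    rw [e1]
    refine (abs_add_le _ _).trans ?_
    rw [abs_mul, abs_mul, abs_of_pos hg, abs_of_pos hb0]
    have e2 : |a - b| ≤ 2 * θ * μ := by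
      rw [abs_le]
      constructor
      · nlinarith
      · nlinarith
    have e3 : b ≤ 2 * μ := by nlinarith
    have e4 := mul_le_mul_of_nonneg_right e2 hg.le
    have e5 := mul_le_mul_of_nonneg_right e3 (abs_nonneg (g - 1))
    linarith
  have h2 : ∫ t in (gr M k)..(gr M (k + 1)), deriv (Gm Γ p M) t = 2 * Real.pi / M := by
    rw [← smooth_ftc hGs, Gm_grid hf hΓ p hM, Gm_grid hf hΓ p hM, hk2]
  have h3 : ∫ t in (gr M k)..(gr M (k + 1)), |deriv (Gm Γ p M) t - 1| ≤ κ * (2 * Real.pi / M) := by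
    rw [Gm_full hf hΓ p hM (fun s => |s - 1|) k]
    split_ifs
    · calc (M : ℝ)⁻¹ * ∫ s in (0:ℝ)..(2 * Real.pi), |deriv Γ s - 1|
          ≤ (M : ℝ)⁻¹ * (2 * Real.pi * κ) := mul_le_mul_of_nonneg_left hK (by positivity)
        _ = _ := by ring
    · simp only [sub_self, abs_zero, mul_zero]
      positivity
  have h4 : ∫ t in (gr M k)..(gr M (k + 1)), μ / 2 ≤ ∫ t in (gr M k)..(gr M (k + 1)), deriv h t := by
    apply intervalIntegral.integral_mono_on hk intervalIntegrable_const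
      (hch.intervalIntegrable _ _)
    intro t ht
    obtain ⟨n1, n2, n3, n4⟩ := cell_near hf hΓ p hM hh hθ hr ht
    have := hh.pos t
    nlinarith
  rw [intervalIntegral.integral_const, smul_eq_mul, hk2] at h4
  have c1 : Continuous fun t => 2 * θ * μ * deriv (Gm Γ p M) t := continuous_const.mul hcG
  have c2 : Continuous fun t => 2 * μ * |deriv (Gm Γ p M) t - 1| :=
    continuous_const.mul (hcG.sub continuous_const).abs
  rw [intervalIntegral.integral_add (c1.intervalIntegrable _ _) (c2.intervalIntegrable _ _),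
    intervalIntegral.integral_const_mul, intervalIntegral.integral_const_mul, h2] at h1
  rw [intervalIntegral.integral_const_mul]
  have h5 : 2 * μ * ∫ t in (gr M k)..(gr M (k + 1)), |deriv (Gm Γ p M) t - 1| ≤
      2 * μ * (κ * (2 * Real.pi / M)) := mul_le_mul_of_nonneg_left h3 (by positivity)
  have h6 : (4 * θ + 4 * κ) * (2 * Real.pi / M * (μ / 2)) ≤
      (4 * θ + 4 * κ) * ∫ t in (gr M k)..(gr M (k + 1)), deriv h t :=
    mul_le_mul_of_nonneg_left h4 (by positivity)
  refine h1.trans (le_trans ?_ h6)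
  calc _ ≤ 2 * θ * μ * (2 * Real.pi / M) + 2 * μ * (κ * (2 * Real.pi / M)) := by linarith
    _ = _ := by ring

lemma RH_large {σ A C' : ℝ} (hσ : 0 ≤ σ) (hA : 1 ≤ A)
    (hI : ∫ s in (0:ℝ)..(2 * Real.pi), (deriv Γ s) ^ (1 + σ) ≤ 2 * Real.pi * A)
    (hC' : 0 ≤ C') (hRH : RH σ C' h) {r l₁ l₂ : ℝ} (hl₁ : 0 < l₁)
    (hl : ∀ t, l₁ ≤ deriv h t ∧ deriv h t ≤ l₂)
    (hMr : 2 * l₂ * (2 * Real.pi / M) * (2 + θ) ≤ θ * (l₁ * r)) (hr0 : 0 < r) {x y : ℝ}
    (hxy : r ≤ y - x) :
    RHx σ (C' * A * (1 + θ) ^ (3 * (1 + σ))) (fun y => h (Gm Γ p M y)) x y := by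
  have hM0 : (0:ℝ) < M := by exact_mod_cast hM
  have hGs := Gm_smooth hf hΓ p hM
  have hGp := Gm_deriv_pos hf hΓ p hM
  have hch := rpow_cont hh.smooth hh.pos (1 + σ)
  have hcc : Continuous fun t => (deriv (fun y => h (Gm Γ p M y)) t) ^ (1 + σ) :=
    rpow_cont (hh.smooth.comp hGs) (fun t => by
      show 0 < deriv (fun y => h (Gm Γ p M y)) t
      rw [deriv_comp' hh.smooth hGs]; exact mul_pos (hh.pos _) (hGp _)) _
  have hθ1 : 0 < 1 + θ := by linarith
  have hyx : 0 < y - x := by linarith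
  set a := ci M x with ha
  set b := ci M y with hb
  have ha1 := gr_ci_le hM x
  have ha2 := lt_gr_ci hM x
  have hb1 := gr_ci_le hM y
  have hb2 := lt_gr_ci hM y
  rw [← ha] at ha1 ha2
  rw [← hb] at hb1 hb2
  have hab : a ≤ b + 1 := by
    have : gr M a < gr M (b + 1) := lt_of_le_of_lt (ha1.trans (by linarith)) hb2
    have := (gr_lt_iff hM).mp this
    omega
  set q := gr M a with hq
  set q' := gr M (b + 1) with hq'
  have hqq : q ≤ q' := gr_mono hab
  have hqlt : q < q' := by linarith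
  have hqx : x - q ≤ 2 * Real.pi / M := by
    have := gr_succ (M := M) a
    linarith
  have hqy : q' - y ≤ 2 * Real.pi / M := by
    have := gr_succ (M := M) b
    linarith
  -- step 1
  have s1 : ∫ t in x..y, (deriv (fun y => h (Gm Γ p M y)) t) ^ (1 + σ) ≤
      ∫ t in q..q', (deriv (fun y => h (Gm Γ p M y)) t) ^ (1 + σ) := by
    apply intervalIntegral.integral_mono_interval ha1 (by linarith) hb2.le _
      (hcc.intervalIntegrable _ _)
    filter_upwards with t
    apply Real.rpow_nonneg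
    rw [deriv_comp' hh.smooth hGs]
    exact (mul_pos (hh.pos _) (hGp _)).le
  have s2 := comp_mean hf hΓ p hM hh hθ hr hσ hA hI hab
  rw [← hq, ← hq'] at s2
  have s3 : ∫ t in q..q', (if p (ci M t) then A else 1) * (deriv h t) ^ (1 + σ) ≤
      A * ∫ t in q..q', (deriv h t) ^ (1 + σ) := by
    rw [← intervalIntegral.integral_const_mul]
    have hAc : Continuous fun t => A * (deriv h t) ^ (1 + σ) := continuous_const.mul hch
    have hmeas : Measurable fun t : ℝ => (if p (ci M t) then A else 1) * (deriv h t) ^ (1 + σ) := by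
      apply Measurable.mul _ hch.measurable
      apply Measurable.ite _ measurable_const measurable_const
      have : Measurable (ci M) := by
        unfold ci
        exact Int.measurable_floor.comp (by fun_prop)
      exact this (MeasurableSet.of_discrete (s := {n | p n}))
    apply intervalIntegral.integral_mono_on hqq _ (hAc.intervalIntegrable _ _)
    · intro t _
      apply mul_le_mul_of_nonneg_right _ (Real.rpow_nonneg (hh.pos t).le _)
      split_ifs <;> linarith
    · apply (hAc.intervalIntegrable q q').mono_fun' hmeas.aestronglyMeasurable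
      filter_upwards with t
      have h0 := Real.rpow_nonneg (hh.pos t).le (1 + σ)
      rw [Real.norm_eq_abs, abs_mul, abs_of_nonneg h0]
      apply mul_le_mul_of_nonneg_right _ h0
      split_ifs
      · rw [abs_of_pos (by linarith)]
      · rw [abs_one]; exact hA
  have s4 := hRH q q' hqlt
  unfold RHx at s4
  -- comparison of increments
  have hmonoh := hh.strictMono.monotone
  have hD : l₁ * r ≤ h y - h x := by
    have := smooth_lower hh.smooth (by linarith : x ≤ y) (fun t _ => (hl t).1)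
    nlinarith
  have hl₂ : 0 ≤ l₂ := (hl₁.le.trans (hl 0).1).trans (hl 0).2
  have u1 : h q' - h y ≤ l₂ * (2 * Real.pi / M) :=
    (smooth_upper hh.smooth hb2.le (fun t _ => (hl t).2)).trans
      (mul_le_mul_of_nonneg_left hqy hl₂)
  have u2 : h x - h q ≤ l₂ * (2 * Real.pi / M) :=
    (smooth_upper hh.smooth ha1 (fun t _ => (hl t).2)).trans
      (mul_le_mul_of_nonneg_left hqx hl₂)
  have hG := Gm_sub_le hΓ p hM
  have u3 : h y - h (Gm Γ p M y) ≤ l₂ * (2 * Real.pi / M) := by
    rcases le_total y (Gm Γ p M y) with hc | hc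
    · have := hmonoh hc
      have : 0 ≤ l₂ * (2 * Real.pi / M) := by positivity
      linarith
    · refine (smooth_upper hh.smooth hc (fun t _ => (hl t).2)).trans
        (mul_le_mul_of_nonneg_left ?_ hl₂)
      have := hG y
      rw [abs_le] at this
      linarith
  have u4 : h (Gm Γ p M x) - h x ≤ l₂ * (2 * Real.pi / M) := by
    rcases le_total x (Gm Γ p M x) with hc | hc
    · refine (smooth_upper hh.smooth hc (fun t _ => (hl t).2)).trans
        (mul_le_mul_of_nonneg_left ?_ hl₂)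
      have := hG x
      rw [abs_le] at this
      linarith
    · have := hmonoh hc
      have : 0 ≤ l₂ * (2 * Real.pi / M) := by positivity
      linarith
  have hcmp : h q' - h q ≤ (1 + θ) * (h (Gm Γ p M y) - h (Gm Γ p M x)) := by
    have k1 : h q' - h q ≤ (h y - h x) + 2 * (l₂ * (2 * Real.pi / M)) := by linarith
    have k2 : (h y - h x) - 2 * (l₂ * (2 * Real.pi / M)) ≤
        h (Gm Γ p M y) - h (Gm Γ p M x) := by linarith
    have k3 : θ * (l₁ * r) ≤ θ * (h y - h x) := mul_le_mul_of_nonneg_left hD hθ.le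
    nlinarith
  have hqpos : 0 ≤ h q' - h q := sub_nonneg.mpr (hmonoh hqq)
  have hΔ : 0 ≤ h (Gm Γ p M y) - h (Gm Γ p M x) := by
    have := hmonoh ((Gm_strictMono hf hΓ p hM).monotone (by linarith : x ≤ y))
    linarith
  have s5 : (h q' - h q) ^ (1 + σ) ≤
      (1 + θ) ^ (1 + σ) * (h (Gm Γ p M y) - h (Gm Γ p M x)) ^ (1 + σ) := by
    rw [← Real.mul_rpow hθ1.le hΔ]
    exact Real.rpow_le_rpow hqpos hcmp (by linarith)
  have hA0 : 0 ≤ A := by linarith
  have hI0 : 0 ≤ ∫ t in q..q', (deriv h t) ^ (1 + σ) :=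
    intervalIntegral.integral_nonneg hqq (fun t _ => Real.rpow_nonneg (hh.pos t).le _)
  have s6 : (y - x) ^ σ * ∫ t in q..q', (deriv h t) ^ (1 + σ) ≤ C' * (h q' - h q) ^ (1 + σ) := by
    refine le_trans (mul_le_mul_of_nonneg_right ?_ hI0) s4
    exact Real.rpow_le_rpow hyx.le (by linarith) hσ
  unfold RHx
  have hP1 : 0 ≤ (1 + θ) ^ (2 * (1 + σ)) := Real.rpow_nonneg hθ1.le _
  have hP0 : 0 ≤ (y - x) ^ σ := Real.rpow_nonneg hyx.le _
  calc (y - x) ^ σ * ∫ t in x..y, (deriv (fun y => h (Gm Γ p M y)) t) ^ (1 + σ)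
      ≤ (y - x) ^ σ * ((1 + θ) ^ (2 * (1 + σ)) * (A * ∫ t in q..q', (deriv h t) ^ (1 + σ))) :=
        mul_le_mul_of_nonneg_left (s1.trans (s2.trans (mul_le_mul_of_nonneg_left s3 hP1))) hP0
    _ = (1 + θ) ^ (2 * (1 + σ)) * A * ((y - x) ^ σ * ∫ t in q..q', (deriv h t) ^ (1 + σ)) := by
        ring
    _ ≤ (1 + θ) ^ (2 * (1 + σ)) * A * (C' * (h q' - h q) ^ (1 + σ)) :=
        mul_le_mul_of_nonneg_left s6 (by positivity)
    _ ≤ (1 + θ) ^ (2 * (1 + σ)) * A * (C' * ((1 + θ) ^ (1 + σ) *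
          (h (Gm Γ p M y) - h (Gm Γ p M x)) ^ (1 + σ))) := by
        apply mul_le_mul_of_nonneg_left _ (by positivity)
        exact mul_le_mul_of_nonneg_left s5 hC'
    _ = _ := by
        have : (1 + θ) ^ (3 * (1 + σ)) = (1 + θ) ^ (2 * (1 + σ)) * (1 + θ) ^ (1 + σ) := by
          rw [← Real.rpow_add hθ1]; congr 1; ring
        rw [this]; ring

end G

end

end Pool.Agent.Helper34.Weld
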